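import Pool.Agent.Lib.MP_514cbf_ag.Defs

/-! Generation in bounded degree: independence of the generators, base change. -/

noncomputable section

namespace Pool.Agent.Lib.MP_514cbf_ag

open MvPolynomial Finset

variable {R R' ι κ : Type*} [CommRing R] [CommRing R'] {f : ι → R} {g : κ → R} {n : ℕ}

/-- the map to the Rees algebra -/
def rm (f : ι → R) : MvPolynomial ι R →ₐ[R] Polynomial R :=
  aeval fun i => Polynomial.C (f i) * Polynomial.X

theorem mem_rees {P : MvPolynomial ι R} : P ∈ reesKer f ↔ rm f P = 0 := Iff.rfl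

/-- the part which is generated in degree at most `n` -/
def low (f : ι → R) (n : ℕ) : Ideal (MvPolynomial ι R) :=
  Ideal.span {g | g ∈ reesKer f ∧ g.totalDegree ≤ n}

theorem low_le : low f n ≤ reesKer f := Ideal.span_le.2 fun _ h => h.1

theorem mem_low {P : MvPolynomial ι R} (h : P ∈ reesKer f) (h' : P.totalDegree ≤ n) : P ∈ low f n :=
  Ideal.subset_span ⟨h, h'⟩

theorem low_mono {m : ℕ} (h : n ≤ m) : low f n ≤ low f m :=
  Ideal.span_mono fun _ h' => ⟨h'.1, h'.2.trans h⟩

/-- generation in degree at most `n` -/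
def Gen (f : ι → R) (n : ℕ) : Prop := reesKer f ≤ low f n

theorem Gen.mono {m : ℕ} (h : Gen f n) (h' : n ≤ m) : Gen f m := le_trans h (low_mono h')

theorem set_eq (f : ι → R) :
    {n | Ideal.span {g | g ∈ reesKer f ∧ g.totalDegree ≤ n} = reesKer f} = {n | Gen f n} :=
  Set.ext fun _ => ⟨fun h => h.ge, fun h => le_antisymm low_le h⟩

theorem rel_eq (h : Gen f (n + 1)) (h' : ¬ Gen f n) : relType f = n + 1 := by
  rw [relType, set_eq]
  exact IsLeast.csInf_eq ⟨h, fun m hm => by
    by_contra hc
    exact h' (Gen.mono hm (by omega))⟩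

theorem exists_gen [IsNoetherianRing R] [Finite ι] (f : ι → R) : ∃ n, Gen f n := by
  obtain ⟨s, hs⟩ := IsNoetherian.noetherian (reesKer f)
  refine ⟨s.sup totalDegree, ?_⟩
  rw [Gen, ← hs]
  exact Ideal.span_le.2 fun P hP => mem_low (hs ▸ Ideal.subset_span hP) (le_sup hP)

theorem le_rel [IsNoetherianRing R] [Finite ι] (h' : ¬ Gen f n) : n + 1 ≤ relType f := by
  rw [relType, set_eq]
  exact le_csInf (exists_gen f) fun m hm => by
    by_contra hc
    exact h' (Gen.mono hm (by omega))

theorem deg_aeval {u : ι → MvPolynomial κ R} (hu : ∀ i, (u i).totalDegree ≤ 1)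
    (P : MvPolynomial ι R) : (aeval u P).totalDegree ≤ P.totalDegree := by
  conv_lhs => rw [P.as_sum, map_sum]
  refine totalDegree_finsetSum_le fun m hm => ?_
  rw [aeval_monomial]
  refine (totalDegree_mul _ _).trans ?_
  rw [algebraMap_eq, totalDegree_C, zero_add]
  refine (totalDegree_finsetProd _ _).trans (le_trans (sum_le_sum fun i _ =>
    (totalDegree_pow _ _).trans (mul_le_of_le_one_right' (hu i))) (le_totalDegree hm))

theorem exists_lin (h : ∀ i, f i ∈ Ideal.span (Set.range g)) : ∃ u : ι → MvPolynomial κ R,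
    (∀ i, (u i).totalDegree ≤ 1) ∧ ∀ P, rm g (aeval u P) = rm f P := by
  have : ∀ a ∈ Ideal.span (Set.range g), ∃ u : MvPolynomial κ R, u.totalDegree ≤ 1 ∧
      rm g u = Polynomial.C a * Polynomial.X := fun a ha => by
    induction ha using Submodule.span_induction with
    | mem _ h =>
      obtain ⟨j, rfl⟩ := h
      exact ⟨X j, (isHomogeneous_X R j).totalDegree_le, aeval_X _ _⟩
    | zero => exact ⟨0, by simp, by simp⟩
    | add a b _ _ ha hb =>
      obtain ⟨u, h1, h2⟩ := ha
      obtain ⟨v, h3, h4⟩ := hb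
      exact ⟨u + v, (totalDegree_add _ _).trans (max_le h1 h3), by rw [map_add, h2, h4]; simp [add_mul]⟩
    | smul c a _ ha =>
      obtain ⟨u, h1, h2⟩ := ha
      exact ⟨c • u, (totalDegree_smul_le _ _).trans h1, by
        rw [map_smul, h2]; simp [Polynomial.smul_eq_C_mul, mul_assoc]⟩
  choose u h1 h2 using fun i => this _ (h i)
  refine ⟨u, h1, fun P => ?_⟩
  rw [← AlgHom.comp_apply, comp_aeval]
  simp only [h2]
  rfl

theorem sub_aeval_mem (I : Ideal (MvPolynomial ι R)) {u : ι → MvPolynomial ι R}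
    (h : ∀ i, X i - u i ∈ I) (P : MvPolynomial ι R) : P - aeval u P ∈ I := by
  induction P using MvPolynomial.induction_on with
  | C a => simp
  | add p q hp hq => convert I.add_mem hp hq using 1; rw [map_add]; ring
  | mul_X p i hp =>
    convert I.add_mem (I.mul_mem_right (X i) hp) (I.mul_mem_left (aeval u p) (h i)) using 1
    rw [map_mul, aeval_X]; ring

theorem Gen.of_span (h : Gen g n) (h1 : 1 ≤ n)
    (e : Ideal.span (Set.range f) = Ideal.span (Set.range g)) : Gen f n := by
  obtain ⟨u, u1, u2⟩ := exists_lin fun i => e ▸ Ideal.subset_span (Set.mem_range_self (f := f) i)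
  obtain ⟨v, v1, v2⟩ := exists_lin fun i => e.symm ▸ Ideal.subset_span (Set.mem_range_self (f := g) i)
  intro P hP
  have k1 : P - aeval v (aeval u P) ∈ low f n := by
    rw [← AlgHom.comp_apply, comp_aeval]
    refine sub_aeval_mem _ (fun i => mem_low ?_ ?_) P
    · rw [mem_rees, map_sub, v2, ← aeval_X (R := R) u i, u2, sub_self]
    · exact (totalDegree_sub _ _).trans (max_le ((isHomogeneous_X R i).totalDegree_le.trans h1)
        ((deg_aeval v1 _).trans ((u1 i).trans h1)))
  have k2 : low g n ≤ (low f n).comap (aeval v) := Ideal.span_le.2 fun Q hQ =>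
    mem_low (by rw [mem_rees, v2]; exact hQ.1) ((deg_aeval v1 _).trans hQ.2)
  rw [← sub_add_cancel P (aeval v (aeval u P))]
  exact (low f n).add_mem k1 (k2 (h (show rm g _ = 0 by rw [u2]; exact hP)))

theorem rm_map (υ : R →+* R') (P : MvPolynomial ι R) :
    rm (υ ∘ f) (map υ P) = (rm f P).map υ := by
  induction P using MvPolynomial.induction_on with
  | C a => simp [rm]
  | add p q hp hq => simp [hp, hq]
  | mul_X p i hp => rw [map_mul, map_mul, map_mul, hp, Polynomial.map_mul]; simp [rm]

theorem deg_map (υ : R →+* R') (P : MvPolynomial ι R) : (map υ P).totalDegree ≤ P.totalDegree :=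
  sup_mono (support_map_subset _ _)

/-- base change along a free extension -/
theorem Gen.base {τ : Type*} [Fintype τ] (h : Gen f n) (υ : R →+* R') (e : τ → R')
    (h1 : ∀ r, ∃ c : τ → R, r = ∑ i, e i * υ (c i))
    (h2 : ∀ c : τ → R, ∑ i, e i * υ (c i) = 0 → ∀ i, c i = 0) : Gen (υ ∘ f) n := by
  intro P hP
  obtain ⟨Q, rfl⟩ : ∃ Q : τ → MvPolynomial ι R, P = ∑ i, C (e i) * map υ (Q i) := by
    clear hP
    induction P using MvPolynomial.induction_on' with
    | monomial m a =>
      obtain ⟨c, rfl⟩ := h1 a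
      exact ⟨fun i => monomial m (c i), by simp [map_monomial, C_mul_monomial]⟩
    | add p q hp hq =>
      obtain ⟨a, rfl⟩ := hp
      obtain ⟨b, rfl⟩ := hq
      exact ⟨a + b, by simp [mul_add, sum_add_distrib]⟩
  have k : low f n ≤ (low (υ ∘ f) n).comap (map υ) := Ideal.span_le.2 fun Q hQ =>
    mem_low (by rw [mem_rees, rm_map, mem_rees.1 hQ.1, Polynomial.map_zero])
      ((deg_map _ _).trans hQ.2)
  refine Ideal.sum_mem _ fun i _ => Ideal.mul_mem_left _ _ (k (h (Polynomial.ext fun d => ?_)))
  refine h2 (fun i => (rm f (Q i)).coeff d) ?_ i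
  have := congrArg (·.coeff d) (mem_rees.1 hP)
  simpa only [map_sum, map_mul, rm_map, algHom_C, Polynomial.algebraMap_eq,
    Polynomial.finsetSum_coeff, Polynomial.coeff_C_mul, Polynomial.coeff_map,
    Polynomial.coeff_zero] using this

theorem gen_equiv (θ : R ≃+* R') : Gen (θ ∘ f) n ↔ Gen f n := by
  refine ⟨fun h => ?_, fun h => h.base (τ := Unit) θ.toRingHom (fun _ => 1)
    (fun r => ⟨fun _ => θ.symm r, by simp⟩) fun c hc i => by simpa using hc⟩
  have := h.base (τ := Unit) θ.symm.toRingHom (fun _ => 1) (fun r => ⟨fun _ => θ r, by simp⟩)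
    fun c hc i => by simpa using hc
  convert this using 1
  funext i
  simp

/-! ### homogeneous components -/

theorem hc_mul {σ : Type*} {u : MvPolynomial σ R} {b : ℕ} (hu : u.IsHomogeneous b) (a : ℕ)
    (P : MvPolynomial σ R) :
    homogeneousComponent (b + a) (u * P) = u * homogeneousComponent a P := by
  let := gradedAlgebra (σ := σ) (R := R)
  rw [← decomposition.decompose'_apply, ← decomposition.decompose'_apply]
  exact DirectSum.coe_decompose_mul_add_of_left_mem (homogeneousSubmodule σ R) (j := a) (b := P) hu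

theorem rm_hom {P : MvPolynomial ι R} (h : P.IsHomogeneous n) :
    rm f P = Polynomial.monomial n (eval f P) := by
  conv_lhs => rw [P.as_sum, map_sum]
  rw [eval_eq, map_sum]
  refine sum_congr rfl fun m hm => ?_
  rw [rm, aeval_monomial, Finsupp.prod, ← Polynomial.C_mul_X_pow_eq_monomial,
    ← h.degree_eq_sum_deg_support hm |>.symm]
  simp [mul_pow, prod_mul_distrib, prod_pow_eq_pow_sum, mul_assoc]

theorem rm_coeff (P : MvPolynomial ι R) (n : ℕ) :
    (rm f P).coeff n = eval f (homogeneousComponent n P) := by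
  conv_lhs => rw [← sum_homogeneousComponent P, map_sum]
  simp only [rm_hom (homogeneousComponent_isHomogeneous _ _), Polynomial.finsetSum_coeff,
    Polynomial.coeff_monomial, sum_ite_eq', mem_range]
  split_ifs with h
  · rfl
  · rw [homogeneousComponent_eq_zero _ _ (by omega), map_zero]

theorem hc_mem {P : MvPolynomial ι R} (h : P ∈ reesKer f) (n : ℕ) :
    homogeneousComponent n P ∈ reesKer f := by
  rw [mem_rees, rm_hom (homogeneousComponent_isHomogeneous _ _), ← rm_coeff, mem_rees.1 h]
  simp

end Pool.Agent.Lib.MP_514cbf_ag
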