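import Pool.Agent.Lib.MP_514cbf_ag.Sat

/-! The components of the Rees ideal in the grading of the ground ring. -/

noncomputable section

namespace Pool.Agent.Lib.MP_514cbf_ag

open MvPolynomial Finset

section cw

variable {σ R R' : Type*} [CommRing R] [CommRing R']

/-- coefficientwise maps -/
def cw (θ : R →+ R') : MvPolynomial σ R →+ MvPolynomial σ R' where
  toFun P := AddMonoidAlgebra.map θ P
  map_zero' := MvPolynomial.ext _ _ fun m => by simp
  map_add' P Q := MvPolynomial.ext _ _ fun m => by simp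

theorem coeff_cw (θ : R →+ R') (P : MvPolynomial σ R) (m : σ →₀ ℕ) :
    coeff m (cw θ P) = θ (coeff m P) := rfl

theorem cw_X (θ : R →+ R') (i : σ) (P : MvPolynomial σ R) : cw θ (X i * P) = X i * cw θ P := by
  classical
  refine MvPolynomial.ext _ _ fun m => ?_
  rw [coeff_cw, coeff_X_mul', coeff_X_mul', coeff_cw]
  split_ifs <;> simp

theorem cw_C {θ θ' : R →+ R'} {u : R} {u' : R'} (h : ∀ r, θ (u * r) = u' * θ' r)
    (P : MvPolynomial σ R) : cw θ (C u * P) = C u' * cw θ' P :=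
  MvPolynomial.ext _ _ fun m => by rw [coeff_cw, coeff_C_mul, coeff_C_mul, coeff_cw, h]

end cw

section pr

variable {S ι : Type*} [CommRing S] [LinearOrder ι] {l : ι → S} {θ θ' : S →+ S}

/-- projections of the complex -/
def pr (i : ℕ) (θ : S →+ S) : (Finset ι → S) →+ (Finset ι → S) where
  toFun z J := if J.card = i then θ (z J) else 0
  map_zero' := by funext J; simp
  map_add' z w := by funext J; by_cases h : J.card = i <;> simp [h]

omit [LinearOrder ι] in
theorem pr_apply (i : ℕ) (z : Finset ι → S) (J : Finset ι) :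
    pr i θ z J = if J.card = i then θ (z J) else 0 := rfl

theorem pr_dK (A : Finset ι) (h : ∀ j w, θ (l j * w) = l j * θ' w) (i : ℕ) (z : Finset ι → S) :
    dK l A (pr (i + 1) θ' z) = pr i θ (dK l A z) := by
  funext J
  simp only [pr_apply, dK_apply, map_sum, h, del_apply]
  split_ifs with h1
  · refine sum_congr rfl fun j _ => ?_
    by_cases hj : j ∈ J
    · simp [hj]
    · rcases neg_one_pow_eq_or S (J.filter (· < j)).card with e | e <;> simp [hj, h1, sg, e]
  · exact sum_eq_zero fun j _ => by by_cases hj : j ∈ J <;> simp [hj, h1]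

omit [LinearOrder ι] in
theorem pr_smul {s : S} (h : ∀ w, θ (s * w) = s * θ' w) (i : ℕ) (z : Finset ι → S) :
    pr i θ (s • z) = s • pr i θ' z := by
  funext J
  by_cases h1 : J.card = i <;> simp [pr_apply, h1, h]

end pr

variable {k σ ι : Type*} [Field k] {N : ℕ}

/-- ideals generated by powers of variables -/
def JJ (k : Type*) [Field k] (s : Finset (Fin 3)) (N : ℕ) : Ideal (MvPolynomial (Fin 3) k) :=
  Ideal.span ((fun j => X j ^ N) '' s)

theorem mem_JJ {s : Finset (Fin 3)} {a : MvPolynomial (Fin 3) k} :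
    a ∈ JJ k s N ↔ ∀ m ∈ a.support, ∃ j ∈ s, N ≤ m j := by
  have := mem_ideal_span_monomial_image (x := a) (s := (fun j => Finsupp.single j N) '' s)
  rw [Set.image_image] at this
  simpa [JJ, X_pow_eq_monomial, Finsupp.single_le_iff] using this

theorem reg_JJ {s : Finset (Fin 3)} {i : Fin 3} (hi : i ∉ s) {a : MvPolynomial (Fin 3) k}
    (h : X i ^ N * a ∈ JJ k s N) : a ∈ JJ k s N := mem_JJ.2 fun m hm => by
  obtain ⟨j, h1, h2⟩ := mem_JJ.1 h (Finsupp.single i N + m) (by
    rw [mem_support_iff, X_pow_eq_monomial, coeff_monomial_mul, one_mul]; exact mem_support_iff.1 hm)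
  exact ⟨j, h1, by simpa [Finsupp.single_eq_of_ne (ne_of_mem_of_not_mem h1 hi)] using h2⟩

theorem hom_JJ {a : MvPolynomial (Fin 3) k} {d : ℕ} (h : a.IsHomogeneous d) (hd : 3 * N ≤ d + 2) :
    a ∈ JJ k univ N := mem_JJ.2 fun m hm => by
  have : m.degree = d := by_contra fun hc => mem_support_iff.1 hm (h.coeff_eq_zero hc)
  rw [Finsupp.degree_eq_sum, Fin.sum_univ_three] at this
  by_contra hc
  simp only [mem_univ, true_and, not_exists, not_le] at hc
  have := hc 0
  have := hc 1
  have := hc 2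
  omega

/-- powers of the variables of the ground ring -/
def pp (k σ : Type*) [Field k] (N : ℕ) (j : Fin 3) : MvPolynomial σ (MvPolynomial (Fin 3) k) :=
  C (X j) ^ N

theorem dec (s : Finset (Fin 3)) {z : ι → MvPolynomial σ (MvPolynomial (Fin 3) k)}
    (h : ∀ I m, coeff m (z I) ∈ JJ k s N) :
    ∃ c : Fin 3 → ι → _, z = ∑ j ∈ s, pp k σ N j • c j := by
  have := fun I => mem_map_C_iff.2 (h I)
  simp only [JJ, Ideal.map_span, Set.image_image] at this
  choose c hc using fun I => (Submodule.mem_span_image_finset_iff_exists_fun' _).1 (this I)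
  exact ⟨fun j I => c I j, funext fun I => by simp [← hc, pp, mul_comm]⟩

theorem coeff_pp (j : Fin 3) (z : ι → MvPolynomial σ (MvPolynomial (Fin 3) k)) (I : ι)
    (m : σ →₀ ℕ) : coeff m ((pp k σ N j • z) I) = X j ^ N * coeff m (z I) := by
  rw [Pi.smul_apply, smul_eq_mul, pp, ← C_pow, coeff_C_mul]

theorem rs : RS (ι → MvPolynomial σ (MvPolynomial (Fin 3) k)) (pp k σ N 0) (pp k σ N 1)
    (pp k σ N 2) := by
  have k1 : ∀ s : Finset (Fin 3), ∀ j ∈ s, ∀ (z : ι → MvPolynomial σ (MvPolynomial (Fin 3) k)) I m,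
      coeff m ((pp k σ N j • z) I) ∈ JJ k s N := fun s j hj z I m =>
    coeff_pp j z I m ▸ Ideal.mul_mem_right _ _ (Ideal.subset_span ⟨j, hj, rfl⟩)
  refine ⟨fun a h => ?_, fun a b h => ?_, fun a b c h => ?_⟩
  · simpa using dec (N := N) (z := a) ∅ fun I m => reg_JJ (i := 0) (by simp) (by
      rw [← coeff_pp, h]; exact zero_mem _)
  · obtain ⟨c, hc⟩ := dec (N := N) (z := a) {0} fun I m => reg_JJ (i := 1) (by simp) (by
      rw [← coeff_pp, h]; exact k1 _ _ (by simp) _ _ _)
    exact ⟨c 0, by simpa using hc⟩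
  · obtain ⟨c, hc⟩ := dec (N := N) (z := a) {0, 1} fun I m => reg_JJ (i := 2) (by simp) (by
      rw [← coeff_pp, h, Pi.add_apply, coeff_add]
      exact add_mem (k1 _ _ (by simp) _ _ _) (k1 _ _ (by simp) _ _ _))
    exact ⟨c 0, c 1, by simpa using hc⟩

variable {h n δ : ℕ} (α β : ℕ → MvPolynomial (Fin 3) k)

/-- the family of generators -/
def FI (h : ℕ) (i : Fin (h + 1)) : MvPolynomial (Fin 3) k := FF α β h i

/-- zigzags -/
def CH (h N : ℕ) (f g : Finset (Fin h) → MvPolynomial (Fin (h + 1)) (MvPolynomial (Fin 3) k)) : Prop :=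
  Ch (dK (ell α β) univ) (pp k _ N 0) (pp k _ N 1) (pp k _ N 2) f g

/-- classes which come from elements of small degree -/
def Good (h N n : ℕ) : Submodule (MvPolynomial (Fin (h + 1)) (MvPolynomial (Fin 3) k))
    (Finset (Fin h) → MvPolynomial (Fin (h + 1)) (MvPolynomial (Fin 3) k)) where
  carrier := {g | ∃ f, f ∅ ∈ low (FI α β h) n ∧ CH α β h N f g}
  zero_mem' := ⟨0, zero_mem _, 0, 0, 0, 0, 0, 0, by simp⟩
  add_mem' := fun ⟨_, a1, a2⟩ ⟨_, b1, b2⟩ => ⟨_, add_mem a1 b1, a2.add b2⟩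
  smul_mem' := fun c _ ⟨f, a1, a2⟩ => ⟨c • f, Ideal.mul_mem_left _ c a1, a2.smul c⟩

/-- components in the grading of the ground ring -/
def xi (d : ℕ) : MvPolynomial σ (MvPolynomial (Fin 3) k) →+ MvPolynomial σ (MvPolynomial (Fin 3) k) :=
  cw (homogeneousComponent d).toAddMonoidHom

variable {α β} {f g : Finset (Fin h) → MvPolynomial (Fin (h + 1)) (MvPolynomial (Fin 3) k)}

theorem ell_hom (j : Fin h) : (ell α β j).IsHomogeneous 1 :=
  (isHomogeneous_C_mul_X _ _).sub (isHomogeneous_C_mul_X _ _)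

theorem span_low (hn : 1 ≤ n) :
    Ideal.span (ell α β '' (univ : Finset (Fin h))) ≤ low (FI α β h) n := Ideal.span_le.2 (by
  rintro _ ⟨j, -, rfl⟩
  exact mem_low (ell_mem j) ((ell_hom j).totalDegree_le.trans hn))

theorem CH.mem (c : CH α β h N f g) : f ∅ ∈ reesKer (FI α β h) := by
  obtain ⟨g1, -, -, -, -, -, a1, -⟩ := c
  have := low_le (span_low le_rfl (congrFun a1 ∅ ▸ dK_mem))
  simpa [mem_rees, pp] using this

theorem CH.out (c : CH α β h N f g) (hg : g ∈ Good α β h N n) (hn : 1 ≤ n) :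
    f ∅ ∈ low (FI α β h) n := by
  obtain ⟨f', a1, a2⟩ := hg
  obtain ⟨y, hy⟩ := Ch.down rs (fun _ => dK_dK) (a := 0) (b := 0) (c := 0)
    (by simpa using c.add (a2.smul (-1)))
  rw [← sub_add_cancel (f ∅) (f' ∅)]
  exact add_mem (span_low hn (by
    rw [show f ∅ - f' ∅ = _ by simpa [sub_eq_add_neg] using congrFun hy ∅]; exact dK_mem)) a1

theorem good_pk (hg : ∀ I m, coeff m (g I) ∈ JJ k univ N) : g ∈ Good α β h N n := by
  obtain ⟨c, rfl⟩ := dec univ hg
  exact ⟨0, zero_mem _, 0, 0, 0, dK (ell α β) univ (c 2), -dK (ell α β) univ (c 1),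
    dK (ell α β) univ (c 0), by simp [Fin.sum_univ_three, dK_dK]⟩

theorem good_low {e : ℕ} (h1 : ∀ I, I.card ≠ 3 → g I = 0) (h2 : ∀ I, (g I).IsHomogeneous e)
    (h3 : ∀ I m, coeff m (dK (ell α β) univ g I) ∈ JJ k univ N) : g ∈ Good α β h N (e + 3) := by
  obtain ⟨c, hc⟩ := dec univ h3
  obtain ⟨f, hf⟩ := Ch.up rs (fun _ => dK_dK) (a := c 0) (b := -c 1) (c := c 2)
    (by simpa [Fin.sum_univ_three] using hc)
  have : CH α β h N _ _ := hf.proj
    (fun i => pr i (homogeneousComponent (e + 3 - i)).toAddMonoidHom)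
    (fun i => pr i (homogeneousComponent (e + 3 - i)).toAddMonoidHom)
    (fun i hi => pr_dK _ (fun j w => by
      rw [show e + 3 - i = 1 + (e + 3 - (i + 1)) by omega]; exact hc_mul (ell_hom j) _ _) i)
    fun i hi z s hs => pr_smul (fun w => by
      rcases hs with rfl | rfl | rfl <;> rw [pp, ← C_pow] <;>
        exact homogeneousComponent_C_mul _ _ _) i z
  refine ⟨_, mem_low this.mem (homogeneousComponent_isHomogeneous _ _).totalDegree_le, ?_⟩
  convert this using 1
  funext I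
  by_cases hI : I.card = 3
  · simp [pr_apply, hI, homogeneousComponent_of_mem (h2 I)]
  · simp [pr_apply, hI, h1]

theorem xi_low {I : Ideal (MvPolynomial σ (MvPolynomial (Fin 3) k))}
    {P : MvPolynomial σ (MvPolynomial (Fin 3) k)} (hP : ∀ j, xi j P ∈ I) : P ∈ I := by
  have : P = ∑ j ∈ range (P.support.sup (fun m => (coeff m P).totalDegree) + 1), xi j P :=
    MvPolynomial.ext _ _ fun m => by
      rw [coeff_sum]
      by_cases hm : m ∈ P.support
      · exact (sum_homogeneousComponent _).symm.trans <| sum_subset (range_mono (Nat.succ_le_succ (le_sup (f := fun m =>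
          (coeff m P).totalDegree) hm))) fun j _ hj => homogeneousComponent_eq_zero _ _ (by simpa using hj)
      · simp [xi, coeff_cw, notMem_support_iff.1 hm]
  exact this ▸ sum_mem fun j _ => hP j

theorem xi_C {u : MvPolynomial (Fin 3) k} (hu : u.IsHomogeneous N) (d : ℕ)
    (w : MvPolynomial σ (MvPolynomial (Fin 3) k)) : xi (N + d) (C u * w) = C u * xi d w :=
  MvPolynomial.ext _ _ fun m => by
    rw [xi, xi, coeff_cw, coeff_C_mul, coeff_C_mul, coeff_cw]; exact hc_mul hu d _

variable (hd : ∀ i < h, (α i).IsHomogeneous δ ∧ (β i).IsHomogeneous δ)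
include hd

theorem xi_ell (d : ℕ) (j : Fin h) (w : MvPolynomial (Fin (h + 1)) (MvPolynomial (Fin 3) k)) :
    xi (δ + d) (ell α β j * w) = ell α β j * xi d w := by
  have k1 : ∀ {u : MvPolynomial (Fin 3) k}, u.IsHomogeneous δ → ∀ i : Fin (h + 1),
      xi (δ + d) (C u * (X i * w)) = C u * (X i * xi d w) := fun hu i =>
    (xi_C hu d _).trans (by rw [xi, cw_X])
  simp only [ell, sub_mul, mul_assoc, map_sub, k1 (hd j j.2).1, k1 (hd j j.2).2]

omit hd in
theorem xi_pp (d : ℕ) (j : Fin 3) (w : MvPolynomial σ (MvPolynomial (Fin 3) k)) :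
    xi (N + d) (pp k σ N j * w) = pp k σ N j * xi d w := by
  rw [pp, ← C_pow]
  exact xi_C (isHomogeneous_X_pow j N) d w

omit hd in
theorem chase0 (H : ∀ i, Hyp α β h (X i)) {P : MvPolynomial (Fin (h + 1)) (MvPolynomial (Fin 3) k)}
    (hP : P ∈ reesKer (FI α β h)) (c : ℕ) :
    ∃ (M : ℕ) (g : _), CH α β h (M + c) (Pi.single ∅ P) g := by
  obtain ⟨M, g, hg⟩ := Ch.exists (D := dK (ell α β) univ) (p := C (X 0)) (q := C (X 1)) (r := C (X 2))
    (f := Pi.single ∅ P) (Submodule.comap (LinearMap.proj ∅) (Ideal.span (ell α β '' (univ : Finset (Fin h)))))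
    (fun s hs z hz h0 => by
      obtain ⟨i, rfl⟩ : ∃ i, s = C (X i) := by rcases hs with rfl | rfl | rfl <;> exact ⟨_, rfl⟩
      obtain ⟨N, y, hy⟩ := (H i).ex z h0 fun I hI => by
        rw [show I = ∅ from disjoint_top.1 hI]; exact hz
      exact ⟨N, Function.update y ∅ 0, by simp, hy.trans (funext fun I => dK_congr fun i _ => by
        rw [Function.update_of_ne (insert_ne_empty _ _)])⟩)
    (funext fun I => (dK_congr (z' := 0) fun i _ => by simp).trans (by simp))
    fun s hs => by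
      obtain ⟨i, rfl⟩ : ∃ i, s = C (X i) := by rcases hs with rfl | rfl | rfl <;> exact ⟨_, rfl⟩
      simpa using (H i).rees hP
  have := hg.raise 1 (C (X 0) ^ c) (C (X 1) ^ c) (C (X 2) ^ c)
  simp only [← pow_add, add_comm c, one_smul] at this
  exact ⟨M, _, this⟩

theorem chase (H : ∀ i, Hyp α β h (X i)) {P : MvPolynomial (Fin (h + 1)) (MvPolynomial (Fin 3) k)}
    (hP : P ∈ reesKer (FI α β h)) (j : ℕ) : ∃ (M : ℕ) (f g : _), f ∅ = xi j P ∧
      CH α β h (M + 1 + δ) f g ∧ (∀ I, I.card ≠ 3 → g I = 0) ∧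
        ∀ I m, (coeff m (g I)).IsHomogeneous (j + 3 * (M + 1)) := by
  obtain ⟨M, g, hg⟩ := chase0 H hP (1 + δ)
  rw [← add_assoc] at hg
  have : CH α β h (M + 1 + δ) _ _ := hg.proj (fun i => pr i (xi (j + i * (M + 1))))
    (fun i => pr i (xi (δ + (j + (i + 1) * (M + 1))))) (fun i _ => pr_dK _ (xi_ell hd _) i)
    fun i _ z s hs => pr_smul (fun w => by
      rw [show δ + (j + (i + 1) * (M + 1)) = M + 1 + δ + (j + i * (M + 1)) by ring]
      rcases hs with rfl | rfl | rfl <;> exact xi_pp _ _ w) i z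
  refine ⟨M, _, _, by simp [pr_apply], this, fun I hI => if_neg hI, fun I m => ?_⟩
  rw [pr_apply]
  split_ifs
  exacts [homogeneousComponent_isHomogeneous _ _, isHomogeneous_zero _ _ _]

theorem chase_high (H : ∀ i, Hyp α β h (X i))
    {P : MvPolynomial (Fin (h + 1)) (MvPolynomial (Fin 3) k)} (hP : P ∈ reesKer (FI α β h)) {j : ℕ}
    (hj : 2 * δ ≤ j + 2) : xi j P ∈ low (FI α β h) 3 := by
  obtain ⟨M, f, g, h1, h2, h3, h4⟩ := chase hd H hP j
  refine h1 ▸ h2.out ?_ (by norm_num)
  have : g = ∑ I, ∑ m ∈ (g I).support, monomial m (1 : MvPolynomial (Fin 3) k) •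
      Pi.single I (C (coeff m (g I))) := funext fun I => by
    simp [Pi.single_apply, mul_comm, C_mul_monomial]
  refine this ▸ sum_mem fun I _ => sum_mem fun m _ => Submodule.smul_mem _ _ ?_
  set z : Finset (Fin h) → MvPolynomial (Fin (h + 1)) (MvPolynomial (Fin 3) k) :=
    Pi.single I (C (coeff m (g I))) with hz
  have k1 : ∀ J, J.card ≠ 3 → z J = 0 := fun J hJ => by
    by_cases e : J = I
    · simp [hz, e, h3 _ (e ▸ hJ)]
    · simp [hz, e]
  have k2 : z = pr 3 (xi (j + 3 * (M + 1))) z := funext fun J => by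
    rw [pr_apply]
    split_ifs with e
    · refine MvPolynomial.ext _ _ fun u => ?_
      simp only [xi, coeff_cw, hz, Pi.single_apply]
      split_ifs
      · rw [coeff_C]
        split_ifs <;> simp [homogeneousComponent_of_mem (h4 I m)]
      · simp
    · exact k1 J e
  refine good_low (e := 0) k1 (fun J => ?_) fun J u => ?_
  · rw [hz, Pi.single_apply]
    split_ifs
    exacts [isHomogeneous_C _ _, isHomogeneous_zero _ _ _]
  · rw [k2, pr_dK _ (xi_ell hd _), pr_apply]
    split_ifs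
    exacts [hom_JJ (homogeneousComponent_isHomogeneous _ _) (by omega), zero_mem _]

end Pool.Agent.Lib.MP_514cbf_ag
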