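import Mathlib

/-! Relation type of basic configurations: definitions. -/

noncomputable section

namespace Pool.Agent.Lib.MP_514cbf_ag

open MvPolynomial Projectivization
open scoped LinearAlgebra.Projectivization Classical

/-- the kernel of `R[T_i] → R[t]`, `T_i ↦ f_i t` -/
def reesKer {R ι : Type*} [CommRing R] (f : ι → R) : Ideal (MvPolynomial ι R) :=
  RingHom.ker (aeval (R := R) fun i => Polynomial.C (f i) * Polynomial.X)

/-- the least `n` such that the kernel is generated by its elements of degree at most `n` -/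
def relType {R ι : Type*} [CommRing R] (f : ι → R) : ℕ :=
  sInf {n | Ideal.span {g | g ∈ reesKer f ∧ g.totalDegree ≤ n} = reesKer f}

/-- admissible choices of rank `2 h`; lines are points of the dual plane, the lines
number `2 i + 1` and `2 i + 2` have the indices `(i, 0)` and `(i, 1)` -/
structure Adm (k : Type*) [Field k] (h : ℕ) where
  p : ℙ k (Fin 3 → k)
  q : ℙ k (Fin 3 → k)
  L : Fin h × Fin 2 → ℙ k (Fin 3 → k)
  M : Fin h × Fin 2 → ℙ k (Fin 3 → k)
  ne : p ≠ q
  pL : ∀ j, orthogonal p (L j)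
  qM : ∀ t, orthogonal q (M t)
  LM : ∀ j t : Fin h × Fin 2, t.1 ≤ j.1 → L j ≠ M t
  inj : ∀ j t j' t' : Fin h × Fin 2, t.1 ≤ j.1 → t'.1 ≤ j'.1 →
    cross (L j) (M t) = cross (L j') (M t') → j = j' ∧ t = t'

variable {k : Type*} [Field k] {h : ℕ}

/-- the basic configuration -/
def Adm.pts (c : Adm k h) : Set (ℙ k (Fin 3 → k)) :=
  {P | ∃ j t : Fin h × Fin 2, t.1 ≤ j.1 ∧ P = cross (c.L j) (c.M t)}

/-- the homogeneous ideal of a set of points -/
def ptIdeal (X : Set (ℙ k (Fin 3 → k))) : Ideal (MvPolynomial (Fin 3) k) :=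
  Ideal.span {f | (∃ n, f.IsHomogeneous n) ∧ ∀ P ∈ X, eval P.rep f = 0}

/-- a linear form which defines the line -/
def lin (L : ℙ k (Fin 3 → k)) : MvPolynomial (Fin 3) k := ∑ i, C (L.rep i) * X i

/-- the line pairs with index in `s` lie in one pencil with the double line `Z` -/
def Pencil (Z : ℙ k (Fin 3 → k)) (L : Fin h × Fin 2 → ℙ k (Fin 3 → k)) (s : Set (Fin h)) : Prop :=
  ∃ u, ∀ i ∈ s, lin (L (i, 0)) * lin (L (i, 1)) ∈ Submodule.span k {u, lin Z ^ 2}

/-- the relation types which occur in rank `2 h` over `k` -/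
def vals (k : Type*) [Field k] (h : ℕ) : Set ℕ :=
  {n | ∃ (c : Adm k h) (m : ℕ) (f : Fin m → MvPolynomial (Fin 3) k),
    Ideal.span (Set.range f) = ptIdeal c.pts ∧ relType f = n}

end Pool.Agent.Lib.MP_514cbf_ag
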