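import Mathlib

/-! Elimination for three conics, primes of height one. -/

noncomputable section

namespace Pool.Agent.Lib.MP_514cbf_ag

open Finset

attribute [local instance] Polynomial.algebra in
theorem principal {A : Type*} [CommRing A] [IsDomain A] [UniqueFactorizationMonoid A]
    (p : Ideal (Polynomial A)) [hp : p.IsPrime] (h : ∀ a, Polynomial.C a ∈ p → a = 0) (h0 : p ≠ ⊥) :
    ∃ f ∈ p, ∀ g ∈ p, f ∣ g := by
  obtain ⟨f, h1, h2⟩ := hp.exists_mem_prime_of_ne_bot h0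
  have := Polynomial.isLocalization (nonZeroDivisors A) (FractionRing A)
  have hq := (Ideal.span_singleton_prime h2.ne_zero).2 h2
  have hle : Ideal.span {f} ≤ p := (Ideal.span_singleton_le_iff_mem _).2 h1
  have d1 : Disjoint (((nonZeroDivisors A).map Polynomial.C : Submonoid _) : Set (Polynomial A)) p :=
    Set.disjoint_left.2 (by rintro _ ⟨a, ha, rfl⟩ hm; exact nonZeroDivisors.ne_zero ha (h a hm))
  have d2 := d1.mono_right (SetLike.coe_subset_coe.2 hle)
  have e1 := IsLocalization.under_map_of_isPrime_disjoint _ (Polynomial (FractionRing A)) hp d1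
  have e2 := IsLocalization.under_map_of_isPrime_disjoint _ (Polynomial (FractionRing A)) hq d2
  have m := (IsLocalization.isPrime_of_isPrime_disjoint _ (Polynomial (FractionRing A)) _ hq
    d2).isMaximal fun e => by
      have : f ∈ Ideal.span {f} := Ideal.mem_span_singleton_self f
      rw [← e2, e, Ideal.under_def, Ideal.mem_comap, Ideal.mem_bot] at this
      exact h2.ne_zero ((Polynomial.map_eq_zero_iff (IsFractionRing.injective A _)).1 this)
  rw [← m.eq_of_le (IsLocalization.isPrime_of_isPrime_disjoint _ _ _ hp d1).ne_top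
    (Ideal.map_mono hle), e2] at e1
  exact ⟨f, h1, fun g hg => Ideal.mem_span_singleton.1 (e1 ▸ hg)⟩

section det

variable {A A' : Type*} [CommRing A] [CommRing A']

/-- minors -/
def d3 (c : Fin 5 → Fin 3 → A) (i j l : Fin 5) : A :=
  c i 0 * (c j 1 * c l 2 - c j 2 * c l 1) - c i 1 * (c j 0 * c l 2 - c j 2 * c l 0) +
    c i 2 * (c j 0 * c l 1 - c j 1 * c l 0)

/-- the matrix of Sylvester -/
def MM (c : Fin 5 → Fin 3 → A) : Matrix (Fin 6) (Fin 6) A :=
  !![c 0 0, 0, c 1 0, c 2 0, c 3 0, c 4 0;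
    c 0 1, 0, c 1 1, c 2 1, c 3 1, c 4 1;
    c 0 2, 0, c 1 2, c 2 2, c 3 2, c 4 2;
    0, d3 c 0 2 4, d3 c 0 3 4, 0, d3 c 1 2 4, d3 c 1 3 4;
    d3 c 0 2 1, d3 c 0 2 3, d3 c 0 2 4, 0, 0, 0;
    0, d3 c 0 2 1, 0, d3 c 0 2 3, d3 c 0 2 4, 0]

/-- the equation in the symmetric case -/
def E6 (c : Fin 5 → Fin 3 → A) : A := d3 c 0 2 4 ^ 2 - d3 c 0 3 4 * d3 c 0 2 3

theorem d3_map (f : A →+* A') (c : Fin 5 → Fin 3 → A) (i j l : Fin 5) :
    f (d3 c i j l) = d3 (fun i j => f (c i j)) i j l := by simp [d3]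

theorem MM_map (f : A →+* A') (c : Fin 5 → Fin 3 → A) :
    f (MM c).det = (MM fun i j => f (c i j)).det := by
  rw [RingHom.map_det]
  congr 1
  ext i j
  fin_cases i <;> fin_cases j <;> simp [MM, d3_map]

theorem E6_map (f : A →+* A') (c : Fin 5 → Fin 3 → A) : f (E6 c) = E6 fun i j => f (c i j) := by
  simp [E6, d3_map]

variable [IsDomain A] {c : Fin 5 → Fin 3 → A} {x y z : A} (hx : x ≠ 0) (hz : z ≠ 0)
  (h : ∀ i, c 0 i * x ^ 2 + c 1 i * x * z + c 2 i * y ^ 2 + c 3 i * y * z + c 4 i * z ^ 2 = 0)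
include hz h

theorem lam_zero : d3 c 0 2 1 * x + d3 c 0 2 3 * y + d3 c 0 2 4 * z = 0 := mul_left_cancel₀ hz (by
  simp only [d3]
  linear_combination (c 0 1 * c 2 2 - c 0 2 * c 2 1) * h 0 - (c 0 0 * c 2 2 - c 0 2 * c 2 0) * h 1 +
    (c 0 0 * c 2 1 - c 0 1 * c 2 0) * h 2)

include hx in
theorem MM_det : (MM c).det = 0 := by
  refine Matrix.exists_mulVec_eq_zero_iff.1 ⟨![x ^ 2, x * y, x * z, y ^ 2, y * z, z ^ 2],
    fun e => pow_ne_zero 2 hx (congrFun e 0), funext fun i => ?_⟩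
  have l := lam_zero hz h
  fin_cases i <;> simp [MM, Matrix.mulVec, dotProduct, Fin.sum_univ_succ]
  · linear_combination h 0
  · linear_combination h 1
  · linear_combination h 2
  · refine mul_left_cancel₀ hx ?_
    simp only [d3]
    linear_combination ((c 2 1 * y + c 3 1 * z) * c 4 2 - (c 2 2 * y + c 3 2 * z) * c 4 1) * h 0 -
      ((c 2 0 * y + c 3 0 * z) * c 4 2 - (c 2 2 * y + c 3 2 * z) * c 4 0) * h 1 +
      ((c 2 0 * y + c 3 0 * z) * c 4 1 - (c 2 1 * y + c 3 1 * z) * c 4 0) * h 2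
  · linear_combination x * l
  · linear_combination y * l

theorem E6_zero {s : A} (hs : ∀ i, c 1 i = s * c 0 i) : E6 c = 0 := by
  have l := lam_zero hz h
  have e1 : d3 c 0 2 1 = 0 := by simp only [d3, hs]; ring
  have e2 : d3 c 0 3 4 * z ^ 2 = d3 c 0 2 3 * y ^ 2 := by
    have := h 0
    have := h 1
    have := h 2
    simp only [d3, hs] at *
    linear_combination (c 0 1 * c 3 2 - c 0 2 * c 3 1) * h 0 - (c 0 0 * c 3 2 - c 0 2 * c 3 0) * h 1 +
      (c 0 0 * c 3 1 - c 0 1 * c 3 0) * h 2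
  refine mul_left_cancel₀ (pow_ne_zero 2 hz) ?_
  rw [e1] at l
  rw [E6]
  linear_combination (d3 c 0 2 4 * z - d3 c 0 2 3 * y) * l - d3 c 0 2 3 * e2

end det

/-- the coefficients of the three conics -/
def co {A : Type*} [CommRing A] (u : Fin 4 → A) (s p t q : Fin 3 → A) : Fin 5 → Fin 3 → A :=
  ![fun i => -u i.succ, fun i => s i * u i.succ, fun i => u i.castSucc, fun i => -(t i * u i.castSucc),
    fun i => q i * u i.castSucc - p i * u i.succ]

theorem MM_ne {k : Type*} [Field k] {s p t q : Fin 3 → k}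
    (h : (p 2 - p 0) ^ 2 - (s 0 - s 2) * (s 2 * p 0 - s 0 * p 2) ≠ 0) :
    (MM (co ![0, 1, 0, 1] s p t q)).det ≠ 0 := fun e => by
  obtain ⟨v, h1, h2⟩ := Matrix.exists_mulVec_eq_zero_iff.2 e
  have a0 := congrFun h2 0
  have a1 := congrFun h2 1
  have a2 := congrFun h2 2
  have a3 := congrFun h2 3
  have a4 := congrFun h2 4
  have a5 := congrFun h2 5
  simp [MM, co, d3, Matrix.mulVec, dotProduct, Fin.sum_univ_succ] at a0 a1 a2 a3 a4 a5
  have b2 : v 2 = 0 := mul_left_cancel₀ h (by grind)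
  have b5 : v 5 = 0 := mul_left_cancel₀ h (by grind)
  have b1 : v 1 = 0 := mul_left_cancel₀ h (by grind)
  have b4 : v 4 = 0 := mul_left_cancel₀ h (by grind)
  refine h1 (funext fun i => ?_)
  fin_cases i <;> simp [*] at *
  all_goals assumption

theorem E6_val {k : Type*} [Field k] (s p t q : Fin 3 → k) :
    E6 (co ![0, 1, 0, 1] s p t q) = (p 2 - p 0) ^ 2 := by
  simp [E6, co, d3]; ring

open MvPolynomial

variable {k σ : Type*} [Field k] {c : Fin 5 → Fin 3 → MvPolynomial σ k}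
  (h : ∀ i j, (c i j).IsHomogeneous 1)
include h

theorem d3_hom (i j l : Fin 5) : (d3 c i j l).IsHomogeneous 3 :=
  (((h _ _).mul (((h _ _).mul (h _ _)).sub ((h _ _).mul (h _ _)))).sub
    ((h _ _).mul (((h _ _).mul (h _ _)).sub ((h _ _).mul (h _ _))))).add
      ((h _ _).mul (((h _ _).mul (h _ _)).sub ((h _ _).mul (h _ _))))

theorem E6_hom : (E6 c).IsHomogeneous 6 :=
  ((d3_hom h _ _ _).pow 2).sub ((d3_hom h _ _ _).mul (d3_hom h _ _ _))

theorem MM_hom : (MM c).det.IsHomogeneous 12 := by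
  have : ∀ i j, (MM c i j).IsHomogeneous (![1, 1, 1, 3, 3, 3] i) := fun i j => by
    fin_cases i <;> fin_cases j <;> simp [MM, h, d3_hom h, isHomogeneous_zero]
  rw [← Matrix.det_transpose, Matrix.det_apply']
  refine IsHomogeneous.sum _ _ _ fun τ _ => ?_
  rw [← map_intCast (C : k →+* MvPolynomial σ k)]
  exact (IsHomogeneous.prod univ _ _ fun i _ => this i (τ i)).C_mul _

end Pool.Agent.Lib.MP_514cbf_ag
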