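import Mathlib

/-! Polynomials in two variables which vanish on parabolas. -/

noncomputable section

namespace Pool.Agent.Lib.MP_514cbf_ag

open Polynomial Polynomial.Bivariate

theorem parity {S : Type*} [CommRing S] [IsDomain S] {u A B : S[X]} (hu : u.natDegree = 2)
    (h : B.comp u + X * A.comp u = 0) : A = 0 ∧ B = 0 := by
  have k : ∀ A : S[X], A.comp u = 0 → A = 0 := fun A hA => (comp_eq_zero_iff.1 hA).resolve_right
    fun h => by rw [h.2, natDegree_C] at hu; omega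
  have : A = 0 := k A (by_contra fun hc => by
    have := congrArg natDegree (eq_neg_of_add_eq_zero_left h)
    rw [natDegree_neg, natDegree_X_mul hc, natDegree_comp, natDegree_comp, hu] at this
    omega)
  exact ⟨this, k B (by simpa [this] using h)⟩

variable {k : Type*} [Field k] {P E E' : k[X][Y]} {D D' : ℕ}

theorem coeff_swap (P : k[X][Y]) (i j : ℕ) : ((swap P).coeff i).coeff j = (P.coeff j).coeff i := by
  induction P using Polynomial.induction_on' with
  | add p q hp hq => simp only [map_add, coeff_add, hp, hq]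
  | monomial n a =>
    induction a using Polynomial.induction_on' with
    | add p q hp hq => simp only [map_add, coeff_add, hp, hq]
    | monomial m r =>
      rw [swap_monomial_monomial]
      by_cases h1 : n = j <;> by_cases h2 : m = i <;> simp [coeff_monomial, h1, h2]

theorem sw_ne (h : E ≠ 0) : swap E ≠ 0 := (map_ne_zero_iff _ swap.injective).2 h

/-- pure powers of both variables occur -/
def Bal (D : ℕ) (E : k[X][Y]) : Prop := E ≠ 0 ∧ (E.natDegree = D ∧ E.leadingCoeff.natDegree = 0) ∧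
  (swap E).natDegree = D ∧ (swap E).leadingCoeff.natDegree = 0

theorem Bal.mul (h : Bal D E) (h' : Bal D' E') : Bal (D + D') (E * E') := by
  have k1 : ∀ {E E' : k[X][Y]}, E ≠ 0 → E' ≠ 0 → E.natDegree = D ∧ E.leadingCoeff.natDegree = 0 →
      E'.natDegree = D' ∧ E'.leadingCoeff.natDegree = 0 →
      (E * E').natDegree = D + D' ∧ (E * E').leadingCoeff.natDegree = 0 := fun a b c d => by
    rw [natDegree_mul a b, leadingCoeff_mul, natDegree_mul (leadingCoeff_ne_zero.2 a)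
      (leadingCoeff_ne_zero.2 b), c.1, c.2, d.1, d.2]
    exact ⟨rfl, rfl⟩
  exact ⟨mul_ne_zero h.1 h'.1, k1 h.1 h'.1 h.2.1 h'.2.1, by
    rw [map_mul]; exact k1 (sw_ne h.1) (sw_ne h'.1) h.2.2 h'.2.2⟩

/-- two monomials which are far apart -/
def Far (D : ℕ) (P : k[X][Y]) : Prop := ∃ x y x' y', (P.coeff y).coeff x ≠ 0 ∧
  (P.coeff y').coeff x' ≠ 0 ∧ x' + D ≤ x ∧ y + D ≤ y'

theorem Bal.far (h : Bal D E) (h0 : P ≠ 0) (hd : E ∣ P) : Far D P := by
  obtain ⟨Q, rfl⟩ := hd
  have hQ := right_ne_zero_of_mul h0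
  have k1 : ∀ {E Q : k[X][Y]}, E ≠ 0 → Q ≠ 0 → E.natDegree = D ∧ E.leadingCoeff.natDegree = 0 →
      ((E * Q).coeff (D + Q.natDegree)).coeff Q.leadingCoeff.natDegree ≠ 0 ∧
        Q.leadingCoeff.natDegree ≤ (swap Q).natDegree := fun {E Q} a b c => by
    refine ⟨?_, le_natDegree_of_ne_zero fun hc => ?_⟩
    · have := leadingCoeff_ne_zero.2 (leadingCoeff_ne_zero.2 (mul_ne_zero a b))
      rwa [leadingCoeff, leadingCoeff_mul, natDegree_mul (leadingCoeff_ne_zero.2 a)
        (leadingCoeff_ne_zero.2 b), c.2, zero_add, ← leadingCoeff_mul, leadingCoeff,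
        natDegree_mul a b, c.1] at this
    · have := coeff_swap Q Q.leadingCoeff.natDegree Q.natDegree
      rw [hc, coeff_zero] at this
      exact leadingCoeff_ne_zero.2 (leadingCoeff_ne_zero.2 b) this.symm
  obtain ⟨a1, a2⟩ := k1 h.1 hQ h.2.1
  obtain ⟨b1, b2⟩ := k1 (sw_ne h.1) (sw_ne hQ) h.2.2
  rw [← map_mul, coeff_swap] at b1
  rw [swap_swap_apply] at b2
  exact ⟨_, _, _, _, b1, a1, by omega, by omega⟩

/-- conics -/
def con (a b c d e f : k) : k[X][Y] :=
  C (C a) * Y ^ 2 + C (C b * X + C d) * Y + C (C c * X ^ 2 + C e * X + C f)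

theorem con_bal {a c : k} (ha : a ≠ 0) (hc : c ≠ 0) (b d e f : k) : Bal 2 (con a b c d e f) := by
  have k1 : ∀ {a : k}, a ≠ 0 → ∀ b c d e f, (con a b c d e f).natDegree = 2 ∧
      (con a b c d e f).leadingCoeff.natDegree = 0 := fun ha b c d e f =>
    ⟨natDegree_quadratic (C_ne_zero.2 ha), by rw [con, leadingCoeff_quadratic (C_ne_zero.2 ha), natDegree_C]⟩
  refine ⟨fun h => by simpa [h] using (k1 ha b c d e f).1, k1 ha _ _ _ _ _, ?_⟩
  rw [show swap (con a b c d e f) = con c b a e d f by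
    simp only [con, map_add, map_mul, map_pow, swap_X, swap_Y, swap_C_C]; ring]
  exact k1 hc _ _ _ _ _

/-- monic quadratic polynomials -/
def qq (t q : k) : k[X] := X ^ 2 - C t * X + C q

theorem qq_deg (t q : k) : (qq t q).natDegree = 2 := by
  unfold qq
  compute_degree!

theorem sc_deg {l : k} (hl : l ≠ 0) (t q : k) : (C l⁻¹ * qq t q).natDegree = 2 := by
  rw [natDegree_C_mul (inv_ne_zero hl), qq_deg]

variable {l m l' m' t q t' q' : k}

/-- the equation of a parabola -/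
def par (l m t q t' q' : k) : k[X][Y] := con (m ^ 2) (-2 * m * l) (l ^ 2)
  (-m * (2 * (q' - q) + t * (t - t'))) (l * (2 * (q' - q) + t' * (t - t')))
    ((q' - q) ^ 2 + t * (t - t') * (q' - q) + (t - t') ^ 2 * q)

theorem par_eq (ht : t ≠ t') (h0 : l ≠ 0) (hl : l' ≠ 0) (hm : m' ≠ 0) :
    aevalAeval (C l'⁻¹ * qq t q) (C m'⁻¹ * qq t' q') (par l m t q t' q') = 0 ↔ l = l' ∧ m = m' := by
  obtain ⟨r, rfl⟩ : ∃ r, l = r * l' := ⟨l / l', by field_simp⟩
  obtain ⟨s, rfl⟩ : ∃ s, m = s * m' := ⟨m / m', by field_simp⟩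
  have e1 : C l' * C l'⁻¹ = 1 := by rw [← C_mul, mul_inv_cancel₀ hl, C_1]
  have e2 : C m' * C m'⁻¹ = 1 := by rw [← C_mul, mul_inv_cancel₀ hm, C_1]
  obtain ⟨B, hB⟩ : ∃ B, B = r * t - s * t' := ⟨_, rfl⟩
  obtain ⟨c, hc⟩ : ∃ c, c = s * q' - r * q - (q' - q) := ⟨_, rfl⟩
  have e : aevalAeval (C l'⁻¹ * qq t q) (C m'⁻¹ * qq t' q') (par (r * l') (s * m') t q t' q') =
      C ((s - r) ^ 2) * X ^ 4 + C (2 * (s - r) * B) * X ^ 3 +
        C (B ^ 2 + 2 * (s - r) * c - t * (t - t') * (s - r) - (t - t') ^ 2 * r) * X ^ 2 +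
        C (2 * B * c - t * (t - t') * B + (t - t') ^ 2 * r * t) * X ^ 1 +
        C (c ^ 2 - t * (t - t') * c + (t - t') ^ 2 * (q - r * q)) * X ^ 0 := by
    simp only [par, con, qq, hB, hc, map_add, map_mul, map_pow, aevalAeval_C, aevalAeval_Y, aeval_C,
      aeval_X, algebraMap_eq, map_sub, map_neg, map_ofNat]
    grind
  rw [e]
  refine ⟨fun h => ?_, fun ⟨h1, h2⟩ => ?_⟩
  · have h4 := congrArg (·.coeff 4) h
    have h2 := congrArg (·.coeff 2) h
    simp only [coeff_add, coeff_C_mul_X_pow, coeff_zero] at h4 h2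
    norm_num [sub_eq_zero] at h4 h2
    subst h4 hB
    have : (t - t') ^ 2 * (s * (s - 1)) = 0 := by linear_combination h2
    simp only [mul_eq_zero, left_ne_zero_of_mul h0, sub_eq_zero, ht, false_or, pow_eq_zero_iff
      two_ne_zero] at this
    simp [this]
  · obtain rfl := (mul_left_eq_self₀.1 h1).resolve_right hl
    obtain rfl := (mul_left_eq_self₀.1 h2).resolve_right hm
    rw [hB, hc]
    ring_nf
    simp

theorem par_bal (hl : l ≠ 0) (hm : m ≠ 0) : Bal 2 (par l m t q t' q') :=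
  con_bal (pow_ne_zero _ hm) (pow_ne_zero _ hl) _ _ _ _

theorem par_dvd (ht : t ≠ t') (hl : l ≠ 0) (hm : m ≠ 0)
    (h : aevalAeval (C l⁻¹ * qq t q) (C m⁻¹ * qq t' q') P = 0) : par l m t q t' q' ∣ P := by
  have h1 : (C (C (m ^ 2)⁻¹) * par l m t q t' q').Monic := by
    rw [Monic, leadingCoeff_mul, par, con, leadingCoeff_quadratic (C_ne_zero.2 (pow_ne_zero _ hm)),
      leadingCoeff_C, ← C_mul, inv_mul_cancel₀ (pow_ne_zero _ hm), C_1]
  refine (dvd_mul_left _ _).trans ((modByMonic_eq_zero_iff_dvd h1).1 ?_)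
  have h2 := natDegree_modByMonic_lt P h1 fun e => by
    have := congrArg natDegree e
    rw [natDegree_C_mul (by simpa using hm), (par_bal hl hm).2.1.1, natDegree_one] at this
    omega
  rw [natDegree_C_mul (by simpa using hm), (par_bal hl hm).2.1.1] at h2
  have h3 := congrArg (aevalAeval (C l⁻¹ * qq t q) (C m⁻¹ * qq t' q'))
    (modByMonic_add_div P (C (C (m ^ 2)⁻¹) * par l m t q t' q'))
  rw [map_add, map_mul, map_mul, (par_eq ht hl hl hm).2 ⟨rfl, rfl⟩, h, mul_zero, zero_mul, add_zero,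
    eq_X_add_C_of_natDegree_le_one (Nat.le_of_lt_succ h2)] at h3
  rw [eq_X_add_C_of_natDegree_le_one (Nat.le_of_lt_succ h2)]
  generalize (P %ₘ _).coeff 1 = A at *
  generalize (P %ₘ _).coeff 0 = B at *
  have e1 : C l * C l⁻¹ = 1 := by rw [← C_mul, mul_inv_cancel₀ hl, C_1]
  obtain ⟨a, b⟩ := parity (sc_deg hl t q) (A := C (m⁻¹ * (t - t')) * A)
    (B := B + C m⁻¹ * (C l * X + C (q' - q)) * A) (by
      simp only [map_add, map_mul, aevalAeval_C, aevalAeval_Y, ← comp_eq_aeval] at h3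
      simp only [add_comp, mul_comp, C_comp, X_comp, ← h3, map_mul, map_sub, sub_comp, qq]
      grind)
  have : A = 0 := by simpa [hm, sub_eq_zero, ht] using a
  simpa [this] using b

theorem far_two (ht : t ≠ t') (hl : l ≠ 0) (hm : m ≠ 0) (h0 : P ≠ 0)
    (h : aevalAeval (C l⁻¹ * qq t q) (C m⁻¹ * qq t' q') P = 0) : Far 2 P :=
  (par_bal hl hm).far h0 (par_dvd ht hl hm h)

theorem far_four (ht : t ≠ t') (hl : l ≠ 0) (hm : m ≠ 0) (hl' : l' ≠ 0) (hm' : m' ≠ 0) (h0 : P ≠ 0)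
    (hn : ¬ (l = l' ∧ m = m')) (h : aevalAeval (C l⁻¹ * qq t q) (C m⁻¹ * qq t' q') P = 0)
    (h' : aevalAeval (C l'⁻¹ * qq t q) (C m'⁻¹ * qq t' q') P = 0) : Far 4 P := by
  obtain ⟨Q, rfl⟩ := par_dvd ht hl hm h
  rw [map_mul, mul_eq_zero, par_eq ht hl hl' hm'] at h'
  exact ((par_bal hl hm).mul (par_bal hl' hm')).far h0
    (mul_dvd_mul_left _ (par_dvd ht hl' hm' (h'.resolve_left hn)))

theorem far_one (hl : l ≠ 0) (hm : m ≠ 0) (h0 : P ≠ 0)
    (h : aevalAeval (C l⁻¹ * qq t q) (C m⁻¹ * qq t' q') P = 0) : Far 1 P := by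
  rcases eq_or_ne t t' with rfl | ht
  · have hb : Bal 1 (Y - C (C (m⁻¹ * l) * X + C (m⁻¹ * (q' - q))) : k[X][Y]) := by
      have : m⁻¹ * l ≠ 0 := by simp [hl, hm]
      refine ⟨X_sub_C_ne_zero _, ⟨natDegree_X_sub_C _, by rw [leadingCoeff_X_sub_C, natDegree_one]⟩, ?_⟩
      rw [show swap (Y - C (C (m⁻¹ * l) * X + C (m⁻¹ * (q' - q))) : k[X][Y]) =
        C (C (-(m⁻¹ * l))) * Y + C (X - C (m⁻¹ * (q' - q))) by
          simp only [map_sub, map_add, map_mul, map_neg, swap_X, swap_Y, swap_C_C]; ring]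
      exact ⟨natDegree_linear (by simpa using this), by
        rw [leadingCoeff_linear (by simpa using this), natDegree_C]⟩
    refine hb.far h0 (dvd_iff_isRoot.2 (parity (A := 0) (sc_deg hl t q) ?_).2)
    have e1 : C l * C l⁻¹ = 1 := by rw [← C_mul, mul_inv_cancel₀ hl, C_1]
    rw [zero_comp, mul_zero, add_zero, ← h, comp_eq_aeval]
    clear h h0
    induction P using Polynomial.induction_on' with
    | add p q hp hq => simp only [eval_add, map_add, hp, hq]
    | monomial n a =>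
      simp only [← C_mul_X_pow_eq_monomial, eval_mul, eval_C, eval_pow, eval_X, map_mul, map_pow,
        aevalAeval_C, aevalAeval_Y, map_add, aeval_C, aeval_X, algebraMap_eq, map_sub, qq]
      congr 2
      grind
  · obtain ⟨x, y, x', y', a, b, c, d⟩ := far_two ht hl hm h0 h
    exact ⟨x, y, x', y', a, b, by omega, by omega⟩

end Pool.Agent.Lib.MP_514cbf_ag
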