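import Pool.Agent.Lib.MP_514cbf_ag.Chase
import Pool.Agent.Lib.MP_514cbf_ag.Par

/-! Lower bounds for the degrees of the equations of the special fiber. -/

noncomputable section

namespace Pool.Agent.Lib.MP_514cbf_ag

open MvPolynomial Finset

variable {k : Type*} [Field k] {h n : ℕ} {a b : ℕ → Fin 2 → k}

/-- pairs of lines -/
def qd (v : Fin 3) (a : ℕ → Fin 2 → k) (i : ℕ) : MvPolynomial (Fin 3) k :=
  (X v - C (a i 0) * X 2) * (X v - C (a i 1) * X 2)

/-- distinct parameters -/
def Inj (h : ℕ) (a : ℕ → Fin 2 → k) : Prop :=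
  ∀ i < h, ∀ j < h, ∀ e e', a i e = a j e' → i = j ∧ e = e'

/-- the sum of a pair -/
def sm (a : ℕ → Fin 2 → k) (i : ℕ) : k := a i 0 + a i 1

/-- partial degrees -/
def AA (i : ℕ) (c : Fin (h + 1) →₀ ℕ) : ℕ := ∑ j, if i < j.1 then c j else 0

/-- partial degrees -/
def BB (i : ℕ) (c : Fin (h + 1) →₀ ℕ) : ℕ := ∑ j, if i < j.1 then 0 else c j

theorem AA_BB (i : ℕ) (c : Fin (h + 1) →₀ ℕ) : AA i c + BB i c = c.degree := by
  rw [AA, BB, ← sum_add_distrib, Finsupp.degree_eq_sum]
  exact sum_congr rfl fun j _ => by split_ifs <;> simp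

theorem AA_anti {i j : ℕ} (hij : i ≤ j) (c : Fin (h + 1) →₀ ℕ) : AA j c ≤ AA i c :=
  sum_le_sum fun t _ => by split_ifs <;> omega

theorem AA_inj {c c' : Fin (h + 1) →₀ ℕ} (h1 : c.degree = c'.degree)
    (h2 : ∀ t < h, AA t c = AA t c') : c = c' := by
  have h3 : ∀ j : Fin (h + 1), BB j c = BB j c' := fun j => by
    have : AA j c = AA j c' := by
      rcases j.is_le.lt_or_eq with e | e
      · exact h2 _ e
      · exact sum_congr rfl fun t _ => by rw [if_neg (by omega), if_neg (by omega)]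
    have := AA_BB j c
    have := AA_BB j c'
    omega
  refine Finsupp.ext fun j => ?_
  induction j using WellFoundedLT.induction with
  | ind j ih =>
  have := h3 j
  rw [BB, BB, ← add_sum_erase _ _ (mem_univ j), ← add_sum_erase _ _ (mem_univ j),
    sum_congr rfl (g := fun t => if j.1 < t.1 then 0 else c' t) fun t ht => by
      split_ifs with e
      · rfl
      · exact ih t (lt_of_le_of_ne (not_lt.1 e) (ne_of_mem_erase ht))] at this
  simpa using this

theorem aeval_FI (α β : ℕ → MvPolynomial (Fin 3) k) (P : MvPolynomial (Fin (h + 1)) k) :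
    aeval (FI α β h) P = ∑ c ∈ P.support, C (coeff c P) *
      ∏ t ∈ range h, β t ^ AA t c * α t ^ BB t c := by
  rw [aeval_def, eval₂_eq']
  refine sum_congr rfl fun c _ => congrArg _ ?_
  have : ∀ j : Fin (h + 1), FI α β h j = ∏ t ∈ range h, if t < j.1 then β t else α t := fun j => by
    rw [FI, FF, ← prod_range_mul_prod_Ico _ j.is_le]
    exact congrArg₂ _ (prod_congr rfl fun t ht => (if_pos (mem_range.1 ht)).symm)
      (prod_congr rfl fun t ht => (if_neg (not_lt.2 (mem_Ico.1 ht).1)).symm)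
  simp only [this, ← prod_pow, AA, BB, ← prod_pow_eq_pow_sum, ← prod_mul_distrib]
  rw [prod_comm]
  exact prod_congr rfl fun t _ => prod_congr rfl fun j _ => by split_ifs <;> simp

theorem lin_ne {v : Fin 3} (hv : v ≠ 2) (c : k) : (X v - C c * X 2 : MvPolynomial (Fin 3) k) ≠ 0 :=
  fun h => by simpa [hv.symm] using congrArg (eval (Pi.single v 1)) h

theorem qd_ne {v : Fin 3} (hv : v ≠ 2) (i : ℕ) : qd v a i ≠ 0 :=
  mul_ne_zero (lin_ne hv _) (lin_ne hv _)

theorem wide (ha : Inj h a) {P : MvPolynomial (Fin (h + 1)) k} (hP : P.IsHomogeneous n)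
    (h0 : aeval (FI (qd 0 a) (qd 1 b) h) P = 0) {l i j N D : ℕ} (hl : l < h) (hi : i < h)
    (hj : j < h) (h1 : i ≠ l) (h2 : j ≠ l) (h3 : j ≠ i) (hN : ∀ c ∈ P.support, AA l c ≤ N)
    (hs : ∃ c ∈ P.support, AA l c = N) (hf : ∀ t < h, t ≠ l → t ≠ i → t ≠ j → t ≤ l ∧ N = n)
    (hD : D = 1 ∨ sm b i ≠ sm b j ∧ (D = 2 ∨ D = 4 ∧ ¬ (sm a i = sm a l ∧ sm a j = sm a l))) :
    ∃ c ∈ P.support, ∃ c' ∈ P.support, AA l c = N ∧ AA l c' = N ∧
      AA i c' + D ≤ AA i c ∧ AA j c + D ≤ AA j c' := by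
  obtain ⟨c0, m0, e0⟩ := hs
  set s := P.support.filter (AA l · = N) with hs
  have hd : ∀ c ∈ P.support, c.degree = n := fun c hc =>
    by_contra fun e => mem_support_iff.1 hc (hP.coeff_eq_zero e)
  have hA : ∀ c ∈ P.support, ∀ t, AA t c + BB t c = n := fun c hc t => hd c hc ▸ AA_BB t c
  have hf' : ∀ c ∈ s, ∀ t < h, t ≠ i → t ≠ j → AA t c = AA t c0 := fun c hc t t1 t2 t3 => by
    obtain ⟨c1, c2⟩ := mem_filter.1 hc
    by_cases e : t = l
    · rw [e, c2, e0]
    · have u := hf t t1 e t2 t3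
      have := AA_anti u.1 c
      have := AA_anti u.1 c0
      have := hA c c1 t
      have := hA c0 m0 t
      omega
  set Q : Polynomial (Polynomial k) := ∑ c ∈ s,
    Polynomial.monomial (AA j c) (Polynomial.monomial (AA i c) (coeff c P)) with hQ
  have q1 : ∀ x y, (Q.coeff y).coeff x =
      ∑ c ∈ s, if AA j c = y ∧ AA i c = x then coeff c P else 0 := fun x y => by
    simp only [hQ, Polynomial.finsetSum_coeff, Polynomial.coeff_monomial]
    exact sum_congr rfl fun c _ => by
      by_cases e : AA j c = y <;> simp [e, Polynomial.coeff_monomial]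
  have q2 : Q ≠ 0 := fun e => mem_support_iff.1 m0 (by
    have := q1 (AA i c0) (AA j c0)
    rw [sum_eq_single_of_mem c0 (mem_filter.2 ⟨m0, e0⟩) fun c hc hne => if_neg fun e => hne (AA_inj
      (by rw [hd c (mem_filter.1 hc).1, hd c0 m0]) fun t ht => by
        by_cases e1 : t = i
        · rw [e1, e.2]
        by_cases e2 : t = j
        · rw [e2, e.1]
        exact hf' c hc t ht e1 e2)] at this
    simpa [e] using this.symm)
  set cc : Fin 2 → ℕ → k := fun e t => (a l e - a t 0) * (a l e - a t 1) with hc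
  have c1 : ∀ e, ∀ t < h, t ≠ l → cc e t ≠ 0 := fun e t t1 t2 => mul_ne_zero
    (sub_ne_zero.2 fun h => t2 (ha l hl t t1 _ _ h).1.symm)
    (sub_ne_zero.2 fun h => t2 (ha l hl t t1 _ _ h).1.symm)
  set B : ℕ → Polynomial k := fun t => qq (sm b t) (b t 0 * b t 1) with hB
  have B0 : ∀ t, B t ≠ 0 := fun t e => by
    have : (B t).natDegree = 2 := qq_deg _ _
    simp [e] at this
  have q3 : ∀ e, Polynomial.aevalAeval (Polynomial.C (cc e i)⁻¹ * B i)
      (Polynomial.C (cc e j)⁻¹ * B j) Q = 0 := fun e => by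
    have k1 : ∑ c ∈ P.support, C (coeff c P) * (qd 1 b l ^ AA l c * qd 0 a l ^ (N - AA l c) *
        ∏ t ∈ (range h).erase l, qd 1 b t ^ AA t c * qd 0 a t ^ BB t c) = 0 := by
      refine mul_left_cancel₀ (pow_ne_zero (n - N) (qd_ne (v := 0) (a := a) (by decide) l)) ?_
      rw [mul_zero, ← h0, aeval_FI, mul_sum]
      refine sum_congr rfl fun c hc => ?_
      rw [← mul_prod_erase _ _ (mem_range.2 hl), show BB l c = n - N + (N - AA l c) by
        have := hA c hc l; have := hN c hc; have := hA c0 m0 l; omega]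
      ring
    have k2 : ∀ t, aeval ![Polynomial.C (a l e), Polynomial.X, 1] (qd 0 a t) =
        Polynomial.C (cc e t) := fun t => by simp [qd, hc]
    have k3 : ∀ t, aeval ![Polynomial.C (a l e), Polynomial.X, 1] (qd 1 b t) = B t := fun t => by
      simp [qd, hB, qq, sm]; ring
    have k4 := congrArg (aeval ![Polynomial.C (a l e), Polynomial.X, 1]) k1
    simp only [map_sum, map_mul, map_prod, map_pow, k2, k3, map_zero, algHom_C,
      Polynomial.algebraMap_eq] at k4
    have k5 : cc e l = 0 := by fin_cases e <;> simp [hc]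
    refine mul_left_cancel₀ (a := B l ^ N * (Polynomial.C (cc e i) ^ n * Polynomial.C (cc e j) ^ n) *
      ∏ t ∈ (((range h).erase l).erase i).erase j, B t ^ AA t c0 * Polynomial.C (cc e t) ^ BB t c0)
      (mul_ne_zero (by simp [B0, c1 e i hi h1, c1 e j hj h2]) (prod_ne_zero_iff.2 fun t ht => by
        simp only [mem_erase, mem_range] at ht; simp [B0, c1, ht])) ?_
    rw [mul_zero, ← k4, hQ, map_sum, mul_sum, hs, sum_filter]
    refine sum_congr rfl fun c hc => ?_
    split_ifs with e1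
    · have u : ∀ t < h, t ≠ l → Polynomial.C (cc e t) * Polynomial.C (cc e t)⁻¹ = 1 := fun t t1 t2 => by
        rw [← Polynomial.C_mul, mul_inv_cancel₀ (c1 e t t1 t2), Polynomial.C_1]
      rw [← mul_prod_erase ((range h).erase l) _ (a := i) (by simp [*]),
        ← mul_prod_erase (((range h).erase l).erase i) _ (a := j) (by simp [*]), e1, Nat.sub_self,
        prod_congr rfl (g := fun t => B t ^ AA t c * Polynomial.C (cc e t) ^ BB t c) fun t ht => by
          simp only [mem_erase, mem_range] at ht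
          have := hf' c (mem_filter.2 ⟨hc, e1⟩) t ht.2.2.2 ht.2.1 ht.1
          rw [this, show BB t c0 = BB t c by have := hA c hc t; have := hA c0 m0 t; omega]]
      simp only [← Polynomial.C_mul_X_pow_eq_monomial, map_mul, map_pow, Polynomial.aevalAeval_C,
        Polynomial.aevalAeval_Y, Polynomial.aeval_C, Polynomial.aeval_X, Polynomial.algebraMap_eq,
        mul_pow]
      have u1 := congrArg (· ^ AA i c) (u i hi h1)
      have u2 := congrArg (· ^ AA j c) (u j hj h2)
      simp only [mul_pow, one_pow] at u1 u2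
      nth_rw 1 [← hA c hc i]
      rw [← hA c hc j, pow_add, pow_add]
      grind
    · rw [k5, map_zero, zero_pow (by have := hN c hc; omega)]
      simp
  obtain ⟨x, y, x', y', f1, f2, f3, f4⟩ : Far D Q := by
    rcases hD with rfl | ⟨ht, rfl | ⟨rfl, hn⟩⟩
    · exact far_one (c1 0 i hi h1) (c1 0 j hj h2) q2 (q3 0)
    · exact far_two ht (c1 0 i hi h1) (c1 0 j hj h2) q2 (q3 0)
    · have : ∀ t, cc 0 t = cc 1 t → sm a t = sm a l := fun t e => mul_left_cancel₀
        (sub_ne_zero.2 fun h => zero_ne_one (ha l hl l hl 0 1 h).2) (by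
          simp only [hc, sm] at e ⊢; linear_combination -e)
      exact far_four ht (c1 0 i hi h1) (c1 0 j hj h2) (c1 1 i hi h1) (c1 1 j hj h2) q2
        (fun e => hn ⟨this i e.1, this j e.2⟩) (q3 0) (q3 1)
  rw [q1] at f1 f2
  obtain ⟨c, m1, f1⟩ := exists_ne_zero_of_sum_ne_zero f1
  obtain ⟨c', m2, f2⟩ := exists_ne_zero_of_sum_ne_zero f2
  have f1 := (ite_ne_right_iff.1 f1).1
  have f2 := (ite_ne_right_iff.1 f2).1
  exact ⟨c, (mem_filter.1 m1).1, c', (mem_filter.1 m2).1, (mem_filter.1 m1).2, (mem_filter.1 m2).2,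
    by omega, by omega⟩

end Pool.Agent.Lib.MP_514cbf_ag
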