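import Pool.Agent.Lib.MP_514cbf_ag.One
import Pool.Agent.Lib.MP_514cbf_ag.Low
import Pool.Agent.Lib.MP_514cbf_ag.Det

/-! The special fiber. -/

noncomputable section

namespace Pool.Agent.Lib.MP_514cbf_ag

open MvPolynomial Finset

variable {k : Type*} [Field k] {h n D : ℕ} {a b : ℕ → Fin 2 → k}

theorem lin_dvd {v : Fin 3} (hv : v ≠ 2) {c : k} {u g : MvPolynomial (Fin 3) k}
    (hu : aeval (Function.update X v (C c * X 2 : MvPolynomial (Fin 3) k)) u ≠ 0)
    (h : X v - C c * X 2 ∣ u * g) : X v - C c * X 2 ∣ g := by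
  have k1 := sub_aeval_mem (Ideal.span {X v - C c * X 2}) (u := Function.update X v (C c * X 2))
    (fun i => by
      by_cases e : i = v
      · rw [e, Function.update_self]; exact Ideal.mem_span_singleton_self _
      · simp [e]) g
  have k2 := map_dvd (aeval (Function.update X v (C c * X 2 : MvPolynomial (Fin 3) k))) h
  rw [map_mul, map_sub, map_mul, aeval_X, aeval_X, Function.update_self,
    Function.update_of_ne hv.symm, algHom_C, algebraMap_eq, sub_self, zero_dvd_iff, mul_eq_zero] at k2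
  rwa [k2.resolve_left hu, sub_zero, Ideal.mem_span_singleton] at k1

theorem lin_mem {p : Ideal (MvPolynomial (Fin 3) k)} {c c' d : k} (hc : c ≠ c')
    (h1 : X 0 - C c * X 2 ∈ p) (h2 : X 0 - C c' * X 2 ∈ p) (h3 : X 1 - C d * X 2 ∈ p) (i : Fin 3) :
    X i ∈ p := by
  have k2 : X 2 ∈ p := by
    convert p.mul_mem_left (C (c - c')⁻¹) (sub_mem h2 h1) using 1
    have : (C (c - c')⁻¹ * C (c - c') : MvPolynomial (Fin 3) k) = 1 := by
      rw [← C_mul, inv_mul_cancel₀ (sub_ne_zero.2 hc), C_1]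
    rw [map_sub] at this
    linear_combination -X 2 * this
  fin_cases i
  · simpa using add_mem h1 (p.mul_mem_left (C c) k2)
  · simpa using add_mem h3 (p.mul_mem_left (C d) k2)
  · exact k2

theorem qd_hom (v : Fin 3) (i : ℕ) : (qd v a i).IsHomogeneous 2 :=
  ((isHomogeneous_X _ _).sub (isHomogeneous_C_mul_X _ _)).mul
    ((isHomogeneous_X _ _).sub (isHomogeneous_C_mul_X _ _))

theorem qd_hd (i : ℕ) (_ : i < h) : (qd 0 a i).IsHomogeneous 2 ∧ (qd 1 b i).IsHomogeneous 2 :=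
  ⟨qd_hom _ _, qd_hom _ _⟩

theorem Inj.hyp (ha : Inj h a) (b : ℕ → Fin 2 → k) (v : Fin 3) :
    Hyp (qd 0 a) (qd 1 b) h (X v) := by
  refine ⟨fun i _ => qd_ne (by decide) i, fun i _ j _ g hg => ?_, fun p hp i hi j hj t _ h1 h2 h3 => ?_⟩
  · have k1 : ∀ c : k, aeval (Function.update X 0 (C c * X 2 : MvPolynomial (Fin 3) k))
        (qd 1 b j) ≠ 0 := fun c => by
      simpa [qd] using qd_ne (v := 1) (a := b) (by decide) j
    obtain ⟨g, rfl⟩ := lin_dvd (by decide) (k1 _) ((dvd_mul_right _ _).trans hg)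
    rw [mul_left_comm, qd, mul_dvd_mul_iff_left (lin_ne (by decide) _)] at *
    exact lin_dvd (by decide) (k1 _) hg
  · have k1 : ∀ {v a i}, qd v a i ∈ p → ∃ e, X v - C (a i e) * X 2 ∈ p := fun h =>
      (hp.mem_or_mem h).elim (fun h => ⟨0, h⟩) fun h => ⟨1, h⟩
    obtain ⟨e1, h1⟩ := k1 h1
    obtain ⟨e2, h2⟩ := k1 h2
    obtain ⟨e3, h3⟩ := k1 h3
    exact lin_mem (fun e => hj.ne' (ha i hi j (hj.trans hi) _ _ e).1) h1 h2 h3 v

theorem mem_fib {ι R : Type*} [CommRing R] [Algebra k R] {f : ι → R} {P : MvPolynomial ι k} :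
    map (algebraMap k R) P ∈ reesKer f ↔ ∀ n, aeval f (homogeneousComponent n P) = 0 := by
  rw [mem_rees, Polynomial.ext_iff]
  refine forall_congr' fun n => ?_
  rw [rm_coeff, show homogeneousComponent n (map (algebraMap k R) P) = map (algebraMap k R)
    (homogeneousComponent n P) from MvPolynomial.ext _ _ fun m => by
      simp only [coeff_map, coeff_homogeneousComponent]; split_ifs <;> simp, eval_map, aeval_def,
    Polynomial.coeff_zero]

theorem xi_zero {σ : Type*} (P : MvPolynomial σ (MvPolynomial (Fin 3) k)) :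
    xi 0 P = map C (map constantCoeff P) := MvPolynomial.ext _ _ fun m => by
  simp [xi, coeff_cw, coeff_map, constantCoeff_eq]

/-- the generators in normal form -/
def FN (h : ℕ) (a b : ℕ → Fin 2 → k) : Fin (h + 1) → MvPolynomial (Fin 3) k :=
  FI (qd 0 a) (qd 1 b) h

theorem Inj.eps (ha : Inj h a) {P : MvPolynomial (Fin (h + 1)) (MvPolynomial (Fin 3) k)}
    (hP : P ∈ reesKer (FN h a b)) : map C (map constantCoeff P) ∈ reesKer (FN h a b) := by
  obtain ⟨M, f, g, h1, h2, -⟩ := chase qd_hd (ha.hyp b) hP 0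
  exact xi_zero P ▸ h1 ▸ h2.mem

theorem Inj.not_gen (ha : Inj h a) (ψ : MvPolynomial (Fin (h + 1)) k →+* k)
    {E : MvPolynomial (Fin (h + 1)) k} (h1 : map C E ∈ reesKer (FN h a b)) (h2 : ψ E ≠ 0)
    (H : ∀ m ≤ n, ∀ P : MvPolynomial (Fin (h + 1)) k, P.IsHomogeneous m →
      aeval (FN h a b) P = 0 → ψ P = 0) : ¬ Gen (FN h a b) n := fun hG => by
  have : low (FN h a b) n ≤ RingHom.ker (ψ.comp (map constantCoeff)) :=
    Ideal.span_le.2 fun g hg => by
      rw [SetLike.mem_coe, RingHom.mem_ker, RingHom.comp_apply,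
        ← sum_homogeneousComponent (map _ g), map_sum]
      exact sum_eq_zero fun m hm => H m (by
        have := (deg_map constantCoeff g).trans hg.2
        have := mem_range.1 hm
        omega) _ (homogeneousComponent_isHomogeneous _ _) (mem_fib.1 (ha.eps hg.1) m)
  have := this (hG h1)
  rw [RingHom.mem_ker, RingHom.comp_apply, MvPolynomial.map_map, constantCoeff_comp_C,
    MvPolynomial.map_id] at this
  exact h2 this

/-- the conics attached to the last three pairs -/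
def cz (h : ℕ) (a b : ℕ → Fin 2 → k) : Fin 5 → Fin 3 → MvPolynomial (Fin (h + 3 + 1)) k :=
  co (fun i => X ⟨h + i, by omega⟩) (fun i => C (sm a (h + i)))
    (fun i => C (a (h + i) 0 * a (h + i) 1)) (fun i => C (sm b (h + i)))
    fun i => C (b (h + i) 0 * b (h + i) 1)

theorem cz_hom (i : Fin 5) (j : Fin 3) : (cz h a b i j).IsHomogeneous 1 := by
  fin_cases i
  exacts [(isHomogeneous_X _ _).neg, isHomogeneous_C_mul_X _ _, isHomogeneous_X _ _,
    (isHomogeneous_C_mul_X _ _).neg, (isHomogeneous_C_mul_X _ _).sub (isHomogeneous_C_mul_X _ _)]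

theorem cz_rel (i : Fin 3) : let c := fun i j => rm (FN (h + 3) a b) (map C (cz h a b i j))
    c 0 i * Polynomial.C (X 0) ^ 2 + c 1 i * Polynomial.C (X 0) * Polynomial.C (X 2) +
      c 2 i * Polynomial.C (X 1) ^ 2 + c 3 i * Polynomial.C (X 1) * Polynomial.C (X 2) +
        c 4 i * Polynomial.C (X 2) ^ 2 = 0 := by
  have := mem_rees.1 (ell_mem (α := qd 0 a) (β := qd 1 b) (h := h + 3) ⟨h + i, by omega⟩)
  rw [← this]
  simp [cz, co, ell, qd, sm, FN, FI, rm, add_assoc]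
  ring

theorem MM_mem : map C (MM (cz h a b)).det ∈ reesKer (FN (h + 3) a b) :=
  (MM_map ((rm (FN (h + 3) a b)).toRingHom.comp (map C)) _).trans
    (MM_det (Polynomial.C_ne_zero.2 (X_ne_zero 0)) (Polynomial.C_ne_zero.2 (X_ne_zero 2)) cz_rel)

theorem E6_mem (hs : ∀ i < 3, sm a (h + i) = sm a h) :
    map C (E6 (cz h a b)) ∈ reesKer (FN (h + 3) a b) :=
  (E6_map ((rm (FN (h + 3) a b)).toRingHom.comp (map C)) _).trans
    (E6_zero (Polynomial.C_ne_zero.2 (X_ne_zero 2)) cz_rel (s := -Polynomial.C (C (sm a h)))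
      fun i => by simp [cz, co, hs i i.2])

/-- a point outside of the image -/
def pt (k : Type*) [Field k] (h : ℕ) (j : Fin (h + 3 + 1)) : k :=
  if j.1 = h + 1 ∨ j.1 = h + 3 then 1 else 0

theorem cz_pt : (fun i j => eval (pt k h) (cz h a b i j)) = co ![0, 1, 0, 1] (fun i => sm a (h + i))
    (fun i => a (h + i) 0 * a (h + i) 1) (fun i => sm b (h + i))
      fun i => b (h + i) 0 * b (h + i) 1 := by
  funext i j
  fin_cases i <;> fin_cases j <;> simp [cz, co, pt]

theorem Inj.res (ha : Inj (h + 3) a) : (a (h + 2) 0 * a (h + 2) 1 - a h 0 * a h 1) ^ 2 -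
    (sm a h - sm a (h + 2)) * (sm a (h + 2) * (a h 0 * a h 1) - sm a h *
      (a (h + 2) 0 * a (h + 2) 1)) ≠ 0 := by
  have : ∀ e e', a h e - a (h + 2) e' ≠ 0 := fun e e' => sub_ne_zero.2 fun e => by
    have := (ha _ (by omega) _ (by omega) _ _ e).1
    omega
  convert mul_ne_zero (mul_ne_zero (this 0 0) (this 0 1)) (mul_ne_zero (this 1 0) (this 1 1)) using 1
  simp only [sm]
  ring

theorem Inj.MM_pt (ha : Inj (h + 3) a) : eval (pt k h) (MM (cz h a b)).det ≠ 0 := by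
  rw [MM_map, cz_pt]
  exact MM_ne ha.res

theorem Inj.lower (ha : Inj (h + 3) a) (hD : D = 1 ∨ sm b (h + 1) ≠ sm b (h + 2) ∧
    (D = 2 ∨ D = 4 ∧ ¬ (sm a (h + 1) = sm a h ∧ sm a (h + 2) = sm a h))) :
    ¬ Gen (FN (h + 3) a b) (2 * D) := ha.not_gen (eval (pt k h)) MM_mem ha.MM_pt fun m hm P h1 h2 => by
  have k0 : ∀ c ∈ P.support, ∀ t, AA t c + BB t c = m := fun c hc t => (AA_BB t c).trans
    (by_contra fun e => mem_support_iff.1 hc (h1.coeff_eq_zero e))
  have k1 : ∀ c ∈ P.support, AA (h + 1) c ≠ m := fun c hc e => by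
    obtain ⟨c, m1, c', -, -, a2, a3, -⟩ := wide ha h1 h2 (l := h + 1) (i := h) (j := h + 2) (N := m)
      (by omega) (by omega) (by omega) (by omega) (by omega) (by omega)
      (fun c hc => by have := k0 c hc (h + 1); omega) ⟨c, hc, e⟩ (fun t _ _ _ _ => by omega) (.inl rfl)
    have := AA_anti (h.le_add_right 1) c'
    have := k0 c m1 h
    omega
  rw [eval_eq']
  refine sum_eq_zero fun c hc => mul_eq_zero_of_right _ (by_contra fun e => ?_)
  obtain ⟨c, m1, c', -, -, -, a3, a4⟩ := wide ha h1 h2 (l := h) (i := h + 1) (j := h + 2) (N := m)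
    (by omega) (by omega) (by omega) (by omega) (by omega) (by omega)
    (fun c hc => by have := k0 c hc h; omega) ⟨c, hc, by
      rw [← k0 c hc h, left_eq_add]
      refine sum_eq_zero fun j _ => ite_eq_left_iff.2 fun hj => by_contra fun e' => e ?_
      exact prod_eq_zero (mem_univ j) (by rw [pt, if_neg (by omega), zero_pow e'])⟩
    (fun t _ _ _ _ => by omega) hD
  have := AA_anti (show h + 1 ≤ h + 2 by omega) c'
  have := k0 c m1 (h + 1)
  have := k1 c m1
  omega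

theorem Inj.wide3 (ha : Inj 3 a) {P : MvPolynomial (Fin 4) k} (h1 : P.IsHomogeneous n)
    (h2 : aeval (FN 3 a b) P = 0) (h0 : P ≠ 0) {l i j : ℕ} (hl : l + i + j = 3) (hi : i < j)
    (hj : j < 3) (h3 : i ≠ l) (h4 : j ≠ l)
    (hD : D = 1 ∨ sm b i ≠ sm b j ∧ (D = 2 ∨ D = 4 ∧ ¬ (sm a 1 = sm a 0 ∧ sm a 2 = sm a 0))) :
    ∃ c ∈ P.support, ∃ c' ∈ P.support, (∀ u ∈ P.support, AA l u ≤ AA l c) ∧ AA l c' = AA l c ∧
      AA i c' + D ≤ AA i c ∧ AA j c + D ≤ AA j c' ∧ AA 0 c ≤ n := by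
  obtain ⟨c, m1, c', m2, a1, a2, a3, a4⟩ := wide ha h1 h2 (l := l) (i := i) (j := j) (D := D)
    (by omega) (by omega) (by omega) h3 h4 hi.ne' (fun c hc => le_sup hc)
    ((exists_mem_eq_sup _ (support_nonempty.2 h0) (AA l)).imp fun c h => ⟨h.1, h.2.symm⟩)
    (fun t _ _ _ _ => by omega) (hD.imp_right fun h => ⟨h.1, h.2.imp_right fun h => ⟨h.1, fun e => h.2 (by
      have : l = 0 ∧ i = 1 ∧ j = 2 ∨ l = 1 ∧ i = 0 ∧ j = 2 ∨ l = 2 ∧ i = 0 ∧ j = 1 := by omega
      grind)⟩⟩)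
  refine ⟨c, m1, c', m2, fun u hu => a1 ▸ le_sup hu, a2.trans a1.symm, a3, a4, ?_⟩
  have := AA_BB 0 c
  have : c.degree = n := by_contra fun e => mem_support_iff.1 m1 (h1.coeff_eq_zero e)
  omega

theorem Inj.lower3 (ha : Inj 3 a) (hb : ¬ (sm b 1 = sm b 0 ∧ sm b 2 = sm b 0))
    (hD : D = 2 ∨ D = 4 ∧ ¬ (sm a 1 = sm a 0 ∧ sm a 2 = sm a 0)) (hn : n < 3 * D) :
    ¬ Gen (FN 3 a b) n := ha.not_gen (eval (pt k 0)) MM_mem (Inj.MM_pt (h := 0) ha)
  fun m hm P h1 h2 => by
  refine (congrArg _ (by_contra fun h0 => ?_)).trans (map_zero _)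
  have A1 := AA_anti (h := 3) (zero_le_one (α := ℕ))
  have A2 := AA_anti (h := 3) (one_le_two (α := ℕ))
  by_cases e : sm b 0 = sm b 1
  · obtain ⟨c, m1, c', m2, -, -, a3, a4, -⟩ := ha.wide3 h1 h2 h0 (l := 0) (i := 1) (j := 2) rfl
      (by omega) (by omega) (by omega) (by omega) (.inr ⟨by grind, hD⟩)
    obtain ⟨u, -, u', -, b1, b2, b3, -, b5⟩ := ha.wide3 h1 h2 h0 (l := 1) (i := 0) (j := 2) rfl
      (by omega) (by omega) (by omega) (by omega) (.inr ⟨by grind, hD⟩)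
    have := b1 c m1
    have := A1 u'
    have := A2 c'
    omega
  · obtain ⟨u, -, u', -, b1, -, b3, b4, b5⟩ := ha.wide3 h1 h2 h0 (l := 2) (i := 0) (j := 1) rfl
      (by omega) (by omega) (by omega) (by omega) (.inr ⟨e, hD⟩)
    obtain ⟨c, m1, a1⟩ : ∃ c ∈ P.support, D ≤ AA 2 c := by
      by_cases e' : sm b 1 = sm b 2
      · obtain ⟨c, -, c', m2, -, -, -, a4, -⟩ := ha.wide3 h1 h2 h0 (l := 1) (i := 0) (j := 2) rfl
          (by omega) (by omega) (by omega) (by omega) (.inr ⟨by grind, hD⟩)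
        exact ⟨c', m2, by omega⟩
      · obtain ⟨c, -, c', m2, -, -, -, a4, -⟩ := ha.wide3 h1 h2 h0 (l := 0) (i := 1) (j := 2) rfl
          (by omega) (by omega) (by omega) (by omega) (.inr ⟨e', hD⟩)
        exact ⟨c', m2, by omega⟩
    have := b1 c m1
    have := A1 u'
    have := A2 u
    omega

theorem Inj.upper3 (ha : Inj 3 a) {E : MvPolynomial (Fin 4) k} (h1 : map C E ∈ reesKer (FN 3 a b))
    (h2 : E ≠ 0) (h3 : E.totalDegree ≤ n) (hn : 6 ≤ n) : Gen (FN 3 a b) n := by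
  let ρ := (rm (FN 3 a b)).toRingHom.comp (map C)
  let e := finSuccEquiv k 3
  have hp := RingHom.ker_isPrime (ρ.comp e.symm.toAlgHom.toRingHom)
  have hm : ∀ P, e P ∈ RingHom.ker (ρ.comp e.symm.toAlgHom.toRingHom) ↔
      map C P ∈ reesKer (FN 3 a b) := fun P => by simp [ρ, mem_rees]
  obtain ⟨f, f1, f2⟩ := principal (RingHom.ker (ρ.comp e.symm.toAlgHom.toRingHom)) (fun u hu => by
    obtain ⟨P, hP⟩ := e.surjective (Polynomial.C u)
    have d0 : degreeOf 0 P = 0 := by rw [← natDegree_finSuccEquiv, hP, Polynomial.natDegree_C]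
    rw [← Polynomial.C_eq_zero, ← hP, ← sum_homogeneousComponent P, sum_eq_zero, map_zero]
    refine fun m _ => by_contra fun h0 => ?_
    have h1 := homogeneousComponent_isHomogeneous m P
    obtain ⟨c, -, c', m2, -, -, a3, -, a5⟩ := ha.wide3 h1 (mem_fib.1 ((hm P).1 (hP ▸ hu)) m) h0
      (l := 2) (i := 0) (j := 1) rfl (by omega) (by omega) (by omega) (by omega) (.inl rfl)
    have := AA_BB 0 c'
    have : c'.degree = m := by_contra fun e => mem_support_iff.1 m2 (h1.coeff_eq_zero e)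
    have : c' 0 ≤ _ := monomial_le_degreeOf 0 (f := P) (mem_support_iff.2 fun e =>
      mem_support_iff.1 m2 (by simp [coeff_homogeneousComponent, e]))
    have : BB 0 c' = c' 0 := by simp [BB, Fin.sum_univ_succ]
    omega) fun e0 => h2 (by
      have := (hm E).2 h1
      rwa [e0, Ideal.mem_bot, map_eq_zero_iff _ e.injective] at this)
  obtain ⟨f, rfl⟩ := e.surjective f
  have f3 : ∀ P : MvPolynomial (Fin 4) k, map C P ∈ reesKer (FN 3 a b) → f ∣ P := fun P hP =>
    (map_dvd_iff e).1 (f2 _ ((hm P).2 hP))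
  intro P hP
  refine xi_low fun j => ?_
  rcases j with _ | _ | j
  · obtain ⟨w, hw⟩ := f3 _ (ha.eps hP)
    rw [xi_zero, hw, map_mul]
    exact Ideal.mul_mem_right _ _ (mem_low ((hm f).1 f1) ((deg_map _ _).trans
      ((totalDegree_le_of_dvd_of_isDomain (f3 E h1) h2).trans h3)))
  · exact low_mono hn (chase_one qd_hd (ha.hyp b) hP)
  · exact low_mono (by omega) (chase_high qd_hd (ha.hyp b) hP (by omega))

end Pool.Agent.Lib.MP_514cbf_ag
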