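import Mathlib

/-! The Koszul complex of a sequence which is regular up to torsion, and a diagram chase. -/

noncomputable section

namespace Pool.Agent.Lib.MP_514cbf_ag

open Finset Filter

section kos

variable {S ι : Type*} [CommRing S] [LinearOrder ι] {l : ι → S} {A I : Finset ι} {i j : ι} {s : S}
  {z z' : Finset ι → S}

/-- signs -/
def sg (j : ι) (I : Finset ι) : S := (-1) ^ (I.filter (· < j)).card

theorem sg_sq (j : ι) (I : Finset ι) : (sg j I : S) * sg j I = 1 := by
  rw [sg, ← mul_pow]; simp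

theorem sg_insert (h : i ∉ I) : (sg j (insert i I) : S) = (if i < j then -1 else 1) * sg j I := by
  rw [sg, filter_insert]
  split_ifs
  · rw [card_insert_of_notMem (by simp [h]), pow_succ', sg]
  · rw [one_mul, sg]

/-- contraction -/
def del (j : ι) : (Finset ι → S) →ₗ[S] (Finset ι → S) where
  toFun z I := if j ∈ I then 0 else sg j I * z (insert j I)
  map_add' z w := by funext I; simp only [Pi.add_apply]; split_ifs <;> ring
  map_smul' c z := by
    funext I; simp only [Pi.smul_apply, smul_eq_mul, RingHom.id_apply]; split_ifs <;> ring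

theorem del_apply : del j z I = if j ∈ I then 0 else sg j I * z (insert j I) := rfl

theorem del_del : del j (del j z) = 0 := by
  funext I; simp [del_apply]

theorem del_comm : del i (del j z) = -del j (del i z) := by
  rcases eq_or_ne i j with rfl | h
  · simp [del_del]
  funext I
  by_cases hi : i ∈ I <;> by_cases hj : j ∈ I <;> simp [del_apply, hi, hj, h, h.symm]
  rw [sg_insert hi, sg_insert hj, insert_comm]
  rcases h.lt_or_gt with h | h <;> simp [h, h.not_gt] <;> ring

/-- the differential -/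
def dK (l : ι → S) (A : Finset ι) : (Finset ι → S) →ₗ[S] (Finset ι → S) := ∑ j ∈ A, l j • del j

theorem dK_eq : dK l A z = ∑ j ∈ A, l j • del j z := by simp [dK]

theorem dK_apply : dK l A z I = ∑ j ∈ A, l j * del j z I := by simp [dK]

theorem dK_insert (h : j ∉ A) : dK l (insert j A) z = l j • del j z + dK l A z := by
  simp only [dK_eq, sum_insert h]

theorem del_dK : del j (dK l A z) = -dK l A (del j z) := by
  simp only [dK_eq, map_sum, map_smul, ← sum_neg_distrib, del_comm (i := j), smul_neg]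

theorem dK_dK : dK l A (dK l A z) = 0 := by
  induction A using Finset.induction_on with
  | empty => simp [dK]
  | insert j A h ih => simp [dK_insert h, del_del, del_dK, ih]

theorem dK_mem : dK l A z I ∈ Ideal.span (l '' A) := by
  rw [dK_apply]
  exact Ideal.sum_mem _ fun j hj => Ideal.mul_mem_right _ _ (Ideal.subset_span ⟨j, hj, rfl⟩)

theorem dK_congr (h : ∀ i ∈ A, z (insert i I) = z' (insert i I)) : dK l A z I = dK l A z' I := by
  simp only [dK_apply]
  exact sum_congr rfl fun i hi => by rw [del_apply, del_apply, h i hi]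

theorem dK_res (h : j ∉ A) (z : Finset ι → S) (I : Finset ι) :
    dK l A (fun I => if j ∈ I then 0 else z I) I = if j ∈ I then 0 else dK l A z I := by
  split_ifs with hj
  · rw [dK_congr (z' := 0) fun i _ => by simp [hj], map_zero, Pi.zero_apply]
  · exact dK_congr fun i hi => if_neg (by simp [hj, (ne_of_mem_of_not_mem hi h).symm])

/-- exactness up to torsion -/
def Ex (s : S) (l : ι → S) (A : Finset ι) : Prop := ∀ z, dK l A z = 0 →
  (∀ I, Disjoint I A → z I ∈ Ideal.span (l '' A)) → ∃ (N : ℕ) (y : _), s ^ N • z = dK l A y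

theorem ex_empty : Ex s l ∅ := fun z _ h => ⟨0, 0, funext fun I => by simpa using h I⟩

theorem Ex.insert [Fintype ι] (hj : j ∉ A) (hA : Ex s l A)
    (hr : ∀ g, l j * g ∈ Ideal.span (l '' A) → ∃ N, s ^ N * g ∈ Ideal.span (l '' A)) :
    Ex s l (insert j A) := by
  intro z hz h0
  have hb : dK l A (del j z) = 0 := by
    simpa [dK_insert hj, del_del, del_dK] using congrArg (del j) hz
  choose N hN using fun I => hr (del j z I) (by
    have := congrFun hz I
    rw [dK_insert hj, Pi.add_apply, Pi.zero_apply, add_eq_zero_iff_eq_neg] at this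
    rw [show l j * del j z I = _ from this]
    exact neg_mem dK_mem)
  obtain ⟨M, c, hc⟩ := hA (s ^ univ.sup N • del j z) (by rw [map_smul, hb, smul_zero]) fun I _ => by
    obtain ⟨d, hd⟩ := Nat.exists_eq_add_of_le' (le_sup (f := N) (mem_univ I))
    rw [hd, Pi.smul_apply, smul_eq_mul, pow_add, mul_assoc]
    exact Ideal.mul_mem_left _ _ (hN I)
  rw [smul_smul, ← pow_add] at hc
  generalize M + univ.sup N = u at hc
  choose w hw using fun I => show ∃ w, Disjoint I (Insert.insert j A) →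
      z I - w * l j ∈ Ideal.span (l '' A) by
    by_cases h : Disjoint I (Insert.insert j A)
    · have := h0 I h
      rw [coe_insert, Set.image_insert_eq, Ideal.mem_span_insert] at this
      obtain ⟨a, b, hb, e⟩ := this
      exact ⟨a, fun _ => by rwa [e, add_sub_cancel_left]⟩
    · exact ⟨0, fun h' => (h h').elim⟩
  set c' : Finset ι → S := fun I => if Disjoint I A then -(s ^ u * w I) else c I with hc'
  have e1 : dK l A c' = dK l A c := funext fun I => dK_congr fun i hi =>
    if_neg fun h => disjoint_left.1 h (mem_insert_self _ _) hi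
  set e : Finset ι → S := fun I => if j ∈ I then sg j (I.erase j) * c' (I.erase j) else 0 with he
  have e2 : del j e = fun I => if j ∈ I then 0 else c' I := funext fun I => by
    by_cases h : j ∈ I <;> simp [del_apply, he, h, ← mul_assoc, sg_sq]
  set a := s ^ u • z + dK l (Insert.insert j A) e with ha
  have e3 : del j a = 0 := funext fun I => by
    rw [ha, map_add, map_smul, del_dK, dK_insert hj, del_del, smul_zero, zero_add, e2, Pi.add_apply,
      Pi.neg_apply, dK_res hj, e1, ← hc]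
    by_cases h : j ∈ I <;> simp [h, del_apply]
  have e4 : ∀ I, j ∈ I → a I = 0 := fun I h => by
    have := congrArg (sg j (I.erase j) * ·) (congrFun e3 (I.erase j))
    simpa [del_apply, insert_erase h, ← mul_assoc, sg_sq] using this
  obtain ⟨K, y, hy⟩ := hA a (by
    have : dK l (Insert.insert j A) a = 0 := by rw [ha, map_add, map_smul, hz, dK_dK]; simp
    rwa [dK_insert hj, e3, smul_zero, zero_add] at this) fun I hI => by
      by_cases h : j ∈ I
      · rw [e4 I h]; exact zero_mem _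
      · have := (Ideal.span _).add_mem (Ideal.mul_mem_left _ (s ^ u)
          (hw I (disjoint_insert_right.2 ⟨h, hI⟩))) (dK_mem (z := e) (I := I))
        convert this using 1
        simp only [ha, dK_insert hj, e2, Pi.add_apply, Pi.smul_apply, h, hc', hI, if_true, if_false,
          smul_eq_mul]
        ring
  refine ⟨K + u, (fun I => if j ∈ I then 0 else y I) - s ^ K • e, ?_⟩
  rw [map_sub, map_smul, eq_sub_iff_add_eq, pow_add, mul_smul, ← smul_add, ← ha, dK_insert hj]
  funext I
  rw [Pi.add_apply, dK_res hj, ← hy]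
  by_cases h : j ∈ I <;> simp [h, del_apply, e4]

end kos

section chase

variable {S K : Type*} [CommRing S] [AddCommGroup K] [Module S K] {D : K →ₗ[S] K} {p q r : S}
  {f g f' g' a b c : K}

/-- a zigzag in the double complex -/
def Ch (D : K →ₗ[S] K) (p q r : S) (f g : K) : Prop := ∃ g1 g2 g3 g12 g13 g23,
  D g1 = p • f ∧ D g2 = q • f ∧ D g3 = r • f ∧ D g12 = p • g2 - q • g1 ∧ D g13 = p • g3 - r • g1 ∧
    D g23 = q • g3 - r • g2 ∧ D g = p • g23 - q • g13 + r • g12

theorem Ch.add (h : Ch D p q r f g) (h' : Ch D p q r f' g') : Ch D p q r (f + f') (g + g') := by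
  obtain ⟨g1, g2, g3, g12, g13, g23, a1, a2, a3, a4, a5, a6, a7⟩ := h
  obtain ⟨k1, k2, k3, k12, k13, k23, b1, b2, b3, b4, b5, b6, b7⟩ := h'
  refine ⟨g1 + k1, g2 + k2, g3 + k3, g12 + k12, g13 + k13, g23 + k23, ?_, ?_, ?_, ?_, ?_, ?_, ?_⟩ <;>
    simp only [map_add, *] <;> module

theorem Ch.raise (h : Ch D p q r f g) (t u v w : S) :
    Ch D (u * p) (v * q) (w * r) (t • f) ((t * u * v * w) • g) := by
  obtain ⟨g1, g2, g3, g12, g13, g23, a1, a2, a3, a4, a5, a6, a7⟩ := h
  refine ⟨(t * u) • g1, (t * v) • g2, (t * w) • g3, (t * u * v) • g12, (t * u * w) • g13,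
    (t * v * w) • g23, ?_, ?_, ?_, ?_, ?_, ?_, ?_⟩ <;> simp only [map_smul, *] <;> module

theorem Ch.smul (h : Ch D p q r f g) (t : S) : Ch D p q r (t • f) (t • g) := by
  simpa using h.raise t 1 1 1

theorem Ch.proj (h : Ch D p q r f g) (ρ σ : ℕ → K →+ K) (h1 : ∀ i < 3, ∀ z, D (ρ (i + 1) z) = σ i (D z))
    (h2 : ∀ i < 3, ∀ z, ∀ s ∈ ({p, q, r} : Set S), σ i (s • z) = s • ρ i z) :
    Ch D p q r (ρ 0 f) (ρ 3 g) := by
  obtain ⟨g1, g2, g3, g12, g13, g23, a1, a2, a3, a4, a5, a6, a7⟩ := h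
  have hp := fun i hi z => h2 i hi z p (by simp)
  have hq := fun i hi z => h2 i hi z q (by simp)
  have hr := fun i hi z => h2 i hi z r (by simp)
  refine ⟨ρ 1 g1, ρ 1 g2, ρ 1 g3, ρ 2 g12, ρ 2 g13, ρ 2 g23, ?_, ?_, ?_, ?_, ?_, ?_, ?_⟩ <;>
    rw [h1 _ (by norm_num)] <;> simp [*]

/-- regular sequences -/
structure RS (K : Type*) [AddCommGroup K] [Module S K] (p q r : S) : Prop where
  r1 : ∀ a : K, p • a = 0 → a = 0
  r2 : ∀ a b : K, q • a = p • b → ∃ c, a = p • c
  r3 : ∀ a b c : K, r • a = p • b + q • c → ∃ b' c', a = p • b' + q • c'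

variable (h : RS K p q r)
include h

theorem RS.cancel (e : p • a = p • b) : a = b :=
  sub_eq_zero.1 (h.r1 _ (by rw [smul_sub, e, sub_self]))

theorem RS.syz1 (e1 : p • b = q • a) (e2 : p • c = r • a) : ∃ d, a = p • d ∧ b = q • d ∧ c = r • d := by
  obtain ⟨d, rfl⟩ := h.r2 a b e1.symm
  exact ⟨d, rfl, h.cancel (by rw [e1, smul_comm]), h.cancel (by rw [e2, smul_comm])⟩

theorem RS.syz2 (e : p • a - q • b + r • c = 0) :
    ∃ b1 b2 b3, c = p • b2 - q • b1 ∧ b = p • b3 - r • b1 ∧ a = q • b3 - r • b2 := by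
  obtain ⟨b2, b1, rfl⟩ := h.r3 c (-a) b (by linear_combination (norm := module) e)
  obtain ⟨b3, h3⟩ := h.r2 (b - r • b1) (a + r • b2) (by linear_combination (norm := module) -e)
  refine ⟨-b1, b2, b3, by module, by linear_combination (norm := module) h3, h.cancel ?_⟩
  linear_combination (norm := module) e + q • h3

variable (hD : ∀ z, D (D z) = 0)
include hD

theorem Ch.down (k : Ch D p q r f (p • a - q • b + r • c)) : ∃ y, f = D y := by
  obtain ⟨g1, g2, g3, g12, g13, g23, a1, a2, a3, a4, a5, a6, a7⟩ := k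
  obtain ⟨b1, b2, b3, e1, e2, -⟩ := h.syz2 (a := g23 - D a) (b := g13 - D b) (c := g12 - D c) (by
    simp only [map_add, map_sub, map_smul] at a7
    linear_combination (norm := module) -a7)
  replace e1 := congrArg D e1
  replace e2 := congrArg D e2
  simp only [map_sub, map_smul, hD, a4, a5] at e1 e2
  obtain ⟨d, e, -⟩ := h.syz1 (a := g1 - D b1) (b := g2 - D b2) (c := g3 - D b3)
    (by linear_combination (norm := module) e1) (by linear_combination (norm := module) e2)
  replace e := congrArg D e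
  simp only [map_sub, map_smul, hD, a1, sub_zero] at e
  exact ⟨d, h.cancel e⟩

theorem Ch.up (k : D g = p • a - q • b + r • c) : ∃ f, Ch D p q r f g := by
  obtain ⟨g1, g2, g3, e1, e2, e3⟩ := h.syz2 (a := D a) (b := D b) (c := D c) (by
    simpa [hD] using (congrArg D k).symm)
  have f1 := congrArg D e1
  have f2 := congrArg D e2
  simp only [map_sub, map_smul, hD] at f1 f2
  obtain ⟨d, k1, k2, k3⟩ := h.syz1 (a := D g1) (b := D g2) (c := D g3)
    (by linear_combination (norm := module) -f1) (by linear_combination (norm := module) -f2)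
  exact ⟨d, g1, g2, g3, c, b, a, k1, k2, k3, e1, e2, e3, k⟩

omit h hD in
theorem Ch.exists (P : Submodule S K) (E : ∀ s ∈ ({p, q, r} : Set S), ∀ z ∈ P, D z = 0 →
    ∃ (N : ℕ) (y : K), y ∈ P ∧ s ^ N • z = D y) (h0 : D f = 0)
    (h1 : ∀ s ∈ ({p, q, r} : Set S), ∃ N : ℕ, s ^ N • f ∈ P) :
    ∃ (N : ℕ) (g : K), Ch D (p ^ N) (q ^ N) (r ^ N) f g := by
  have ev : ∀ {s : S} {z : K}, (∃ (N : ℕ) (y : K), y ∈ P ∧ s ^ N • z = D y) →
      ∀ᶠ N in atTop, ∃ y ∈ P, D y = s ^ N • z := fun {s z} ⟨N, y, h1, h2⟩ =>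
    (eventually_ge_atTop N).mono fun M hM => ⟨s ^ (M - N) • y, P.smul_mem _ h1, by
      rw [map_smul, ← h2, smul_smul, ← pow_add, Nat.sub_add_cancel hM]⟩
  have s0 : ∀ s ∈ ({p, q, r} : Set S), ∀ᶠ N in atTop, ∃ y ∈ P, D y = s ^ N • f := fun s hs => by
    obtain ⟨N, hN⟩ := h1 s hs
    obtain ⟨M, y, k1, k2⟩ := E s hs _ hN (by rw [map_smul, h0, smul_zero])
    exact ev ⟨M + N, y, k1, by rw [← k2, smul_smul, pow_add]⟩
  obtain ⟨N, ⟨g1, m1, a1⟩, ⟨g2, m2, a2⟩, g3, m3, a3⟩ :=
    ((s0 p (by simp)).and ((s0 q (by simp)).and (s0 r (by simp)))).exists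
  have s1 : ∀ s ∈ ({p, q, r} : Set S), ∀ {t : S} {a b : K}, a ∈ P → b ∈ P → D a = s ^ N • f →
      D b = t • f → ∀ᶠ M in atTop, ∃ y ∈ P, D y = s ^ M • (s ^ N • b - t • a) :=
    fun s hs t a b ha hb e1 e2 => ev (E s hs _ (P.sub_mem (P.smul_mem _ hb) (P.smul_mem _ ha)) (by
      simp only [map_sub, map_smul, e1, e2]; module))
  obtain ⟨M, ⟨g12, m4, a4⟩, ⟨g13, m5, a5⟩, g23, m6, a6⟩ := ((s1 p (by simp) m1 m2 a1 a2).and
    ((s1 p (by simp) m1 m3 a1 a3).and (s1 q (by simp) m2 m3 a2 a3))).exists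
  obtain ⟨J, g, -, a7⟩ := E p (by simp) (p ^ (M + N) • r ^ M • g23 - q ^ (M + N) • r ^ M • g13 +
      r ^ (M + N) • q ^ M • g12) (P.add_mem (P.sub_mem (P.smul_mem _ (P.smul_mem _ m6))
        (P.smul_mem _ (P.smul_mem _ m5))) (P.smul_mem _ (P.smul_mem _ m4))) (by
    simp only [map_add, map_sub, map_smul, a4, a5, a6, pow_add]; module)
  refine ⟨J + (M + N), (q ^ J * r ^ J) • g, p ^ (J + M) • g1, q ^ (J + M) • g2, r ^ (J + M) • g3,
    (p ^ J * q ^ (J + M)) • g12, (p ^ J * r ^ (J + M)) • g13, (q ^ J * r ^ (J + M)) • g23,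
    ?_, ?_, ?_, ?_, ?_, ?_, ?_⟩ <;> simp only [map_smul, a1, a2, a3, a4, a5, a6, ← a7, pow_add] <;>
    module

end chase

end Pool.Agent.Lib.MP_514cbf_ag
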