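import Pool.Agent.Lib.MP_514cbf_ag.Norm

/-! Existence of normal forms and of configurations, the values. -/

noncomputable section

namespace Pool.Agent.Lib.MP_514cbf_ag

open MvPolynomial Finset Matrix Projectivization
open scoped LinearAlgebra.Projectivization Classical

variable {k : Type*} [Field k] {h : ℕ} {a b : ℕ → Fin 2 → k}

theorem cross_eq {L M : ℙ k (Fin 3 → k)} (h : L ≠ M) :
    ∃ h', cross L M = mk k (L.rep ⨯₃ M.rep) h' :=
  ⟨_, by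
    conv_lhs => rw [← mk_rep L, ← mk_rep M]
    exact cross_mk_of_ne _ _ (by rwa [mk_rep, mk_rep])⟩

theorem meet {P L M : ℙ k (Fin 3 → k)} (h1 : orthogonal P L) (h2 : orthogonal P M) (h : L ≠ M) :
    cross L M = P := by
  obtain ⟨h', e⟩ := cross_eq h
  rw [e, ← mk_rep P, eq_comm, mk_eq_mk_iff_crossProduct_eq_zero,
    cross_cross_eq_smul_sub_smul', orth.1 h2, dotProduct_comm, orth.1 h1]
  simp

theorem exists_nf (c : Adm k h) : ∃ B a b, Nf c B a b := by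
  obtain ⟨h', e⟩ := cross_eq c.ne
  obtain ⟨u, hu⟩ := exists_smul_eq_mk_rep k _ h'
  obtain ⟨r, hr⟩ : ∃ r, (c.p.rep ⨯₃ c.q.rep) ⬝ᵥ r ≠ 0 :=
    not_forall.1 fun H => h' (dotProduct_eq_zero_iff.1 H)
  have hv : ∀ w, w ᵥ* (Matrix.of ![c.q.rep, c.p.rep, r])ᵀ =
      ![c.q.rep ⬝ᵥ w, c.p.rep ⬝ᵥ w, r ⬝ᵥ w] := fun w => by
    rw [vecMul_transpose]; ext i; fin_cases i <;> rfl
  refine ⟨(Matrix.of ![c.q.rep, c.p.rep, r])ᵀ,
    fun i e => if hi : i < h then -(r ⬝ᵥ (c.L (⟨i, hi⟩, e)).rep) / (c.q.rep ⬝ᵥ (c.L (⟨i, hi⟩, e)).rep)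
      else 0,
    fun i e => if hi : i < h then -(r ⬝ᵥ (c.M (⟨i, hi⟩, e)).rep) / (c.p.rep ⬝ᵥ (c.M (⟨i, hi⟩, e)).rep)
      else 0, ?_, fun j => ?_, fun t => ?_, ?_⟩
  · rw [det_transpose, isUnit_iff_ne_zero]
    refine fun e => hr ?_
    have := (triple_product_eq_det _ _ _).trans e
    rw [triple_product_permutation, triple_product_permutation, ← cross_anticomm, dotProduct_neg,
      neg_eq_zero] at this
    rwa [dotProduct_comm]
  · have : c.q.rep ⬝ᵥ (c.L j).rep ≠ 0 := fun e => by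
      have k1 := fun i => meet (orth.2 e) (c.qM (⟨0, j.1.pos⟩, i)) (c.LM j _ (Nat.zero_le _))
      simpa using (c.inj j _ j _ (Nat.zero_le _) (Nat.zero_le _) ((k1 0).trans (k1 1).symm)).2
    refine ⟨_, this, ?_⟩
    rw [hv, orth.1 (c.pL j)]
    simp [mul_div_cancel₀ _ this, neg_div]
  · have : c.p.rep ⬝ᵥ (c.M t).rep ≠ 0 := fun e => by
      have k1 := fun i => meet (c.pL (t.1, i)) (orth.2 e) (c.LM _ t le_rfl)
      simpa using (c.inj (t.1, 0) t (t.1, 1) t le_rfl le_rfl ((k1 0).trans (k1 1).symm)).1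
    refine ⟨_, this, ?_⟩
    rw [hv, orth.1 (c.qM t)]
    simp [mul_div_cancel₀ _ this, neg_div]
  · refine ⟨u * (r ⬝ᵥ c.p.rep ⨯₃ c.q.rep), mul_ne_zero u.ne_zero (dotProduct_comm r _ ▸ hr), ?_⟩
    rw [hv, e, ← hu]
    simp [Units.smul_def]

theorem exists_adm (ha : Inj h a) (hb : Inj h b) : ∃ c : Adm k h, Nf c 1 a b := by
  have n1 : ∀ x : k, ![1, 0, -x] ≠ 0 := fun x => by simp
  have n2 : ∀ x : k, ![0, 1, -x] ≠ 0 := fun x => by simp
  have n3 : ∀ x y : k, ![1, 0, -x] ⨯₃ ![0, 1, -y] = ![x, y, 1] := fun x y => by simp [cross_apply]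
  have n4 : ∀ x y : k, ![1, 0, -x] ⨯₃ ![0, 1, -y] ≠ 0 := fun x y => by simp [n3]
  have n5 : ∀ (v : Fin 3 → k) (hv : v ≠ 0), ∃ l ≠ (0 : k), (mk k v hv).rep ᵥ* 1 = l • v :=
    fun v hv => by
      obtain ⟨u, hu⟩ := exists_smul_eq_mk_rep k v hv
      exact ⟨u, u.ne_zero, by rw [vecMul_one, ← hu, Units.smul_def]⟩
  have n6 : (![0, 1, 0] : Fin 3 → k) ⨯₃ ![1, 0, 0] = (-1 : k) • ![0, 0, 1] := by simp [cross_apply]
  refine ⟨⟨mk k ![0, 1, 0] (by simp), mk k ![1, 0, 0] (by simp), fun j => mk k _ (n1 (a j.1 j.2)),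
    fun j => mk k _ (n2 (b j.1 j.2)), ?_, fun j => ?_, fun j => ?_, fun j t _ => ?_,
    fun j t j' t' _ _ e => ?_⟩, by simp, fun j => n5 _ _, fun j => n5 _ _, ?_⟩
  · simp [mk_eq_mk_iff_crossProduct_eq_zero, n6]
  · simp [orthogonal_mk]
  · simp [orthogonal_mk]
  · simp [mk_eq_mk_iff_crossProduct_eq_zero, n4]
  · rw [cross_mk_of_cross_ne_zero _ _ (n4 _ _), cross_mk_of_cross_ne_zero _ _ (n4 _ _),
      mk_eq_mk_iff'] at e
    obtain ⟨l, e⟩ := e
    simp only [n3, smul_cons, smul_eq_mul, vecCons_inj, mul_one] at e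
    obtain ⟨e1, e2, rfl, -⟩ := e
    have k1 := ha _ j.1.2 _ j'.1.2 _ _ (e1.symm.trans (one_mul _))
    have k2 := hb _ t.1.2 _ t'.1.2 _ _ (e2.symm.trans (one_mul _))
    exact ⟨Prod.ext (Fin.ext k1.1) k1.2, Prod.ext (Fin.ext k2.1) k2.2⟩
  · obtain ⟨l, l1, l2⟩ := n5 (![0, 1, 0] ⨯₃ ![1, 0, 0]) (by simp [n6])
    exact ⟨-l, neg_ne_zero.2 l1, by
      rw [cross_mk_of_cross_ne_zero _ _ (by simp [n6]), l2, n6]; simp⟩

theorem exists_sym {g : Fin h × Fin 2 → k} (hg : Function.Injective g) :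
    ∃ a : ℕ → Fin 2 → k, Inj h a ∧ ∀ i < h, sm a i = 1 := by
  suffices ∀ n ≤ h, ∃ a : ℕ → Fin 2 → k, Inj n a ∧ ∀ i < n, sm a i = 1 from this h le_rfl
  intro n hn
  induction n with
  | zero => exact ⟨0, fun _ h => by omega, fun _ h => by omega⟩
  | succ n ih =>
    obtain ⟨a, h1, h2⟩ := ih (by omega)
    obtain ⟨x, x1, x2⟩ := exists_mem_notMem_of_card_lt_card (t := univ.image g) (s :=
      (range n ×ˢ univ).image (fun j : ℕ × Fin 2 => a j.1 j.2) ∪ {2⁻¹}) (by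
        have := card_union_le ((range n ×ˢ univ).image (fun j : ℕ × Fin 2 => a j.1 j.2)) {2⁻¹}
        have := card_image_le (s := range n ×ˢ univ) (f := fun j : ℕ × Fin 2 => a j.1 j.2)
        simp [card_image_of_injective _ hg] at *
        omega)
    simp only [mem_union, mem_image, mem_product, mem_range, mem_univ, and_true, mem_singleton,
      not_or, not_exists, not_and, Prod.forall] at x2
    have x3 : x ≠ 1 - x := fun e => x2.2 (eq_inv_of_mul_eq_one_left (by linear_combination e))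
    have x4 : ∀ i < n, ∀ e e', a i e ≠ ![x, 1 - x] e' := fun i hi e e' E => by
      have := h2 i hi
      have := x2.1 i 0 hi
      have := x2.1 i 1 hi
      fin_cases e <;> fin_cases e' <;> simp [sm] at * <;> grind
    refine ⟨Function.update a n ![x, 1 - x], fun i hi j hj e e' E => ?_, fun i hi => ?_⟩
    · rcases Nat.lt_succ_iff_lt_or_eq.1 hi with h3 | h3 <;>
        rcases Nat.lt_succ_iff_lt_or_eq.1 hj with h4 | h4
      · exact h1 i h3 j h4 e e' (by simpa [h3.ne, h4.ne] using E)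
      · exact (x4 i h3 e e' (by simpa [h3.ne, h4] using E)).elim
      · exact (x4 j h4 e' e (by simpa [h3, h4.ne] using E.symm)).elim
      · refine ⟨h3.trans h4.symm, ?_⟩
        fin_cases e <;> fin_cases e' <;> simp [h3, h4, x3, x3.symm] at E ⊢
    · rcases Nat.lt_succ_iff_lt_or_eq.1 hi with hi | rfl
      · simpa [sm, hi.ne] using h2 i hi
      · simp [sm]

theorem exists_asym (ha : Inj (h + 3) a) (hs : ∀ i < h + 3, sm a i = 1) :
    ∃ a : ℕ → Fin 2 → k, Inj (h + 3) a ∧ sm a (h + 1) ≠ sm a (h + 2) := by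
  let σ := Equiv.swap ((0, 0) : ℕ × Fin 2) (h + 2, 0)
  have k1 : ∀ j : ℕ × Fin 2, j.1 < h + 3 → (σ j).1 < h + 3 := fun j hj => by
    rw [Equiv.swap_apply_def]; split_ifs <;> simp [hj]
  refine ⟨fun i e => a (σ (i, e)).1 (σ (i, e)).2, fun i hi j hj e e' E => ?_, fun e => ?_⟩
  · have := ha _ (k1 _ hi) _ (k1 _ hj) _ _ E
    simpa using σ.injective (Prod.ext this.1 this.2)
  · have e1 := hs (h + 1) (by omega)
    have e2 := hs (h + 2) (by omega)
    simp [sm, σ, Equiv.swap_apply_def] at e e1 e2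
    have := (ha 0 (by omega) (h + 2) (by omega) 0 0 (by linear_combination e1 - e - e2)).1
    omega

theorem nonempty_iff : Nonempty (Adm k h) ↔ ∃ g : Fin h × Fin 2 → k, Function.Injective g := by
  refine ⟨fun ⟨c⟩ => ?_, fun ⟨g, hg⟩ => ?_⟩
  · obtain ⟨B, a, b, N⟩ := exists_nf c
    exact ⟨fun j => a j.1 j.2, fun i j e => Prod.ext (Fin.ext (N.inj.1 _ i.1.2 _ j.1.2 _ _ e).1)
      (N.inj.1 _ i.1.2 _ j.1.2 _ _ e).2⟩
  · obtain ⟨a, ha, -⟩ := exists_sym hg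
    exact ⟨(exists_adm ha ha).choose⟩

theorem all_iff : (∃ σ, ∀ i ∈ (Set.univ : Set (Fin 3)), sm a i = σ) ↔
    sm a 1 = sm a 0 ∧ sm a 2 = sm a 0 :=
  ⟨fun ⟨_, e⟩ => ⟨(e 1 trivial).trans (e 0 trivial).symm, (e 2 trivial).trans (e 0 trivial).symm⟩,
    fun e => ⟨sm a 0, fun i _ => by fin_cases i <;> simp [e]⟩⟩

variable {ι : Type*} [Finite ι] {c : Adm k (h + 3)} {f : ι → MvPolynomial (Fin 3) k}
  (hf : Ideal.span (Set.range f) = ptIdeal c.pts)
include hf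

omit [Finite ι] in
theorem val_three (h1 : Pencil (cross c.p c.q) c.L Set.univ) (h2 : Pencil (cross c.p c.q) c.M Set.univ) :
    relType f = 3 := by
  obtain ⟨B, a, b, N⟩ := exists_nf c
  obtain ⟨s, hs⟩ := (N.pL _).1 h1
  obtain ⟨t, ht⟩ := (N.pM _).1 h2
  exact rel_eq ((N.gen hf (by norm_num)).2 (N.inj.1.gen_three (fun i hi => hs ⟨i, hi⟩ trivial)
    fun i hi => ht ⟨i, hi⟩ trivial)) fun e => N.inj.1.lower (.inl rfl) ((N.gen hf (by norm_num)).1 e)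

theorem val_ge (h2 : ¬ Pencil (cross c.p c.q) c.M {i | h + 3 ≤ i + 2}) : 5 ≤ relType f ∧
    (¬ Pencil (cross c.p c.q) c.L {i | h + 3 ≤ i + 3} → 9 ≤ relType f) := by
  obtain ⟨B, a, b, N⟩ := exists_nf c
  have k1 : sm b (h + 1) ≠ sm b (h + 2) := fun e => h2 ((N.pM _).2 ⟨sm b (h + 2), fun i hi => by
    have : i.1 = h + 1 ∨ i.1 = h + 2 := by have := i.2; simp at hi; omega
    rcases this with e' | e' <;> simp [e', e]⟩)
  refine ⟨le_rel fun e => N.inj.1.lower (.inr ⟨k1, .inl rfl⟩) ((N.gen hf (by norm_num)).1 e),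
    fun h1 => le_rel fun e => N.inj.1.lower (.inr ⟨k1, .inr ⟨rfl, fun e => h1 ((N.pL _).2
      ⟨sm a h, fun i hi => ?_⟩)⟩⟩) ((N.gen hf (by norm_num)).1 e)⟩
  have : i.1 = h ∨ i.1 = h + 1 ∨ i.1 = h + 2 := by have := i.2; simp at hi; omega
  rcases this with e' | e' | e' <;> simp [e', e]

omit hf [Finite ι] in
theorem val_six {c : Adm k 3} (hf : Ideal.span (Set.range f) = ptIdeal c.pts) :
    (Xor (Pencil (cross c.p c.q) c.L Set.univ) (Pencil (cross c.p c.q) c.M Set.univ) →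
      relType f = 6) ∧ (¬ Pencil (cross c.p c.q) c.L Set.univ →
        ¬ Pencil (cross c.p c.q) c.M Set.univ → relType f = 12) := by
  obtain ⟨B, a, b, N⟩ := exists_nf c
  rw [N.pL, N.pM, all_iff, all_iff]
  have k1 : ∀ n, 1 ≤ n → Gen (FN 3 a b) (n + 1) ∧ ¬ Gen (FN 3 a b) n → relType f = n + 1 :=
    fun n hn e => rel_eq ((N.gen hf (by omega)).2 e.1) fun e' => e.2 ((N.gen hf hn).1 e')
  exact ⟨fun e => k1 5 (by norm_num) (e.elim (fun e => N.inj.1.six e.1 e.2)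
    fun e => N.inj.2.six' e.2 e.1), fun e e' => k1 11 (by norm_num) (N.inj.1.twelve e e')⟩

omit hf [Finite ι] in
theorem exists_fam (c : Adm k h) : ∃ (m : ℕ) (f : Fin m → MvPolynomial (Fin 3) k),
    Ideal.span (Set.range f) = ptIdeal c.pts :=
  Submodule.fg_iff_exists_fin_generating_family.1 (IsNoetherian.noetherian _)

omit hf [Finite ι] in
theorem exists_types (H : Nonempty (Adm k (h + 3))) (p q : Prop) : ∃ c : Adm k (h + 3),
    (p → Pencil (cross c.p c.q) c.L Set.univ) ∧ (q → Pencil (cross c.p c.q) c.M Set.univ) ∧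
      (¬ p → ¬ Pencil (cross c.p c.q) c.L {i | h + 3 ≤ i + 2}) ∧
        (¬ q → ¬ Pencil (cross c.p c.q) c.M {i | h + 3 ≤ i + 2}) := by
  obtain ⟨g, hg⟩ := nonempty_iff.1 H
  obtain ⟨a, a1, a2⟩ := exists_sym hg
  obtain ⟨b, b1, b2⟩ := exists_asym a1 a2
  have k1 : ∀ p : Prop, ∃ a : ℕ → Fin 2 → k, Inj (h + 3) a ∧
      (p → ∃ σ, ∀ i ∈ (Set.univ : Set (Fin (h + 3))), sm a i = σ) ∧
      (¬ p → ¬ ∃ σ, ∀ i ∈ {i : Fin (h + 3) | h + 3 ≤ i + 2}, sm a i = σ) := fun p => by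
    by_cases e : p
    · exact ⟨a, a1, fun _ => ⟨1, fun i _ => a2 i i.2⟩, fun h => (h e).elim⟩
    · exact ⟨b, b1, fun h => (e h).elim, fun _ ⟨_, h'⟩ => b2 ((h' ⟨h + 1, by omega⟩ (by simp)).trans
        (h' ⟨h + 2, by omega⟩ (by simp)).symm)⟩
  obtain ⟨a, a1, a2, a3⟩ := k1 p
  obtain ⟨b, b1, b2, b3⟩ := k1 q
  obtain ⟨c, N⟩ := exists_adm a1 b1
  exact ⟨c, by rwa [N.pL], by rwa [N.pM], by rwa [N.pL], by rwa [N.pM]⟩

omit hf [Finite ι] in
theorem Pencil.mono {Z : ℙ k (Fin 3 → k)} {L : Fin h × Fin 2 → ℙ k (Fin 3 → k)} {s t : Set (Fin h)}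
    (H : Pencil Z L t) (e : s ⊆ t) : Pencil Z L s := H.imp fun _ h i hi => h i (e hi)

end Pool.Agent.Lib.MP_514cbf_ag
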