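import Pool.Agent.Lib.MP_514cbf_ag.Sym

/-! The ideal of the configuration and the normal form. -/

noncomputable section

namespace Pool.Agent.Lib.MP_514cbf_ag

open MvPolynomial Finset Matrix Projectivization
open scoped LinearAlgebra.Projectivization Classical

variable {k ι : Type*} [Field k] {h n : ℕ} {a b : ℕ → Fin 2 → k}

theorem rm_lin (w : Fin 3 → k) (v : Fin 3) (c : k) :
    rm w (X v - C c * X 2) = 0 ↔ w v = c * w 2 := by
  rw [show rm w (X v - C c * X 2) = Polynomial.C (w v - c * w 2) * Polynomial.X by simp [rm]; ring]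
  simp [-map_sub, sub_eq_zero]

theorem pt_step {c d : k} {f u v B : MvPolynomial (Fin 3) k} (e : f = (X 0 - C c * X 2) * u + B * v)
    (h1 : rm ![c, d, 1] f = 0) (h2 : rm ![c, d, 1] B ≠ 0) :
    ∃ u v, f = (X 0 - C c * X 2) * u + B * (X 1 - C d * X 2) * v := by
  have k1 : rm ![c, d, 1] v = 0 := by
    simpa [e, h2, -map_sub, (rm_lin ![c, d, 1] 0 c).2 (by simp)] using h1
  have k2 := sub_aeval_mem (Ideal.span {X 0 - C c * X 2, X 1 - C d * X 2})
    (u := ![C c * X 2, C d * X 2, X 2]) (fun i => by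
      fin_cases i
      exacts [Ideal.subset_span (.inl rfl), Ideal.subset_span (.inr rfl), by simp]) v
  have k3 : aeval ![C c * X 2, C d * X 2, X 2] =
      (Polynomial.aeval (X 2 : MvPolynomial (Fin 3) k)).comp (rm ![c, d, 1]) :=
    algHom_ext fun i => by fin_cases i <;> simp [rm]
  rw [k3, AlgHom.comp_apply, k1, map_zero, sub_zero, Ideal.mem_span_pair] at k2
  obtain ⟨x, y, rfl⟩ := k2
  exact ⟨u + B * x, y, by rw [e]; ring⟩

theorem Inj.line (hb : Inj h b) (c : k) {f : MvPolynomial (Fin 3) k} (hn : n ≤ h)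
    (H : ∀ t < n, ∀ e, rm ![c, b t e, 1] f = 0) :
    ∃ u v, f = (X 0 - C c * X 2) * u + (∏ t ∈ range n, qd 1 b t) * v := by
  induction n with
  | zero => exact ⟨0, f, by simp⟩
  | succ n ih =>
    have k1 : ∀ e, rm ![c, b n e, 1] (∏ t ∈ range n, qd 1 b t) ≠ 0 := fun e => by
      rw [map_prod, prod_ne_zero_iff]
      intro t ht
      have : ∀ e', b n e ≠ b t e' := fun e' h' => by
        have := mem_range.1 ht
        have := (hb _ hn _ (by omega) _ _ h').1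
        omega
      simp [qd, -map_sub, rm_lin, this]
    obtain ⟨u, v, e⟩ := ih (by omega) fun t ht => H t (by omega)
    obtain ⟨u, v, e⟩ := pt_step e (H n n.lt_succ_self 0) (k1 0)
    obtain ⟨u, v, e⟩ := pt_step e (H n n.lt_succ_self 1) (by
      rw [map_mul]
      exact mul_ne_zero (k1 1) fun e => one_ne_zero (hb _ hn _ hn 1 0 (by simpa [-map_sub, rm_lin] using e)).2)
    exact ⟨u, v, by rw [e, prod_range_succ, qd]; ring⟩

theorem Inj.ideal (ha : Inj h a) (hb : Inj h b) (hn : n ≤ h) {f : MvPolynomial (Fin 3) k}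
    (H : ∀ j < n, ∀ t ≤ j, ∀ e e', rm ![a j e, b t e', 1] f = 0) :
    f ∈ Ideal.span (FF (qd 0 a) (qd 1 b) n '' Set.Iic n) := by
  induction n generalizing f with
  | zero => exact mul_one f ▸ Ideal.mul_mem_left _ f (Ideal.subset_span ⟨0, le_refl 0, by simp [FF]⟩)
  | succ n ih =>
    have k1 : ∀ {f u v : MvPolynomial (Fin 3) k} {e0 : Fin 2}, f = (X 0 - C (a n e0) * X 2) * u +
        (∏ t ∈ range (n + 1), qd 1 b t) * v → ∀ j ≤ n, ∀ t ≤ j, ∀ e e', ¬ (j = n ∧ e = e0) →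
          rm ![a j e, b t e', 1] f = 0 → rm ![a j e, b t e', 1] u = 0 := fun e j hj t ht e1 e2 h1 h2 => by
      rw [e, map_add, map_mul, map_mul, map_prod, prod_eq_zero (mem_range.2 (show t < n + 1 by omega))
        (by fin_cases e2 <;> simp [qd, -map_sub, rm_lin]), zero_mul, add_zero, mul_eq_zero,
          rm_lin] at h2
      exact h2.resolve_left fun e => h1 (ha _ (by omega) _ hn _ _ (by simpa using e))
    obtain ⟨u, v, e⟩ := hb.line (a n 0) hn fun t ht => H n n.lt_succ_self t (by omega) 0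
    obtain ⟨u', v', e'⟩ := hb.line (a n 1) (f := u) hn fun t ht e' =>
      k1 e n le_rfl t (by omega) 1 e' (by simp) (H n n.lt_succ_self t (by omega) _ _)
    have := ih (by omega) (f := u') fun j hj t ht e1 e2 => k1 e' j hj.le t ht _ _ (by omega)
      (k1 e j hj.le t ht _ _ (by omega) (H j (by omega) t ht _ _))
    rw [show f = qd 0 a n * u' + FF (qd 0 a) (qd 1 b) (n + 1) (n + 1) *
      ((X 0 - C (a n 0) * X 2) * v' + v) by rw [e, e', FF_top, qd]; ring]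
    refine add_mem ((Ideal.span_le (I := Submodule.comap (LinearMap.mulLeft _ (qd 0 a n))
      (Ideal.span (FF (qd 0 a) (qd 1 b) (n + 1) '' Set.Iic (n + 1))))).2 ?_ this)
      (Ideal.mul_mem_right _ _ (Ideal.subset_span ⟨_, le_refl (n + 1), rfl⟩))
    rintro _ ⟨i, hi, rfl⟩
    exact Ideal.subset_span ⟨i, le_trans hi n.le_succ, FF_succ hi⟩

/-- linear substitutions -/
def th (B : Matrix (Fin 3) (Fin 3) k) : MvPolynomial (Fin 3) k →ₐ[k] MvPolynomial (Fin 3) k :=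
  aeval fun i => ∑ j, C (B i j) * X j

theorem th_sum (B : Matrix (Fin 3) (Fin 3) k) (w : Fin 3 → k) :
    th B (∑ i, C (w i) * X i) = ∑ j, C ((w ᵥ* B) j) * X j := by
  simp [th, vecMul, dotProduct, Fin.sum_univ_three]; ring

theorem th_th {B B' : Matrix (Fin 3) (Fin 3) k} (e : B' * B = 1) :
    (th B).comp (th B') = AlgHom.id _ _ := algHom_ext fun i => by
  rw [AlgHom.comp_apply, th, th, aeval_X, ← th, th_sum, ← mul_apply_eq_vecMul, e]
  simp [one_apply, apply_ite]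

theorem rm_th (B : Matrix (Fin 3) (Fin 3) k) (w : Fin 3 → k) (g : MvPolynomial (Fin 3) k) :
    rm w (th B g) = rm (B *ᵥ w) g := by
  rw [← AlgHom.comp_apply]
  congr 1
  exact algHom_ext fun i => by simp [th, rm, mulVec, dotProduct, sum_mul, mul_assoc]

theorem rm_smul {g : MvPolynomial (Fin 3) k} (hg : g.IsHomogeneous n) {c : k} (hc : c ≠ 0)
    (w : Fin 3 → k) : eval (c • w) g = 0 ↔ rm w g = 0 := by
  have : (eval (c • w) : _ →+* k) = (Polynomial.evalRingHom c).comp (rm w).toRingHom :=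
    ringHom_ext (fun r => by simp) fun i => by simp [rm]; ring
  rw [this]
  simp [rm_hom hg, hc]

/-- coordinates in which the configuration has normal form -/
structure Nf (c : Adm k h) (B : Matrix (Fin 3) (Fin 3) k) (a b : ℕ → Fin 2 → k) : Prop where
  det : IsUnit B.det
  hL : ∀ j, ∃ l ≠ (0 : k), (c.L j).rep ᵥ* B = l • ![1, 0, -a j.1 j.2]
  hM : ∀ j, ∃ l ≠ (0 : k), (c.M j).rep ᵥ* B = l • ![0, 1, -b j.1 j.2]
  hZ : ∃ l ≠ (0 : k), (cross c.p c.q).rep ᵥ* B = l • ![0, 0, 1]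

theorem orth {v w : ℙ k (Fin 3 → k)} : orthogonal v w ↔ v.rep ⬝ᵥ w.rep = 0 := by
  rw [← orthogonal_mk v.rep_nonzero w.rep_nonzero, mk_rep, mk_rep]

variable {c : Adm k h} {B : Matrix (Fin 3) (Fin 3) k} (N : Nf c B a b)
include N

theorem Nf.pt {j t : Fin h × Fin 2} (ht : t.1 ≤ j.1) : ∃ l ≠ (0 : k),
    (cross (c.L j) (c.M t)).rep = l • B *ᵥ ![a j.1 j.2, b t.1 t.2, 1] := by
  obtain ⟨l, l1, l2⟩ := N.hL j
  obtain ⟨m, m1, m2⟩ := N.hM t
  have h1 := orth.1 (orthogonal_cross_left (c.LM j t ht))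
  have h2 := orth.1 (orthogonal_cross_right (c.LM j t ht))
  have h3 := (cross (c.L j) (c.M t)).rep_nonzero
  obtain ⟨w, hw⟩ := mulVec_surjective_iff_isUnit.2 ((isUnit_iff_isUnit_det B).2 N.det)
    (cross (c.L j) (c.M t)).rep
  rw [← hw] at h1 h2 h3 ⊢
  rw [dotProduct_mulVec] at h1 h2
  simp [l1, l2, m1, m2, dotProduct, Fin.sum_univ_three, add_neg_eq_zero, mul_assoc] at h1 h2
  have : w = w 2 • ![a j.1 j.2, b t.1 t.2, 1] := by
    ext i; fin_cases i <;> simp [h1, h2, mul_comm]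
  exact ⟨w 2, fun e => h3 (by rw [this, e]; simp), by rw [← mulVec_smul, ← this]⟩

theorem Nf.inj : Inj h a ∧ Inj h b := by
  have k1 : ∀ j t j' t' : Fin h × Fin 2, t.1 ≤ j.1 → t'.1 ≤ j'.1 → a j.1 j.2 = a j'.1 j'.2 →
      b t.1 t.2 = b t'.1 t'.2 → j = j' ∧ t = t' := fun j t j' t' h1 h2 e1 e2 => by
    obtain ⟨l, l1, l2⟩ := N.pt h1
    obtain ⟨m, m1, m2⟩ := N.pt h2
    refine c.inj j t j' t' h1 h2 ?_
    rw [← mk_rep (cross (c.L j) _), ← mk_rep (cross (c.L j') _), mk_eq_mk_iff']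
    exact ⟨l / m, by rw [l2, m2, e1, e2, smul_smul, div_mul_cancel₀ _ m1]⟩
  refine ⟨fun i hi j hj e e' E => ?_, fun i hi j hj e e' E => ?_⟩
  · simpa using (k1 (⟨i, hi⟩, e) (⟨0, by omega⟩, 0) (⟨j, hj⟩, e') (⟨0, by omega⟩, 0)
      i.zero_le j.zero_le E rfl).1
  · simpa using (k1 (⟨h - 1, by omega⟩, 0) (⟨i, hi⟩, e) (⟨h - 1, by omega⟩, 0) (⟨j, hj⟩, e')
      (Nat.le_sub_one_of_lt hi) (Nat.le_sub_one_of_lt hj) rfl E).2

/-- the change of coordinates -/
def Nf.eqv : MvPolynomial (Fin 3) k ≃ₐ[k] MvPolynomial (Fin 3) k :=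
  AlgEquiv.ofAlgHom (th B) (th B⁻¹) (th_th (nonsing_inv_mul B N.det)) (th_th (mul_nonsing_inv B N.det))

theorem Nf.gen {f : ι → MvPolynomial (Fin 3) k} (hf : Ideal.span (Set.range f) = ptIdeal c.pts)
    (hn : 1 ≤ n) : Gen f n ↔ Gen (FN h a b) n := by
  have : Ideal.span (Set.range (N.eqv.toRingEquiv ∘ f)) = Ideal.span (Set.range (FN h a b)) := by
    rw [Set.range_comp, ← Ideal.map_span, hf, ptIdeal, Ideal.map_span]
    refine le_antisymm (Ideal.span_le.2 ?_) (Ideal.span_le.2 ?_)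
    · rintro _ ⟨g, ⟨⟨n, h1⟩, h2⟩, rfl⟩
      refine Ideal.span_mono ?_ (N.inj.1.ideal N.inj.2 le_rfl fun j hj t ht e e' => ?_)
      · rintro _ ⟨i, hi, rfl⟩
        exact ⟨⟨i, Nat.lt_succ_of_le hi⟩, rfl⟩
      · obtain ⟨l, l1, l2⟩ := N.pt (j := (⟨j, hj⟩, e)) (t := (⟨t, by omega⟩, e')) ht
        exact (rm_th B _ g).trans ((rm_smul h1 l1 _).1 (l2 ▸ h2 _ ⟨_, _, ht, rfl⟩))
    · rintro _ ⟨i, rfl⟩
      have h1 : (th B⁻¹ (FN h a b i)).IsHomogeneous _ := IsHomogeneous.aeval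
        ((IsHomogeneous.prod _ _ _ fun t _ => qd_hom 1 t).mul
          (IsHomogeneous.prod _ _ _ fun t _ => qd_hom 0 t)) _ fun i =>
            IsHomogeneous.sum _ _ _ fun j _ => isHomogeneous_C_mul_X _ _
      refine Ideal.subset_span ⟨_, ⟨⟨_, h1⟩, ?_⟩, N.eqv.apply_symm_apply _⟩
      rintro _ ⟨j, t, ht, rfl⟩
      obtain ⟨l, l1, l2⟩ := N.pt ht
      rw [l2, rm_smul h1 l1, rm_th, mulVec_mulVec, nonsing_inv_mul B N.det, one_mulVec, FN, FI, FF,
        map_mul, map_prod, map_prod, mul_eq_zero]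
      obtain ⟨j, e⟩ := j
      obtain ⟨t, e'⟩ := t
      rcases lt_or_ge t.1 i.1 with h2 | h2
      · exact .inl (prod_eq_zero (mem_range.2 h2) (by fin_cases e' <;> simp [qd, -map_sub, rm_lin]))
      · exact .inr (prod_eq_zero (mem_Ico.2 ⟨h2.trans ht, j.2⟩) (by
          fin_cases e <;> simp [qd, -map_sub, rm_lin]))
  rw [← gen_equiv N.eqv.toRingEquiv]
  exact ⟨fun h => h.of_span hn this.symm, fun h => h.of_span hn this⟩

theorem Nf.pencil {L : Fin h × Fin 2 → ℙ k (Fin 3 → k)} {v : Fin 3} (hv : v ≠ 2)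
    {a : ℕ → Fin 2 → k} (H : ∀ j, ∃ l ≠ (0 : k), th B (lin (L j)) = C l * (X v - C (a j.1 j.2) * X 2))
    (s : Set (Fin h)) : Pencil (cross c.p c.q) L s ↔ ∃ σ, ∀ i ∈ s, sm a i = σ := by
  obtain ⟨z, z1, z2⟩ := N.hZ
  have z3 : th B (lin (cross c.p c.q)) = C z * X 2 := by
    rw [lin, th_sum, z2]; simp [Fin.sum_univ_three]
  choose l l1 l2 using H
  refine ⟨fun ⟨u, hu⟩ => ⟨(eval (Pi.single v 1) (th B u) + eval (Pi.single 2 1) (th B u) -
    eval (Pi.single v 1 + Pi.single 2 1) (th B u)) / eval (Pi.single v 1) (th B u), fun i hi => ?_⟩,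
    fun ⟨σ, hs⟩ => ⟨N.eqv.symm (X v ^ 2 - C σ * X v * X 2), fun i hi => ?_⟩⟩
  · obtain ⟨x, y, e⟩ := Submodule.mem_span_pair.1 (hu i hi)
    have e := congrArg (th B) e
    simp only [map_add, map_smul, map_mul, map_pow, z3, l2] at e
    have e1 := congrArg (eval (Pi.single v 1)) e
    have e2 := congrArg (eval (Pi.single 2 1)) e
    have e3 := congrArg (eval (Pi.single v 1 + Pi.single 2 1)) e
    simp [hv, hv.symm] at e1 e2 e3
    have := mul_ne_zero (l1 (i, 0)) (l1 (i, 1))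
    rw [eq_div_iff (right_ne_zero_of_mul (e1 ▸ this)), sm]
    refine mul_left_cancel₀ (left_ne_zero_of_mul (e1 ▸ this)) ?_
    linear_combination (a i 0 + a i 1 - 1) * e1 - e2 + e3
  · refine Submodule.mem_span_pair.2 ⟨l (i, 0) * l (i, 1),
      l (i, 0) * l (i, 1) * (a i 0 * a i 1) / z ^ 2, N.eqv.injective ?_⟩
    have : (C z * C z⁻¹ : MvPolynomial (Fin 3) k) = 1 := by rw [← C_mul, mul_inv_cancel₀ z1, C_1]
    rw [map_add, map_smul, AlgEquiv.apply_symm_apply]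
    simp only [Nf.eqv, AlgEquiv.ofAlgHom_apply, map_mul, map_pow, z3, l2, ← hs i hi, sm, map_add,
      smul_eq_C_mul, div_eq_mul_inv, ← inv_pow, algHom_C, algebraMap_eq]
    grind

theorem Nf.pL (s : Set (Fin h)) : Pencil (cross c.p c.q) c.L s ↔ ∃ σ, ∀ i ∈ s, sm a i = σ :=
  N.pencil (v := 0) (by decide) (fun j => (N.hL j).imp fun l h => ⟨h.1, by
    rw [lin, th_sum, h.2]; simp [Fin.sum_univ_three]; ring⟩) s

theorem Nf.pM (s : Set (Fin h)) : Pencil (cross c.p c.q) c.M s ↔ ∃ σ, ∀ i ∈ s, sm b i = σ :=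
  N.pencil (v := 1) (by decide) (fun j => (N.hM j).imp fun l h => ⟨h.1, by
    rw [lin, th_sum, h.2]; simp [Fin.sum_univ_three]; ring⟩) s

end Pool.Agent.Lib.MP_514cbf_ag
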