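import Pool.Agent.Lib.MP_514cbf_ag.Basic

/-! Kernels of small matrices of linear forms. -/

noncomputable section

namespace Pool.Agent.Lib.MP_514cbf_ag

open MvPolynomial Finset Matrix

variable {k σ ι : Type*} [Field k]

/-- linear forms -/
def Lin (k σ : Type*) [Field k] : Submodule k (MvPolynomial σ k) := Submodule.span k (Set.range X)

theorem Lin.deg {a : MvPolynomial σ k} (h : a ∈ Lin k σ) : a.totalDegree ≤ 1 :=
  IsHomogeneous.totalDegree_le (by rwa [Lin, ← homogeneousSubmodule_one_eq_span_X] at h)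

theorem lin_ker (W : Set (MvPolynomial σ k)) (hW : W ⊆ Lin k σ) :
    ∃ π : MvPolynomial σ k →ₐ[k] MvPolynomial σ k, (∀ a, π a = 0 ↔ a ∈ Ideal.span W) ∧
      ∀ c ∈ Lin k σ, π c = 0 → c ∈ Submodule.span k W := by
  obtain ⟨g, hg⟩ := (Submodule.span k W).subtype.exists_leftInverse_of_injective
    (Submodule.ker_subtype _)
  have h1 : ∀ c ∈ Lin k σ, aeval (fun i => X i - (g (X i) : MvPolynomial σ k)) c = c - g c :=
    fun c hc => by
      induction hc using Submodule.span_induction with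
      | mem _ h => obtain ⟨i, rfl⟩ := h; exact aeval_X _ _
      | zero => simp
      | add a b _ _ ha hb => simp only [map_add, ha, hb, Submodule.coe_add]; ring
      | smul c a _ ha => simp only [map_smul, ha, Submodule.coe_smul, smul_sub]
  refine ⟨aeval fun i => X i - (g (X i) : MvPolynomial σ k), fun a => ⟨fun h => ?_, fun h => ?_⟩,
    fun c hc h => ?_⟩
  · have := sub_aeval_mem (Ideal.span W) (u := fun i => X i - (g (X i) : MvPolynomial σ k))
      (fun i => by simpa using Submodule.span_subset_span k _ _ (g (X i)).2) a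
    rwa [h, sub_zero] at this
  · refine (Ideal.span_le (I := RingHom.ker (aeval _))).2 (fun w hw => ?_) h
    rw [SetLike.mem_coe, RingHom.mem_ker, h1 w (hW hw), sub_eq_zero]
    exact (congrArg Subtype.val (LinearMap.congr_fun hg ⟨w, Submodule.subset_span hw⟩)).symm
  · rw [h1 c hc, sub_eq_zero] at h
    exact h ▸ (g c).2

/-- the part generated in small degree -/
def Lo (N : Set (ι → MvPolynomial σ k)) (d : ℕ) :
    Submodule (MvPolynomial σ k) (ι → MvPolynomial σ k) :=
  Submodule.span _ {v | v ∈ N ∧ ∀ i, (v i).totalDegree ≤ d}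

theorem syz_lin [Fintype ι] {l : ι → MvPolynomial σ k} (hl : ∀ i, l i ∈ Lin k σ)
    (v : ι → MvPolynomial σ k) (hv : l ⬝ᵥ v = 0) : v ∈ Lo {v | l ⬝ᵥ v = 0} 1 := by
  classical
  have h0 : ∀ w ∈ Lo {v | l ⬝ᵥ v = 0} 1, l ⬝ᵥ w = 0 := fun w hw =>
    (Submodule.span_le (p := LinearMap.ker (dotProductBilin (MvPolynomial σ k) (MvPolynomial σ k) l))).2
      (fun _ h => h.1) hw
  suffices ∀ s : Finset ι, ∀ v, (∀ i ∉ s, v i = 0) → l ⬝ᵥ v = 0 → v ∈ Lo {v | l ⬝ᵥ v = 0} 1 from
    this univ v (by simp) hv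
  intro s
  induction s using Finset.induction_on with
  | empty => exact fun v h _ => by rw [show v = 0 from funext fun i => h i (by simp)]; exact zero_mem _
  | insert j s hj ih =>
  intro v h1 h2
  obtain ⟨π, p1, p2⟩ := lin_ker (l '' s) (by rintro _ ⟨i, -, rfl⟩; exact hl i)
  have h3 : π (l j * v j) = 0 := (p1 _).2 (by
    rw [dotProduct, ← sum_subset (subset_univ (insert j s)) fun i _ hi => by simp [h1 i hi],
      sum_insert hj, add_eq_zero_iff_eq_neg] at h2
    exact h2 ▸ neg_mem (sum_mem fun i hi =>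
      Ideal.mul_mem_right _ _ (Ideal.subset_span ⟨i, hi, rfl⟩)))
  obtain ⟨w, w1, w2, w3⟩ : ∃ w ∈ Lo {v | l ⬝ᵥ v = 0} 1, w j = v j ∧ ∀ i ∉ s, i ≠ j → w i = 0 := by
    rcases mul_eq_zero.1 (map_mul π _ _ ▸ h3) with h | h
    · obtain ⟨c, hc⟩ := (Submodule.mem_span_image_finset_iff_exists_fun' _).1 (p2 _ (hl j) h)
      refine ⟨v j • (Pi.single j 1 - fun i => if i ∈ s then C (c i) else 0), Submodule.smul_mem _ _
        (Submodule.subset_span ⟨?_, fun i => ?_⟩), by simp [hj], fun i h1 h2 => by simp [h1, h2]⟩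
      · simp [dotProduct, mul_sub, Pi.single_apply, ← hc, smul_eq_C_mul, mul_comm]
      · refine (totalDegree_sub _ _).trans (max_le ?_ ?_)
        · rw [Pi.single_apply]; split_ifs <;> simp
        · by_cases e : i ∈ s <;> simp [e]
    · obtain ⟨c, hc⟩ := (Submodule.mem_span_image_finset_iff_exists_fun' _).1 ((p1 _).1 h)
      refine ⟨∑ i ∈ s, c i • (Pi.single j (l i) - Pi.single i (l j)), sum_mem fun i _ =>
        Submodule.smul_mem _ _ (Submodule.subset_span ⟨by simp [mul_comm], fun t => ?_⟩), ?_,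
        fun t h1 h2 => ?_⟩
      · refine (totalDegree_sub _ _).trans (max_le ?_ ?_) <;> rw [Pi.single_apply] <;> split_ifs <;>
          simp [Lin.deg (hl _)]
      · rw [← hc, Finset.sum_apply]
        exact sum_congr rfl fun i hi => by simp [(ne_of_mem_of_not_mem hi hj).symm]
      · rw [Finset.sum_apply]
        exact sum_eq_zero fun i hi => by simp [(ne_of_mem_of_not_mem hi h1).symm, h2]
  rw [← sub_add_cancel v w]
  refine add_mem (ih _ (fun i hi => ?_) (by rw [dotProduct_sub, h2, h0 w w1, sub_zero])) w1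
  by_cases e : i = j
  · simp [e, w2]
  · simp [w3 i hi e, h1 i (by simp [e, hi])]

theorem cross_zero {A : Type*} [CommRing A] {u v : Fin 3 → A} (h : u ⨯₃ v = 0) (i j : Fin 3) :
    u i * v j = u j * v i := by
  have h0 := congrFun h 0
  have h1 := congrFun h 1
  have h2 := congrFun h 2
  simp [cross_apply, sub_eq_zero] at h0 h1 h2
  fin_cases i <;> fin_cases j <;> simp [*]

theorem syz_three {Λ : Set (Fin 3 → MvPolynomial σ k)} (hl : ∀ l ∈ Λ, ∀ i, l i ∈ Lin k σ)
    (v : Fin 3 → MvPolynomial σ k) (hv : ∀ l ∈ Λ, l ⬝ᵥ v = 0) :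
    v ∈ Lo {v | ∀ l ∈ Λ, l ⬝ᵥ v = 0} 2 := by
  by_cases h : ∃ l ∈ Λ, ∃ m ∈ Λ, l ⨯₃ m ≠ 0
  · obtain ⟨l, h1, m, h2, h3⟩ := h
    obtain ⟨_⟩ : Nonempty (NormalizedGCDMonoid (MvPolynomial σ k)) := inferInstance
    obtain ⟨w, w1, w2⟩ := extract_gcd (s := univ) (l ⨯₃ m) univ_nonempty
    obtain ⟨i, hi⟩ := Function.ne_iff.1 h3
    rw [w1 i (mem_univ _), Pi.zero_apply, mul_ne_zero_iff] at hi
    have k1 : ∀ i j, v i * w j = v j * w i := fun i j => mul_left_cancel₀ hi.1 (by
      have := cross_zero (u := v) (v := l ⨯₃ m) (by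
        rw [cross_cross_eq_smul_sub_smul', dotProduct_comm v m, hv l h1, hv m h2]; simp) i j
      rw [w1 j (mem_univ _), w1 i (mem_univ _)] at this
      linear_combination this)
    obtain ⟨a, ha⟩ : w i ∣ v i := by
      have := (Finset.dvd_gcd (s := univ) fun j _ => (Dvd.intro_left _ (k1 i j).symm)).trans
        (Finset.gcd_mul_left' _ _ (v i)).dvd
      rwa [w2, mul_one] at this
    have e : v = a • w := funext fun j => mul_right_cancel₀ hi.2 (by
      rw [← k1, ha, Pi.smul_apply, smul_eq_mul]; ring)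
    rcases eq_or_ne a 0 with rfl | h0
    · rw [e, zero_smul]; exact zero_mem _
    refine e ▸ Submodule.smul_mem _ _ (Submodule.subset_span ⟨fun l' h' => ?_, fun j => ?_⟩)
    · simpa [e, h0] using hv l' h'
    · rcases eq_or_ne (w j) 0 with h4 | h4
      · simp [h4]
      refine (totalDegree_le_of_dvd_of_isDomain (Dvd.intro_left _ (w1 j (mem_univ _)).symm)
        (w1 j (mem_univ _) ▸ mul_ne_zero hi.1 h4)).trans ?_
      have : ∀ a b c d, (l a * m b - l c * m d).totalDegree ≤ 2 := fun a b c d =>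
        (totalDegree_sub _ _).trans (max_le ((totalDegree_mul _ _).trans (add_le_add
          (Lin.deg (hl l h1 _)) (Lin.deg (hl m h2 _)))) ((totalDegree_mul _ _).trans
            (add_le_add (Lin.deg (hl l h1 _)) (Lin.deg (hl m h2 _)))))
      fin_cases j <;> simp [cross_apply, this]
  · obtain ⟨l, h1, h2, h3⟩ : ∃ l : Fin 3 → MvPolynomial σ k, (∀ i, l i ∈ Lin k σ) ∧ l ⬝ᵥ v = 0 ∧
        ∀ w, l ⬝ᵥ w = 0 → ∀ m ∈ Λ, m ⬝ᵥ w = 0 := by
      by_cases h' : ∃ l ∈ Λ, l ≠ 0
      · obtain ⟨l, h1, h2⟩ := h'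
        obtain ⟨i, hi⟩ := Function.ne_iff.1 h2
        refine ⟨l, hl l h1, hv l h1, fun w hw m hm => mul_left_cancel₀ hi ?_⟩
        have := cross_zero (by_contra fun hc => h ⟨l, h1, m, hm, hc⟩) i
        simp only [dotProduct, Fin.sum_univ_three] at hw ⊢
        linear_combination w 0 * this 0 + w 1 * this 1 + w 2 * this 2 + m i * hw
      · exact ⟨0, fun _ => zero_mem _, by simp, fun w _ m hm => by
          rw [show m = 0 from by_contra fun hc => h' ⟨m, hm, hc⟩, zero_dotProduct]⟩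
    refine Submodule.span_mono (fun w hw => ?_) (syz_lin h1 v h2)
    exact ⟨h3 w hw.1, fun i => (hw.2 i).trans one_le_two⟩

theorem exists_ginv {ρ : Type*} [Fintype ι] [Fintype ρ] (M : Matrix ρ ι k) :
    ∃ G : Matrix ι ρ k, M * G * M = M := by
  classical
  obtain ⟨g0, h0⟩ := M.mulVecLin.rangeRestrict.exists_rightInverse_of_surjective
    (LinearMap.range_rangeRestrict _)
  obtain ⟨g, hg⟩ := g0.exists_extend
  refine ⟨LinearMap.toMatrix' g, Matrix.toLin'.injective (LinearMap.ext fun x => ?_)⟩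
  rw [Matrix.toLin'_mul, Matrix.toLin'_mul, Matrix.toLin'_toMatrix']
  have := congrArg Subtype.val (LinearMap.congr_fun h0 (M.mulVecLin.rangeRestrict x))
  rwa [← hg] at this

/-- the solutions of the linear system -/
def Sol [Fintype ι] (a b : Fin 3 → ι → k) (u v : Fin 3 → σ) : Set (ι → MvPolynomial σ k) :=
  {c | ∀ j, X (u j) * ∑ m, C (b j m) * c m = X (v j) * ∑ m, C (a j m) * c m}

theorem sol_gen [Fintype ι] {a b : Fin 3 → ι → k} {u v : Fin 3 → σ} (h : ∀ j, u j ≠ v j)
    {c : ι → MvPolynomial σ k} (hc : c ∈ Sol a b u v) : c ∈ Lo (Sol a b u v) 3 := by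
  classical
  let κ : k →+* MvPolynomial σ k := C
  let M : Matrix (Fin 3 ⊕ Fin 3) ι k := Sum.elim a b
  obtain ⟨G, hG⟩ := exists_ginv M
  let T : Matrix (Fin 3 ⊕ Fin 3) (Fin 3) (MvPolynomial σ k) :=
    Matrix.fromRows (diagonal fun j => X (u j)) (diagonal fun j => X (v j))
  have k1 : ∀ c g, M.map κ *ᵥ c = T *ᵥ g → c ∈ Sol a b u v := fun c g e j => by
    have e1 := congrFun e (Sum.inl j)
    have e2 := congrFun e (Sum.inr j)
    simp only [T, fromRows_mulVec, Sum.elim_inl, Sum.elim_inr, mulVec_diagonal] at e1 e2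
    simp only [M, mulVec, dotProduct] at e1 e2
    exact (congrArg _ e2).trans (Eq.trans (by ring) (congrArg _ e1).symm)
  obtain ⟨g, hg⟩ : ∃ g, M.map κ *ᵥ c = T *ᵥ g := by
    choose g hg using fun j => (X_prime.dvd_or_dvd (Dvd.intro _ (hc j))).resolve_left (by
      rw [X_dvd_X]; exact h j)
    refine ⟨g, funext fun r => ?_⟩
    rcases r with j | j <;> simp only [T, fromRows_mulVec, Sum.elim_inl, Sum.elim_inr, mulVec_diagonal]
    · exact hg j
    · exact mul_left_cancel₀ (X_ne_zero (u j)) ((hc j).trans (by rw [hg j]; ring))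
  have m1 : ∀ {ρ : Type _} [DecidableEq ρ] (A : Matrix ρ ρ k),
      (1 - A).map κ = 1 - A.map κ := fun A => by
    rw [Matrix.map_sub _ (map_sub _), Matrix.map_one _ (map_zero _) (map_one _)]
  set E : Matrix (Fin 3 ⊕ Fin 3) (Fin 3) (MvPolynomial σ k) := (1 - M * G).map κ * T with hE
  have k2 : g ∈ Lo {v | ∀ l ∈ Set.range E, l ⬝ᵥ v = 0} 2 := syz_three (by
    rintro _ ⟨r, rfl⟩ j
    rw [hE, mul_apply]
    refine sum_mem fun t _ => ?_
    rw [Matrix.map_apply, ← smul_eq_C_mul]
    refine Submodule.smul_mem _ _ ?_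
    rcases t with t | t <;> simp only [T, fromRows_apply_inl, fromRows_apply_inr, diagonal_apply] <;>
      split_ifs <;> first | exact zero_mem _ | exact Submodule.subset_span ⟨_, rfl⟩) g (by
    rintro _ ⟨r, rfl⟩
    have : E *ᵥ g = 0 := by
      rw [hE, ← mulVec_mulVec, ← hg, mulVec_mulVec, ← Matrix.map_mul, Matrix.sub_mul, hG]
      simp
    exact congrFun this r)
  have k3 : (G.map κ * T) *ᵥ g ∈ Lo (Sol a b u v) 3 := by
    refine (Submodule.span_le (p := (Lo (Sol a b u v) 3).comap (G.map κ * T).mulVecLin)).2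
      (fun w hw => Submodule.subset_span ⟨k1 _ w ?_, fun i => ?_⟩) k2
    · have : E *ᵥ w = 0 := funext fun r => hw.1 _ ⟨r, rfl⟩
      rw [hE, m1, Matrix.sub_mul, Matrix.one_mul, sub_mulVec, sub_eq_zero] at this
      rw [this, mulVecLin_apply, mulVec_mulVec, Matrix.map_mul, Matrix.mul_assoc]
    · rw [mulVecLin_apply, ← mulVec_mulVec, mulVec, dotProduct]
      refine totalDegree_finsetSum_le fun t _ => (totalDegree_mul _ _).trans ?_
      rcases t with t | t <;> simp only [T, fromRows_mulVec, Sum.elim_inl, Sum.elim_inr,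
        mulVec_diagonal, Matrix.map_apply, κ, totalDegree_C, zero_add] <;>
        exact (totalDegree_mul _ _).trans (add_le_add (totalDegree_X _).le (hw.2 t))
  have k4 : (1 - G * M).map κ *ᵥ c ∈ Lo (Sol a b u v) 3 := by
    rw [mulVec_eq_sum]
    refine sum_mem fun m _ => ?_
    rw [op_smul_eq_smul]
    refine Submodule.smul_mem _ _ (Submodule.subset_span ⟨k1 _ 0 ?_, fun i =>
      (totalDegree_C _).trans_le (Nat.zero_le _)⟩)
    have : M.map κ * (1 - G * M).map κ = 0 := by
      rw [← Matrix.map_mul, Matrix.mul_sub, ← Matrix.mul_assoc, hG]; simp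
    rw [mulVec_zero]
    exact funext fun r => congrFun (congrFun this r) m
  convert add_mem k3 k4 using 1
  rw [← mulVec_mulVec, ← hg, mulVec_mulVec, ← add_mulVec, ← Matrix.map_mul,
    ← Matrix.map_add _ (map_add _)]
  simp

end Pool.Agent.Lib.MP_514cbf_ag
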