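import Pool.Agent.Lib.MP_514cbf_ag.Chase
import Pool.Agent.Lib.MP_514cbf_ag.Syz

/-! The component of degree one for three pairs of lines. -/

noncomputable section

namespace Pool.Agent.Lib.MP_514cbf_ag

open MvPolynomial Finset

variable {k : Type*} [Field k] {N h n : ℕ} {α β : ℕ → MvPolynomial (Fin 3) k}

theorem good_le {g : Finset (Fin h) → MvPolynomial (Fin (h + 1)) (MvPolynomial (Fin 3) k)} {e : ℕ}
    (h1 : ∀ I, I.card ≠ 3 → g I = 0) (h2 : ∀ I, (g I).totalDegree ≤ e)
    (h3 : ∀ I m, coeff m (dK (ell α β) univ g I) ∈ JJ k univ N) : g ∈ Good α β h N (e + 3) := by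
  have : g = ∑ d ∈ range (e + 1), pr 3 (homogeneousComponent d).toAddMonoidHom g := funext fun I => by
    rw [Finset.sum_apply]
    by_cases hI : I.card = 3
    · simp only [pr_apply, hI, if_true]
      exact (sum_homogeneousComponent _).symm.trans (sum_subset (range_mono (Nat.succ_le_succ (h2 I)))
        fun j _ hj => homogeneousComponent_eq_zero _ _ (by simpa using hj))
    · simp [pr_apply, hI, h1]
  refine this ▸ sum_mem fun d hd => ?_
  obtain ⟨f, a1, a2⟩ := good_low (α := α) (β := β) (N := N) (e := d)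
    (g := pr 3 (homogeneousComponent d).toAddMonoidHom g) (fun I hI => if_neg hI) (fun I => by
      rw [pr_apply]
      split_ifs
      exacts [homogeneousComponent_isHomogeneous _ _, isHomogeneous_zero _ _ _]) fun I m => by
    rw [pr_dK (θ := (homogeneousComponent (1 + d)).toAddMonoidHom) (l := ell α β) _
      (fun j w => by exact hc_mul (ell_hom j) d w) 2, pr_apply]
    split_ifs
    · rw [LinearMap.toAddMonoidHom_coe, coeff_homogeneousComponent]
      split_ifs
      exacts [h3 I m, zero_mem _]
    · exact zero_mem _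
  exact ⟨f, low_mono (by have := mem_range.1 hd; omega) a1, a2⟩

theorem dK_top {S : Type*} [CommRing S] {l : Fin h → S} {w : S} (I : Ideal S) :
    (∀ J, dK l univ (Pi.single univ w) J ∈ I) ↔ ∀ j, l j * w ∈ I := by
  refine ⟨fun H j => ?_, fun H J => ?_⟩
  · have := I.mul_mem_left (sg j (univ.erase j)) (H (univ.erase j))
    rw [dK_apply, sum_eq_single j (fun i _ hi => by simp [del_apply, hi]) (by simp)] at this
    convert this using 1
    simp only [del_apply, notMem_erase, insert_erase (mem_univ j), if_false, Pi.single_eq_same]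
    linear_combination (-l j * w) * sg_sq (S := S) j (univ.erase j)
  · rw [dK_apply]
    refine sum_mem fun j _ => ?_
    rw [del_apply, Pi.single_apply]
    split_ifs
    · simp
    · exact mul_left_comm (l j) _ _ ▸ I.mul_mem_left _ (H j)
    · simp

/-- the socle exponent -/
def tp (N : ℕ) : Fin 3 →₀ ℕ := Finsupp.equivFunOnFinite.symm fun _ => N

theorem JJ_top {a : MvPolynomial (Fin 3) k} (h : a.IsHomogeneous (3 * N)) :
    a ∈ JJ k univ (N + 1) ↔ coeff (tp N) a = 0 := by
  rw [mem_JJ]
  refine ⟨fun H => by_contra fun hc => by simpa [tp] using H _ (mem_support_iff.2 hc), fun H m hm => ?_⟩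
  have : m.degree = 3 * N := by_contra fun hc => mem_support_iff.1 hm (h.coeff_eq_zero hc)
  rw [Finsupp.degree_eq_sum, Fin.sum_univ_three] at this
  by_contra hc
  simp only [mem_univ, true_and, not_exists, not_le] at hc
  have := hc 0
  have := hc 1
  have := hc 2
  refine mem_support_iff.1 hm (H ▸ congrArg (coeff · a) (Finsupp.ext fun i => ?_))
  fin_cases i <;> simp [tp] <;> omega

theorem chase_one (hd : ∀ i < 3, (α i).IsHomogeneous 2 ∧ (β i).IsHomogeneous 2)
    (H : ∀ i, Hyp α β 3 (X i)) {P : MvPolynomial (Fin 4) (MvPolynomial (Fin 3) k)}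
    (hP : P ∈ reesKer (FI α β 3)) : xi 1 P ∈ low (FI α β 3) 6 := by
  obtain ⟨M, f, g, h1, h2, h3, h4⟩ := chase hd H hP 1
  refine h1 ▸ h2.out ?_ (by norm_num)
  set T : Finset (Fin 3 →₀ ℕ) := (finsuppAntidiag univ (1 + 3 * (M + 1))).filter
    fun m => ∀ j, m j ≤ M + 2 with hT
  have hm : ∀ m : T, (monomial m.1 (1 : k)).IsHomogeneous (1 + 3 * (M + 1)) := fun m =>
    isHomogeneous_monomial _ (by
      rw [Finsupp.degree_eq_sum]; exact (mem_finsuppAntidiag.1 (mem_filter.1 m.2).1).1)
  let bc : (T → MvPolynomial (Fin 4) k) → MvPolynomial (Fin 4) (MvPolynomial (Fin 3) k) :=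
    fun c => ∑ m, C (monomial m.1 1) * map C (c m)
  have b1 : ∀ c u, coeff u (bc c) = ∑ m : T, monomial m.1 (coeff u (c m)) := fun c u => by
    simp [bc, coeff_sum, coeff_map, mul_comm, C_mul_monomial]
  have b2 : ∀ c, xi (1 + 3 * (M + 1)) (bc c) = bc c := fun c => MvPolynomial.ext _ _ fun u => by
    rw [xi, coeff_cw, b1, LinearMap.toAddMonoidHom_coe, homogeneousComponent_of_mem (n := 1 + 3 * (M + 1))
      (sum_mem fun m _ => by simpa [C_mul_monomial] using (hm m).C_mul (coeff u (c m))), if_pos rfl]
  have b3 : ∀ c, (∀ j, ell α β j * bc c ∈ (JJ k univ (M + 1 + 2)).map C) ↔ c ∈ Sol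
      (fun j (m : T) => coeff (tp (M + 2)) (α j * monomial m.1 1))
      (fun j m => coeff (tp (M + 2)) (β j * monomial m.1 1)) Fin.castSucc Fin.succ := fun c =>
    forall_congr' fun j => by
      have k1 : ∀ (i : Fin 4) (r : MvPolynomial (Fin 3) k), cw (coeffAddMonoidHom (tp (M + 2)))
          (C r * X i * bc c) = X i * ∑ m : T, C (coeff (tp (M + 2)) (r * monomial m.1 1)) * c m :=
        fun i r => by
          rw [mul_comm (C r), mul_assoc, cw_X]
          refine congrArg _ (MvPolynomial.ext _ _ fun u => ?_)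
          rw [coeff_cw, coeff_C_mul, b1, mul_sum, map_sum, coeff_sum]
          refine sum_congr rfl fun m _ => ?_
          rw [coeff_C_mul, mul_comm _ (coeff u _), ← coeff_C_mul, mul_left_comm, C_mul_monomial,
            mul_one, coeffAddMonoidHom_apply]
      rw [mem_map_C_iff, ← sub_eq_zero, ← k1, ← k1, ← map_sub, ← sub_mul, MvPolynomial.ext_iff]
      refine forall_congr' fun u => JJ_top (N := M + 2) ?_
      rw [← b2, ← xi_ell hd, show 3 * (M + 2) = 2 + (1 + 3 * (M + 1)) by ring]
      exact homogeneousComponent_isHomogeneous _ _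
  have hu : ∀ I : Finset (Fin 3), I ≠ univ → I.card ≠ 3 := fun I h1 h2 =>
    h1 (eq_univ_of_card _ (by simpa using h2))
  set c : T → MvPolynomial (Fin 4) k := fun m => cw (coeffAddMonoidHom m.1) (g univ) with hc
  have c1 : g univ - bc c ∈ (JJ k univ (M + 1 + 2)).map C := mem_map_C_iff.2 fun u =>
    mem_JJ.2 fun m hm => by
      rw [mem_support_iff, coeff_sub, b1, coeff_sub, coeff_sum] at hm
      simp only [hc, coeff_cw, coeffAddMonoidHom_apply, coeff_monomial] at hm
      rw [sum_coe_sort T fun x => if x = m then coeff x (coeff u (g univ)) else 0, sum_ite_eq'] at hm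
      by_cases e : m ∈ T
      · simp [e] at hm
      · rw [if_neg e, sub_zero] at hm
        have : m.degree = _ := by_contra fun hc => hm ((h4 univ u).coeff_eq_zero hc)
        rw [Finsupp.degree_eq_sum] at this
        simpa [hT, this, Nat.succ_le_iff] using e
  have e : g = Pi.single univ (g univ) := funext fun I => by
    by_cases hI : I = univ <;> simp [hI, h3, hu]
  have c2 : c ∈ Lo _ 3 := sol_gen (fun j => Fin.castSucc_lt_succ.ne) ((b3 c).1 fun j => by
    rw [← sub_sub_cancel (g univ) (bc c), mul_sub]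
    refine sub_mem ((dK_top _).1 (fun J => ?_) j) (Ideal.mul_mem_left _ _ c1)
    obtain ⟨-, -, -, a, b, c, -, -, -, -, -, -, a7⟩ := h2
    have : ∀ i, pp k (Fin 4) (M + 1 + 2) i ∈ (JJ k univ (M + 1 + 2)).map C := fun i => by
      rw [pp, ← C_pow]; exact Ideal.mem_map_of_mem _ (Ideal.subset_span ⟨i, by simp, rfl⟩)
    rw [← e, a7]
    exact add_mem (sub_mem (Ideal.mul_mem_right _ _ (this 0)) (Ideal.mul_mem_right _ _ (this 1)))
      (Ideal.mul_mem_right _ _ (this 2)))
  have c3 : Pi.single univ (bc c) ∈ Good α β 3 (M + 1 + 2) 6 := by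
    clear_value c
    clear c1 hc
    induction c2 using Submodule.span_induction with
    | mem v hv =>
      refine good_le (e := 3) (fun I hI => Pi.single_eq_of_ne (by rintro rfl; simp at hI) _)
        (fun I => ?_) fun I => mem_map_C_iff.1 ((dK_top _).2 ((b3 v).2 hv.1) I)
      rw [Pi.single_apply]
      split_ifs
      · exact totalDegree_finsetSum_le fun m _ => (totalDegree_mul _ _).trans (by
          rw [totalDegree_C, zero_add]; exact (deg_map _ _).trans (hv.2 m))
      · simp
    | zero => simp [bc]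
    | add a b _ _ ha hb => simpa [bc, mul_add, sum_add_distrib, Pi.single_add] using add_mem ha hb
    | smul r a _ ha =>
      convert Submodule.smul_mem _ (map C r) ha using 1
      rw [← Pi.single_smul']
      simp [bc, mul_sum, mul_left_comm]
  rw [e, ← sub_add_cancel (g univ) (bc c), Pi.single_add]
  refine add_mem (good_pk fun I => ?_) c3
  rw [Pi.single_apply]
  split_ifs
  exacts [mem_map_C_iff.1 c1, fun _ => zero_mem _]

end Pool.Agent.Lib.MP_514cbf_ag
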