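import Pool.Agent.Lib.MP_514cbf_ag.Basic
import Pool.Agent.Lib.MP_514cbf_ag.Kos

/-! The Rees ideal is the saturation of the ideal of the symmetric algebra. -/

noncomputable section

namespace Pool.Agent.Lib.MP_514cbf_ag

open MvPolynomial Finset

variable {R : Type*} [CommRing R] {h n : ℕ} (α β : ℕ → R) {s : R}

/-- the generators -/
def FF (n i : ℕ) : R := (∏ j ∈ range i, β j) * ∏ j ∈ Ico i n, α j

/-- the linear relations -/
def ell (j : Fin h) : MvPolynomial (Fin (h + 1)) R := C (β j) * X j.castSucc - C (α j) * X j.succ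

/-- partial substitution -/
def ph (n : ℕ) : MvPolynomial (Fin (h + 1)) R →ₐ[R] MvPolynomial (Fin (h + 1)) R :=
  aeval fun i => if i.1 ≤ n then C (FF α β n i) * X 0 else X i

/-- the first indices -/
def lo (h n : ℕ) : Finset (Fin h) := univ.filter (·.1 < n)

/-- general position -/
structure Hyp (h : ℕ) (s : R) : Prop where
  ne : ∀ i < h, α i ≠ 0
  cop : ∀ i < h, ∀ j ≤ i, ∀ g, α i ∣ β j * g → α i ∣ g
  rad : ∀ p : Ideal R, p.IsPrime → ∀ i < h, ∀ j < i, ∀ t < i, α i ∈ p → α j ∈ p → β t ∈ p → s ∈ p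

variable {α β}

theorem FF_rel {j : ℕ} (hj : j < n) : β j * FF α β n j = α j * FF α β n (j + 1) := by
  rw [FF, FF, prod_range_succ, prod_eq_prod_Ico_succ_bot hj]; ring

theorem FF_succ {j : ℕ} (hj : j ≤ n) : FF α β (n + 1) j = α n * FF α β n j := by
  rw [FF, FF, prod_Ico_succ_top hj]; ring

theorem FF_top : FF α β n n = ∏ j ∈ range n, β j := by simp [FF]

theorem ph_ell {j : Fin h} (hj : j.1 < n) : ph α β n (ell α β j) = 0 := by
  simp only [ph, ell, map_sub, map_mul, aeval_X, algHom_C, algebraMap_eq, Fin.val_castSucc,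
    Fin.val_succ, hj.le, Nat.succ_le_of_lt hj, if_true, ← mul_assoc]
  rw [← C_mul, ← C_mul, FF_rel hj, sub_self]

theorem ph_span {g : MvPolynomial (Fin (h + 1)) R} (hg : g ∈ Ideal.span (ell α β '' lo h n)) :
    ph α β n g = 0 :=
  (Ideal.span_le (I := RingHom.ker (ph α β n))).2 (by
    rintro _ ⟨j, hj, rfl⟩
    exact ph_ell (by simpa [lo] using hj)) hg

theorem coeff_scale {σ : Type*} (c : σ → R) (P : MvPolynomial σ R) (m : σ →₀ ℕ) :
    coeff m (aeval (fun i => C (c i) * X i) P) = m.prod (fun i e => c i ^ e) * coeff m P := by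
  classical
  induction P using MvPolynomial.induction_on' with
  | monomial u a =>
    have : aeval (fun i => C (c i) * X i) (monomial u a) =
        monomial u (u.prod (fun i e => c i ^ e) * a) := by
      rw [aeval_monomial, monomial_eq]
      simp only [Finsupp.prod, mul_pow, prod_mul_distrib, map_mul, map_prod, map_pow, algebraMap_eq]
      ring
    rw [this, coeff_monomial, coeff_monomial]
    split_ifs with h <;> simp [h]
  | add p q hp hq => rw [map_add, coeff_add, hp, hq, coeff_add, mul_add]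

variable [IsDomain R] (H : Hyp α β h s)
include H

theorem Hyp.reg (hn : n < h) {P g : MvPolynomial (Fin (h + 1)) R} (e : ph α β n g = C (α n) * P) :
    ∃ (N : ℕ) (g' : _), ph α β n g' = C s ^ N * P := by
  let ρ : MvPolynomial (Fin (h + 1)) R →ₐ[R] MvPolynomial (Fin (h + 1)) R :=
    aeval fun i => if i.1 ≤ n then X 0 else X i
  have r1 : ρ.comp (ph α β n) = ph α β n := algHom_ext fun i => by
    by_cases hi : i.1 ≤ n <;> simp [ρ, ph, hi]
  have r2 : ρ P = P := mul_left_cancel₀ (C_ne_zero.2 (H.ne n hn)) (by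
    rw [← e, ← r1, AlgHom.comp_apply, e, map_mul, algHom_C, algebraMap_eq])
  have r3 : ∀ i ≤ n, ∀ Q, ∃ (D : ℕ) (g' : _), ph α β n g' = C (FF α β n i) ^ D * ρ Q := fun i hi Q => by
    have hv : ph α β n (X (⟨i, by omega⟩ : Fin (h + 1))) = C (FF α β n i) * X 0 := by simp [ph, hi]
    have h1 : ∀ D : ℕ, ph α β n (C (FF α β n i) ^ D : MvPolynomial (Fin (h + 1)) R) =
      C (FF α β n i) ^ D := by simp
    induction Q using MvPolynomial.induction_on with
    | C a => exact ⟨0, C a, by simp⟩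
    | add p q hp hq =>
      obtain ⟨D, a, ha⟩ := hp
      obtain ⟨E, b, hb⟩ := hq
      exact ⟨D + E, C (FF α β n i) ^ E * a + C (FF α β n i) ^ D * b, by
        simp only [map_add, map_mul, h1, ha, hb]; ring⟩
    | mul_X p j hp =>
      obtain ⟨D, a, ha⟩ := hp
      by_cases hj : j.1 ≤ n
      · exact ⟨D + 1, a * X ⟨i, by omega⟩, by simp only [map_mul, hv, ha, ρ, aeval_X, hj, if_true]; ring⟩
      · exact ⟨D, a * X j, by
          rw [map_mul, ha]; simp only [map_mul, ρ, ph, aeval_X, hj, if_false]; ring⟩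
  let J : Ideal R := (ph α β n).toLinearMap.range.comap (LinearMap.toSpanSingleton R _ P)
  have hJ : ∀ r : R, (∃ (N : ℕ) (g' : _), ph α β n g' = C r ^ N * P) ↔ r ∈ J.radical := fun r =>
    exists_congr fun N => by simp [J, smul_eq_C_mul]
  rw [hJ, Ideal.radical_eq_sInf]
  refine Submodule.mem_sInf.2 fun p ⟨h1, h2⟩ => ?_
  have k : ∀ r : R, (∃ (N : ℕ) (g' : _), ph α β n g' = C r ^ N * P) → r ∈ p := fun r hr =>
    h2.radical ▸ Ideal.radical_mono h1 ((hJ r).1 hr)
  have k0 := k _ (r2 ▸ r3 0 n.zero_le P)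
  have k1 := k _ (r2 ▸ r3 n le_rfl P)
  simp only [FF, range_zero, prod_empty, one_mul, Ico_self, mul_one, Ideal.IsPrime.prod_mem_iff,
    mem_Ico, mem_range] at k0 k1
  obtain ⟨j, ⟨-, hj⟩, k0⟩ := k0
  obtain ⟨t, ht, k1⟩ := k1
  exact H.rad p h2 n hn j hj t ht (k _ ⟨1, g, by rw [e, pow_one]⟩) k0 k1

omit [IsDomain R] in
theorem Hyp.dvd (hn : n < h) (P : MvPolynomial (Fin (h + 1)) R) (d : ℕ)
    (e : C (α n) ∣ (C (FF α β (n + 1) (n + 1)) * X 0) ^ d * P) : C (α n) ∣ P := by
  have k : ∀ m ≤ n + 1, ∀ g, α n ∣ (∏ j ∈ range m, β j) * g → α n ∣ g := fun m hm => by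
    induction m with
    | zero => simp
    | succ m ih =>
      exact fun g hg => H.cop n hn m (by omega) g (ih (by omega) _ (by
        rwa [prod_range_succ, mul_assoc] at hg))
  induction d with
  | zero => simpa using e
  | succ d ih =>
    refine ih ((C_dvd_iff_dvd_coeff _ _).2 fun m => k _ le_rfl _ ?_)
    rw [pow_succ', mul_assoc, mul_assoc, FF_top, C_dvd_iff_dvd_coeff] at e
    rw [FF_top, ← coeff_X_mul _ 0, ← coeff_C_mul]
    exact e _

theorem Hyp.sat (hn : n ≤ h) (g : MvPolynomial (Fin (h + 1)) R) (hg : ph α β n g = 0) :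
    ∃ N : ℕ, C s ^ N * g ∈ Ideal.span (ell α β '' lo h n) := by
  induction n generalizing g with
  | zero =>
    have : ph α β 0 = AlgHom.id R (MvPolynomial (Fin (h + 1)) R) := algHom_ext fun i => by
      by_cases hi : i = 0 <;> simp [ph, FF, hi]
    exact ⟨0, by simp [show g = 0 by simpa [this] using hg]⟩
  | succ n ih =>
  replace ih := ih (by omega)
  set v : Fin h := ⟨n, hn⟩
  set b : MvPolynomial (Fin (h + 1)) R := C (FF α β (n + 1) (n + 1)) * X 0 with hb
  set ψ : MvPolynomial (Fin (h + 1)) R →ₐ[R] MvPolynomial (Fin (h + 1)) R :=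
    aeval fun i => C (if i = 0 then α n else 1) * X i with hψ
  have hi : ∀ P, ψ P = 0 → P = 0 := fun P hP => MvPolynomial.ext _ _ fun m => by
    have := coeff_scale _ P m ▸ congrArg (coeff m) hP
    exact (mul_eq_zero.1 this).resolve_left (prod_ne_zero_iff.2 fun i _ => pow_ne_zero _ (by
      split_ifs; exacts [H.ne n hn, one_ne_zero]))
  set Φ := Polynomial.eval₂RingHom (ψ.comp (ph α β n)).toRingHom b with hΦ
  have hC : ∀ u, Φ (Polynomial.C u) = ψ (ph α β n u) := fun u => by simp [hΦ]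
  have hX : Φ Polynomial.X = b := by simp [hΦ]
  have hm : Ideal.span (ell α β '' (lo h n : Set (Fin h))) ≤
      Ideal.span (ell α β '' (lo h (n + 1) : Set (Fin h))) :=
    Ideal.span_mono (Set.image_mono fun j => by simp [lo]; omega)
  have key : ∀ d : ℕ, ∀ G : Polynomial _, G.natDegree ≤ d → Φ G = 0 →
      ∃ N : ℕ, C s ^ N * G.eval (X v.succ) ∈
        Ideal.span (ell α β '' (lo h (n + 1) : Set (Fin h))) := fun d => by
    induction d with
    | zero =>
      intro G hG h0
      rw [Polynomial.eq_C_of_natDegree_le_zero hG] at h0 ⊢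
      exact (ih _ (hi _ (hC _ ▸ h0))).imp fun N hN => hm (by simpa using hN)
    | succ d ihd =>
    intro G hG h0
    have e1 := hi (∑ e ∈ range (d + 2), C (α n) ^ (d + 1 - e) * (b ^ e * ph α β n (G.coeff e))) (by
      rw [← mul_zero (C (α n) ^ (d + 1)), ← h0, hΦ, Polynomial.coe_eval₂RingHom,
        Polynomial.eval₂_eq_sum_range' _ (n := d + 2) (by omega), mul_sum, map_sum]
      refine sum_congr rfl fun e he => ?_
      obtain ⟨c, hc⟩ := Nat.exists_eq_add_of_le (Nat.lt_succ_iff.1 (mem_range.1 he))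
      simp [hb, hψ, hc]; ring)
    rw [sum_range_succ, Nat.sub_self, pow_zero, one_mul, add_eq_zero_iff_eq_neg'] at e1
    obtain ⟨P, hP⟩ := H.dvd hn _ _ (e1 ▸ (dvd_sum fun e he => (dvd_pow_self _ (by
      have := mem_range.1 he; omega)).mul_right _).neg_right)
    obtain ⟨N, g', hg'⟩ := H.reg hn hP
    have hu : ph α β n (C s ^ N * G.coeff (d + 1) - C (α n) * g') = 0 := by
      simp only [map_sub, map_mul, map_pow, algHom_C, algebraMap_eq, hP, hg']; ring
    obtain ⟨M, hM⟩ := ih _ hu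
    obtain ⟨K, hK⟩ := ihd (Polynomial.C (C s ^ M * C s ^ N) * G - Polynomial.C (C s ^ M * (C s ^ N *
      G.coeff (d + 1) - C (α n) * g')) * Polynomial.X ^ (d + 1) - (Polynomial.C (C s ^ M * g' * C (α n)) *
        Polynomial.X ^ (d + 1) - Polynomial.C (C s ^ M * g' * C (β n) * X v.castSucc) * Polynomial.X ^ d))
      (Polynomial.natDegree_le_iff_coeff_eq_zero.2 fun m hm => by
        simp only [Polynomial.coeff_sub, Polynomial.coeff_X_pow, Polynomial.coeff_C_mul, hm.ne', if_false]
        split_ifs with h1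
        · rw [h1]; ring
        · simp [Polynomial.coeff_eq_zero_of_natDegree_lt (show G.natDegree < m by omega)])
      (by
        simp only [map_sub Φ, map_mul Φ, map_pow, hC, hX, h0, map_mul (ph α β n), hu]
        simp [ph, hψ, hb, v, FF_top, prod_range_succ]; ring)
    refine ⟨K + M + N, ?_⟩
    convert sub_mem (add_mem hK (Ideal.mul_mem_left _ (C s ^ K * X v.succ ^ (d + 1)) (hm hM)))
      (Ideal.mul_mem_left _ (C s ^ K * C s ^ M * g' * X v.succ ^ d)
        (Ideal.subset_span ⟨v, by simp [lo, v], rfl⟩)) using 1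
    simp [ell, v]; ring
  let Θ : MvPolynomial (Fin (h + 1)) R →+* Polynomial (MvPolynomial (Fin (h + 1)) R) :=
    eval₂Hom (Polynomial.C.comp C) fun i => if i = v.succ then Polynomial.X else Polynomial.C (X i)
  have t1 : Φ.comp Θ = (ph α β (n + 1)).toRingHom := ringHom_ext (fun r => by simp [Θ, hC]) fun i => by
    by_cases h1 : i = v.succ
    · simp [Θ, h1, hX, ph, hb, v]
    · have h2 : i.1 ≠ n + 1 := fun h => h1 (Fin.ext h)
      by_cases h3 : i.1 ≤ n
      · simp [Θ, h1, hC, ph, h3, hψ, h3.trans n.le_succ, FF_succ h3]; ring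
      · simp [Θ, h1, hC, ph, h3, hψ, show ¬ i.1 ≤ n + 1 by omega, show i ≠ 0 by rintro rfl; simp at h3]
  have t2 : (Polynomial.evalRingHom (X v.succ)).comp Θ = RingHom.id _ :=
    ringHom_ext (fun r => by simp [Θ]) fun i => by by_cases h1 : i = v.succ <;> simp [Θ, h1]
  have := key _ (Θ g) le_rfl ((RingHom.congr_fun t1 g).trans hg)
  rwa [show (Θ g).eval (X v.succ) = g from RingHom.congr_fun t2 g] at this

theorem Hyp.ex : Ex (C s) (ell α β) (univ : Finset (Fin h)) := by
  have : ∀ n ≤ h, Ex (C s) (ell α β) (lo h n) := fun n hn => by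
    induction n with
    | zero => simpa [lo] using ex_empty
    | succ n ih =>
      rw [show lo h (n + 1) = insert ⟨n, hn⟩ (lo h n) by ext j; simp [lo, Fin.ext_iff]; omega]
      refine Ex.insert (by simp [lo]) (ih (by omega)) fun g hg => H.sat (by omega) g ?_
      have := ph_span hg
      rw [map_mul, mul_eq_zero] at this
      refine this.resolve_left fun h0 => H.ne n hn ?_
      simpa [ph, ell] using congrArg (eval fun i => if i = 0 then 0 else 1) h0
  simpa [lo] using this h le_rfl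

omit H [IsDomain R] in
theorem ell_mem (j : Fin h) : ell α β j ∈ reesKer fun i : Fin (h + 1) => FF α β h i := by
  simp only [mem_rees, rm, ell, map_sub, map_mul, aeval_X, algHom_C, Polynomial.algebraMap_eq,
    Fin.val_castSucc, Fin.val_succ, ← mul_assoc]
  rw [← Polynomial.C_mul, ← Polynomial.C_mul, FF_rel j.2, sub_self]

theorem Hyp.rees {g : MvPolynomial (Fin (h + 1)) R}
    (hg : g ∈ reesKer fun i : Fin (h + 1) => FF α β h i) :
    ∃ N : ℕ, C s ^ N * g ∈ Ideal.span (ell α β '' (univ : Finset (Fin h))) := by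
  have : ph α β h = (Polynomial.aeval (X 0)).comp (rm fun i : Fin (h + 1) => FF α β h i) :=
    algHom_ext fun i => by simp [ph, rm, i.is_le]
  simpa [lo] using H.sat le_rfl g (by rw [this, AlgHom.comp_apply, mem_rees.1 hg, map_zero])

end Pool.Agent.Lib.MP_514cbf_ag
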