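import Pool.Agent.Lib.MP_514cbf_ag.Fib

/-! The symmetric cases and the values in normal form. -/

noncomputable section

namespace Pool.Agent.Lib.MP_514cbf_ag

open MvPolynomial Finset

variable {k ι : Type*} [Field k] {h n : ℕ} {a b : ℕ → Fin 2 → k}

/-- quadratic substitutions -/
def up (v : Fin 3) (c : k) : MvPolynomial (Fin 3) k →+* MvPolynomial (Fin 3) k :=
  eval₂Hom C (Function.update X v (X v ^ 2 - C c * X 2 * X v))

theorem Gen.up {f : ι → MvPolynomial (Fin 3) k} (H : Gen f n) {v : Fin 3} {c : k}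
    (hv : v ≠ 2 ∨ c = 0) : Gen (up v c ∘ f) n := by
  have u1 : ∀ r, MP_514cbf_ag.up v c (C r) = C r := fun r => eval₂Hom_C _ _ _
  have u2 : ∀ j, MP_514cbf_ag.up v c (X j) = if j = v then X v ^ 2 - C c * X 2 * X v else X j :=
    fun j => by rw [MP_514cbf_ag.up, eval₂Hom_X', Function.update_apply]
  refine H.base (MP_514cbf_ag.up v c) ![1, X v] (fun r => ?_) fun w hw => ?_
  · induction r using MvPolynomial.induction_on with
    | C a => exact ⟨![C a, 0], by simp [u1]⟩
    | add p q hp hq =>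
      obtain ⟨a, rfl⟩ := hp
      obtain ⟨b, rfl⟩ := hq
      exact ⟨a + b, by simp [mul_add, sum_add_distrib]⟩
    | mul_X p j hp =>
      obtain ⟨a, rfl⟩ := hp
      by_cases e : j = v
      · refine ⟨![X v * a 1, a 0 + C c * X 2 * a 1], ?_⟩
        rcases hv with hv | rfl <;> simp [*, eq_comm (a := (2 : Fin 3))] <;> ring
      · exact ⟨fun i => a i * X j, by simp [u2, e]; ring⟩
  · let Θ : MvPolynomial (Fin 3) k →+* Polynomial (MvPolynomial (Fin 3) k) :=
      eval₂Hom (Polynomial.C.comp C) fun i => if i = v then Polynomial.X else Polynomial.C (X i)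
    let u : Polynomial (MvPolynomial (Fin 3) k) :=
      Polynomial.X ^ 2 - Polynomial.C (C c * X 2) * Polynomial.X
    have t1 : Θ.comp (MP_514cbf_ag.up v c) = (Polynomial.compRingHom u).comp Θ :=
      ringHom_ext (fun r => by simp [Θ, u1]) fun i => by
        by_cases e : i = v
        · rcases hv with hv | rfl <;> simp [Θ, u, *, eq_comm (a := (2 : Fin 3))]
        · simp [Θ, u2, e]
    have t2 : (Polynomial.evalRingHom (X v)).comp Θ = RingHom.id _ :=
      ringHom_ext (fun r => by simp [Θ]) fun i => by by_cases h1 : i = v <;> simp [Θ, h1]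
    have t3 : ∀ r, Θ r = 0 → r = 0 := fun r hr => by simpa [hr] using (RingHom.congr_fun t2 r).symm
    obtain ⟨k1, k2⟩ := parity (u := u) (A := Θ (w 1)) (B := Θ (w 0)) (by
      unfold u; compute_degree!) (by
        have t4 : ∀ r, Θ (MP_514cbf_ag.up v c r) = (Θ r).comp u := RingHom.congr_fun t1
        have t5 : Θ (X v) = Polynomial.X := by simp [Θ]
        simpa [t4, t5] using congrArg Θ hw)
    exact Fin.forall_fin_two.2 ⟨t3 _ k2, t3 _ k1⟩

theorem Inj.gen_three (ha : Inj h a) {s t : k} (hs : ∀ i < h, sm a i = s)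
    (ht : ∀ i < h, sm b i = t) : Gen (FN h a b) 3 := by
  let α : ℕ → MvPolynomial (Fin 3) k := fun i => X 0 - C (-(a i 0 * a i 1)) * X 2
  let β : ℕ → MvPolynomial (Fin 3) k := fun i => X 1 - C (-(b i 0 * b i 1)) * X 2
  have : Gen (FI α β h) 3 := fun P hP => xi_low fun j => chase_high (δ := 1)
    (fun _ _ => ⟨(isHomogeneous_X _ _).sub (isHomogeneous_C_mul_X _ _),
      (isHomogeneous_X _ _).sub (isHomogeneous_C_mul_X _ _)⟩)
    (fun v => ⟨fun _ _ => lin_ne (by decide) _, fun i _ j _ g => lin_dvd (by decide) (by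
      simpa [β] using lin_ne (v := 1) (by decide) (-(b j 0 * b j 1))),
      fun p _ i hi j hj t _ h1 h2 h3 => lin_mem (fun e => by
        have e1 := (hs i hi).trans (hs j (hj.trans hi)).symm
        have : (a i 0 - a j 0) * (a i 0 - a j 1) = 0 := by
          simp only [sm] at e1; linear_combination a i 0 * e1 + e
        rcases mul_eq_zero.1 this with e | e <;>
          exact hj.ne' (ha i hi j (hj.trans hi) _ _ (sub_eq_zero.1 e)).1) h1 h2 h3 v⟩) hP (by omega)
  convert ((this.up (v := 2) (.inr rfl)).up (v := 1) (c := t) (.inl (by decide))).up (v := 0) (c := s)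
    (.inl (by decide)) using 1
  funext j
  simp only [FN, FI, FF, Function.comp, map_mul, map_prod]
  refine congrArg₂ _ (prod_congr rfl fun i hi => ?_) (prod_congr rfl fun i hi => ?_)
  · simp [up, β, qd, ← ht i (by have := mem_range.1 hi; omega), sm]; ring
  · simp [up, α, qd, ← hs i (mem_Ico.1 hi).2, sm]; ring

theorem gen_swap (hn : 1 ≤ n) :
    Gen (FN 3 a b) n ↔ Gen (FN 3 (fun i => b (2 - i)) fun i => a (2 - i)) n := by
  rw [← gen_equiv (renameEquiv k (Equiv.swap (0 : Fin 3) 1)).toRingEquiv]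
  have : (renameEquiv k (Equiv.swap (0 : Fin 3) 1)).toRingEquiv ∘ FN 3 a b =
      FN 3 (fun i => b (2 - i)) (fun i => a (2 - i)) ∘ Fin.rev := funext fun j => by
    fin_cases j <;> simp [FN, FI, FF, qd, prod_range_succ, prod_Ico_eq_prod_range,
      Equiv.swap_apply_def, Fin.rev] <;> ring
  rw [this]
  constructor <;> refine fun h => h.of_span hn ?_ <;> rw [Fin.rev_surjective.range_comp]

omit [Field k] in
theorem Inj.rev (ha : Inj 3 a) : Inj 3 fun i => a (2 - i) := fun i hi j hj e e' h =>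
  ⟨by have := (ha _ (by omega) _ (by omega) _ _ h).1; omega, (ha _ (by omega) _ (by omega) _ _ h).2⟩

theorem Inj.six (ha : Inj 3 a) (hs : sm a 1 = sm a 0 ∧ sm a 2 = sm a 0)
    (ht : ¬ (sm b 1 = sm b 0 ∧ sm b 2 = sm b 0)) : Gen (FN 3 a b) 6 ∧ ¬ Gen (FN 3 a b) 5 := by
  refine ⟨ha.upper3 (E6_mem (h := 0) fun i hi => by interval_cases i <;> simp [hs]) (fun e => ?_)
    (E6_hom cz_hom).totalDegree_le le_rfl, ha.lower3 ht (.inl rfl) (by norm_num)⟩
  have := congrArg (eval (pt k 0)) e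
  rw [E6_map, cz_pt, E6_val, map_zero] at this
  exact Inj.res (h := 0) ha (by simpa [hs.2] using this)

theorem Inj.six' (hb : Inj 3 b) (hs : ¬ (sm a 1 = sm a 0 ∧ sm a 2 = sm a 0))
    (ht : sm b 1 = sm b 0 ∧ sm b 2 = sm b 0) : Gen (FN 3 a b) 6 ∧ ¬ Gen (FN 3 a b) 5 := by
  rw [gen_swap (by norm_num), gen_swap (n := 5) (by norm_num)]
  refine hb.rev.six ?_ ?_ <;> simp only [sm] at * <;> grind

theorem Inj.twelve (ha : Inj 3 a) (hs : ¬ (sm a 1 = sm a 0 ∧ sm a 2 = sm a 0))
    (ht : ¬ (sm b 1 = sm b 0 ∧ sm b 2 = sm b 0)) : Gen (FN 3 a b) 12 ∧ ¬ Gen (FN 3 a b) 11 :=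
  ⟨ha.upper3 (MM_mem (h := 0)) (fun e => Inj.MM_pt (h := 0) (b := b) ha (by rw [e, map_zero]))
    (MM_hom cz_hom).totalDegree_le (by norm_num), ha.lower3 ht (.inr ⟨rfl, hs⟩) (by norm_num)⟩

end Pool.Agent.Lib.MP_514cbf_ag
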