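import Pool.Agent.Lib.MP_514cbf_ag.Main

/-! Forms along a coordinate line, dependence over a net of quartics. -/

noncomputable section

namespace Pool.Agent.Lib.MP_514cbf_ag

open MvPolynomial Finset

variable {k σ S S' : Type*} [Field k] [CommRing S] [Algebra k S] [CommRing S'] [Algebra k S']
  {n : ℕ} {P : MvPolynomial σ k}

theorem u_scale (h : P.IsHomogeneous n) (c : S) (f : σ → S) :
    aeval (fun i => c * f i) P = c ^ n * aeval f P := by
  conv_lhs => rw [P.as_sum, map_sum]
  conv_rhs => rw [P.as_sum, map_sum, mul_sum]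
  refine sum_congr rfl fun m hm => ?_
  rw [aeval_monomial, aeval_monomial, Finsupp.prod, Finsupp.prod,
    ← h.degree_eq_sum_deg_support hm |>.symm]
  simp [mul_pow, prod_mul_distrib, prod_pow_eq_pow_sum, mul_left_comm]

theorem u_map (φ : S →ₐ[k] S') (f : σ → S) (P : MvPolynomial σ k) :
    φ (aeval f P) = aeval (fun i => φ (f i)) P := by
  rw [← AlgHom.comp_apply, comp_aeval]

theorem u_dehom [DecidableEq σ] (h : P.IsHomogeneous n) (i : σ) {A : k} (hA : A ≠ 0)
    (h0 : aeval (Function.update X i (C A : MvPolynomial σ k)) P = 0) : P = 0 := by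
  let K := FractionRing (MvPolynomial σ k)
  let ι := IsScalarTower.toAlgHom k (MvPolynomial σ k) K
  have hι : Function.Injective ι := IsFractionRing.injective _ K
  have h1 : ι (X i) ≠ 0 := (map_ne_zero_iff _ hι).2 (X_ne_zero i)
  have h2 : algebraMap k K A ≠ 0 := (map_ne_zero _).2 hA
  have h3 := u_scale h (algebraMap k K A / ι (X i)) fun j => ι (X j)
  rw [← u_map, aeval_X_left_apply] at h3
  have h4 := congrArg (aeval fun j => algebraMap k K A / ι (X i) * ι (X j)) h0
  rw [map_zero, u_map] at h4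
  have h5 : (fun j => aeval (fun j => algebraMap k K A / ι (X i) * ι (X j))
      (Function.update X i (C A : MvPolynomial σ k) j)) =
        fun j => algebraMap k K A / ι (X i) * ι (X j) := funext fun j => by
    by_cases e : j = i
    · rw [e, Function.update_self, algHom_C, div_mul_cancel₀ _ h1]
    · rw [Function.update_of_ne e, aeval_X]
  rw [h5, h3, mul_eq_zero] at h4
  exact hι ((h4.resolve_left (pow_ne_zero _ (div_ne_zero h2 h1))).trans (map_zero _).symm)

theorem u_coeff (f : σ → S) (P : MvPolynomial σ k) (n : ℕ) :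
    (aeval (fun i => Polynomial.X * Polynomial.C (f i)) P).coeff n =
      aeval f (homogeneousComponent n P) := by
  have : ∀ m, aeval (fun i => Polynomial.X * Polynomial.C (f i)) (homogeneousComponent m P) =
      Polynomial.monomial m (aeval f (homogeneousComponent m P)) := fun m => by
    rw [u_scale (homogeneousComponent_isHomogeneous _ _), ← Polynomial.C_mul_X_pow_eq_monomial,
      mul_comm]
    exact congrArg (· * _) (u_map Polynomial.CAlgHom f _).symm
  conv_lhs => rw [← sum_homogeneousComponent P, map_sum]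
  simp only [this, Polynomial.finsetSum_coeff, Polynomial.coeff_monomial, sum_ite_eq', mem_range]
  split_ifs with h
  · rfl
  · rw [homogeneousComponent_eq_zero _ _ (by omega), map_zero]

variable [DecidableEq σ] {i j : σ}

/-- points of a coordinate line -/
def p2 {S : Type*} [Zero S] (i j : σ) (u v : S) (l : σ) : S :=
  if l = i then u else if l = j then v else 0

theorem p2_map (φ : S →ₐ[k] S') (u v : S) (P : MvPolynomial σ k) :
    φ (aeval (p2 i j u v) P) = aeval (p2 i j (φ u) (φ v)) P := by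
  rw [u_map]
  congr 2
  funext l
  unfold p2
  split_ifs <;> simp

theorem p2_scale (h : P.IsHomogeneous n) (c u v : S) :
    aeval (p2 i j (c * u) (c * v)) P = c ^ n * aeval (p2 i j u v) P := by
  rw [← u_scale h]
  congr 2
  funext l
  unfold p2
  split_ifs <;> simp

theorem p2_swap {S : Type*} [Zero S] (e : i ≠ j) (u v : S) : p2 i j u v = p2 j i v u := by
  funext l
  unfold p2
  split_ifs <;> simp_all

theorem p2_deg (h : P.IsHomogeneous n) (A : k) :
    (aeval (p2 i j (Polynomial.C A) Polynomial.X) P).natDegree ≤ n := by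
  refine (aeval_natDegree_le P h.totalDegree_le _ (n := 1) fun l => ?_).trans (by simp)
  unfold p2
  split_ifs <;> simp

theorem p2_zero (h : P.IsHomogeneous n) {A : k} (hA : A ≠ 0)
    (h0 : aeval (p2 i j (Polynomial.C A) Polynomial.X) P = 0) (e : i ≠ j) (u v : S) :
    aeval (p2 i j u v) P = 0 := by
  have h1 : aeval (p2 i j (X i) (X j : MvPolynomial σ k)) P = 0 := by
    refine u_dehom (h.aeval _ (n := 1) fun l => ?_) i hA ?_
    · unfold p2
      split_ifs
      exacts [isHomogeneous_X _ _, isHomogeneous_X _ _, isHomogeneous_zero _ _ _]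
    · have := congrArg (Polynomial.aeval (X j : MvPolynomial σ k)) h0
      rw [p2_map, map_zero] at this
      rw [p2_map, ← this]
      simp [e.symm]
  have := congrArg (aeval (p2 i j u v)) h1
  rw [p2_map, map_zero] at this
  rw [← this]
  simp [p2, e.symm]

theorem p2_split [Fintype σ] (h : P.IsHomogeneous (n + 1))
    (h0 : aeval (p2 i j (X i) (X j : MvPolynomial σ k)) P = 0) :
    ∃ Q : σ → MvPolynomial σ k, (∀ l, (Q l).IsHomogeneous n) ∧
      P = ∑ l with l ≠ i ∧ l ≠ j, X l * Q l := by
  have h1 := sub_aeval_mem (Ideal.span (Set.range fun l => X l - p2 i j (X i) (X j) l))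
    (u := p2 i j (X i) (X j)) (fun l => Ideal.subset_span ⟨l, rfl⟩) P
  rw [h0, sub_zero] at h1
  obtain ⟨c, hc⟩ := Ideal.mem_span_range_iff_exists_fun.1 h1
  refine ⟨fun l => homogeneousComponent n (c l), fun l => homogeneousComponent_isHomogeneous _ _, ?_⟩
  rw [← homogeneousComponent_eq_self h, ← hc, map_sum, sum_filter]
  refine sum_congr rfl fun l _ => ?_
  unfold p2
  by_cases e : l = i
  · simp [e]
  by_cases e' : l = j
  · subst e'
    simp [e]
  rw [if_neg e, if_neg e', if_pos ⟨e, e'⟩, sub_zero, mul_comm, add_comm, hc_mul (isHomogeneous_X _ _)]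

theorem p2_const (h : P.IsHomogeneous 0) {f : σ → S} [Nontrivial S] (h0 : aeval f P = 0) : P = 0 := by
  rw [← totalDegree_zero_iff_isHomogeneous, totalDegree_eq_zero_iff_eq_C] at h
  rw [h, algHom_C, map_eq_zero] at h0
  rw [h, h0, map_zero]

/-- five functions are dependent over a subring of rank four -/
theorem u_dep {D Λ : Type*} [CommRing D] [IsDomain D] [CommRing Λ] [IsDomain Λ] [Algebra k D]
    [Algebra k Λ] (φ : D →ₐ[k] Λ) {ξ η : Λ} {δ : D} (hδ : φ δ ≠ 0) (c c' : Fin 3 → D)
    (h1 : φ δ * ξ ^ 2 = φ (c 0) + φ (c 1) * ξ + φ (c 2) * η)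
    (h2 : φ δ * η ^ 2 = φ (c' 0) + φ (c' 1) * ξ + φ (c' 2) * η)
    (p : Fin 5 → MvPolynomial (Fin 3) k) :
    ∃ g : Fin 5 → D, g ≠ 0 ∧ ∑ i, φ (g i) * aeval ![ξ, η, 1] (p i) = 0 := by
  have k1 : ∀ q : MvPolynomial (Fin 3) k, ∃ d, φ d ≠ 0 ∧ ∃ w : Fin 4 → D, φ d * aeval ![ξ, η, 1] q =
      φ (w 0) + φ (w 1) * ξ + φ (w 2) * η + φ (w 3) * (ξ * η) := fun q => by
    induction q using MvPolynomial.induction_on with
    | C a => exact ⟨1, by simp, ![algebraMap k D a, 0, 0, 0], by simp⟩
    | add p q hp hq =>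
      obtain ⟨d, a, w, e⟩ := hp
      obtain ⟨d', a', w', e'⟩ := hq
      refine ⟨d * d', by rw [map_mul]; exact mul_ne_zero a a', d' • w + d • w', ?_⟩
      simp only [map_add, map_mul, Pi.add_apply, Pi.smul_apply, smul_eq_mul]
      linear_combination φ d' * e + φ d * e'
    | mul_X q v hq =>
      obtain ⟨d, a, w, e⟩ := hq
      have a' : φ (δ * δ * d) ≠ 0 := by simp [hδ, a]
      fin_cases v
      · refine ⟨_, a', ![δ * w 1 * c 0 + w 3 * c 2 * c' 0, δ * δ * w 0 + δ * w 1 * c 1 +
          w 3 * c 2 * c' 1, δ * w 1 * c 2 + δ * w 3 * c 0 + w 3 * c 2 * c' 2,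
            δ * δ * w 2 + δ * w 3 * c 1], ?_⟩
        simp
        linear_combination φ δ * φ δ * ξ * e + φ δ * (φ (w 1) + φ (w 3) * η) * h1 +
          φ (w 3) * φ (c 2) * h2
      · refine ⟨_, a', ![δ * w 2 * c' 0 + w 3 * c' 1 * c 0, δ * w 2 * c' 1 + δ * w 3 * c' 0 +
          w 3 * c' 1 * c 1, δ * δ * w 0 + δ * w 2 * c' 2 + w 3 * c' 1 * c 2,
            δ * δ * w 1 + δ * w 3 * c' 2], ?_⟩
        simp
        linear_combination φ δ * φ δ * η * e + φ δ * (φ (w 2) + φ (w 3) * ξ) * h2 +
          φ (w 3) * φ (c' 1) * h1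
      · exact ⟨d, a, w, by simpa using e⟩
  choose d a w e using fun i => k1 (p i)
  obtain ⟨g, g1, i, g2⟩ := Fintype.not_linearIndependent_iff.1 fun H : LinearIndependent D w => by
    simpa using H.fintype_card_le_finrank
  refine ⟨fun i => g i * d i, fun H => ?_, ?_⟩
  · exact mul_ne_zero g2 (fun e => a i (by rw [e, map_zero])) (congrFun H i)
  · have := fun j => congrArg φ (congrFun g1 j)
    simp only [Fin.sum_univ_five, Pi.add_apply, Pi.smul_apply, smul_eq_mul, map_add, map_mul,
      Pi.zero_apply, map_zero] at this ⊢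
    linear_combination φ (g 0) * e 0 + φ (g 1) * e 1 + φ (g 2) * e 2 + φ (g 3) * e 3 +
      φ (g 4) * e 4 + this 0 + ξ * this 1 + η * this 2 + ξ * η * this 3

end Pool.Agent.Lib.MP_514cbf_ag
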