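import Pool.Agent.Lib.MP_514cbf_ag.UnbA

/-! The first order neighbourhood of a fourfold line. -/

noncomputable section

namespace Pool.Agent.Lib.MP_514cbf_ag

open MvPolynomial Finset

variable {k : Type*} [Field k] {m n h : ℕ} {a b : ℕ → Fin 2 → k} {s x : k}

/-- values of a pair -/
def qv (a : ℕ → Fin 2 → k) (x : k) (i : ℕ) : k := (x - a i 0) * (x - a i 1)

/-- a pair as a polynomial -/
def qp (b : ℕ → Fin 2 → k) (i : ℕ) : Polynomial k :=
  (Polynomial.X - Polynomial.C (b i 0)) * (Polynomial.X - Polynomial.C (b i 1))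

/-- restriction to a line through the first centre -/
def sp (x : k) : MvPolynomial (Fin 3) k →ₐ[k] Polynomial k := aeval ![Polynomial.C x, Polynomial.X, 1]

theorem qp_ne (i : ℕ) : qp b i ≠ 0 := mul_ne_zero (Polynomial.X_sub_C_ne_zero _) (Polynomial.X_sub_C_ne_zero _)

theorem qp_deg (i : ℕ) : (qp b i).natDegree = 2 := by
  rw [qp, Polynomial.natDegree_mul (Polynomial.X_sub_C_ne_zero _) (Polynomial.X_sub_C_ne_zero _)]
  simp

theorem qp_eval (y : k) (i : ℕ) : (qp b i).eval y = qv b y i := by simp [qp, qv]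

theorem qv_self (i : ℕ) (e : Fin 2) : qv a (a i e) i = 0 := by fin_cases e <;> simp [qv]

theorem Inj.qv_ne (ha : Inj h a) {i j : ℕ} (hi : i < h) (hj : j < h) (e : i ≠ j) (e' : Fin 2) :
    qv a (a i e') j ≠ 0 :=
  mul_ne_zero (sub_ne_zero.2 fun E => e (ha _ hi _ hj _ _ E).1)
    (sub_ne_zero.2 fun E => e (ha _ hi _ hj _ _ E).1)

theorem qv_sub (x y : k) (i : ℕ) : qv a x i - qv a y i = (x - y) * (x + y - sm a i) := by
  simp only [qv, sm]; ring

theorem sp_FF (l i : ℕ) : sp x (FF (qd 0 a) (qd 1 b) l i) =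
    (∏ j ∈ range i, qp b j) * Polynomial.C (∏ j ∈ Ico i l, qv a x j) := by
  simp [FF, sp, qd, qp, qv]

theorem star {ι τ : Type*} {l : ℕ} (hl : l ≤ h) {T : Finset ι} {σ : ι → ℕ} (hσ : ∀ i ∈ T, σ i ≤ l)
    {f : τ → MvPolynomial (Fin 3) k} {Q : ι → MvPolynomial τ k} (hQ : ∀ i, (Q i).IsHomogeneous n)
    (H : ∑ i ∈ T, aeval f (Q i) * FF (qd 0 a) (qd 1 b) h (σ i) = 0) {B : Polynomial k} (hB : B ≠ 0)
    {w : τ → Polynomial k} (hw : ∀ i, sp x (f i) = B * w i) :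
    ∑ i ∈ T, aeval w (Q i) * ((∏ j ∈ range (σ i), qp b j) *
      Polynomial.C (∏ j ∈ Ico (σ i) l, qv a x j)) = 0 := by
  have h1 : (∑ i ∈ T, aeval f (Q i) * FF (qd 0 a) (qd 1 b) l (σ i)) * ∏ j ∈ Ico l h, qd 0 a j = 0 := by
    rw [← H, sum_mul]
    refine sum_congr rfl fun i hi => ?_
    rw [FF, FF, ← prod_Ico_consecutive _ (hσ i hi) hl]
    ring
  have h2 := congrArg (sp x) ((mul_eq_zero.1 h1).resolve_right
    (prod_ne_zero_iff.2 fun j _ => qd_ne (by decide) j))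
  simp only [map_sum, map_mul, map_zero, u_map, hw, u_scale (hQ _), sp_FF, mul_assoc,
    ← mul_sum] at h2
  exact (mul_eq_zero.1 h2).resolve_left (pow_ne_zero _ hB)

theorem sp_four (e : Fin 2) {i : ℕ} (hi : i ≤ m + 6) :
    sp (a (m + 4) e) (FF (qd 0 a) (qd 1 b) (m + 6) i) = (∏ j ∈ range (m + 5), qp b j) *
      p2 (m + 5) (m + 6) (Polynomial.C (qv a (a (m + 4) e) (m + 5))) (qp b (m + 5)) i := by
  rw [sp_FF, p2]
  split_ifs with h1 h2
  · simp [h1]
  · simp [h2, prod_range_succ _ (m + 5)]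
  · rw [prod_eq_zero (mem_Ico.2 ⟨show i ≤ m + 4 by omega, by omega⟩) (qv_self _ _)]
    simp

theorem sp_five {i : ℕ} (hi : i ≤ m + 6) :
    sp (a (m + 5) 0) (FF (qd 0 a) (qd 1 b) (m + 6) i) = (∏ j ∈ range (m + 6), qp b j) *
      p2 (m + 5) (m + 6) 0 1 i := by
  rw [sp_FF, p2]
  by_cases h2 : i = m + 6
  · simp [h2]
  · rw [prod_eq_zero (mem_Ico.2 ⟨show i ≤ m + 5 by omega, by omega⟩) (qv_self _ _)]
    simp [h2]

theorem qp_par {g g' : Polynomial k} {c : k} {i j : ℕ} (hc : c ≠ 0) (ht : sm b i ≠ sm b j)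
    (H : g'.comp (qp b j) * Polynomial.C c + g.comp (qp b j) * qp b i = 0) : g' = 0 ∧ g = 0 := by
  obtain ⟨h1, h2⟩ := parity (qp_deg (b := b) j) (A := Polynomial.C (sm b j - sm b i) * g)
    (B := g' * Polynomial.C c + g * (Polynomial.X + Polynomial.C (b i 0 * b i 1 - b j 0 * b j 1))) (by
      rw [← H]
      simp only [Polynomial.add_comp, Polynomial.mul_comp, Polynomial.C_comp, Polynomial.X_comp]
      generalize g.comp _ = G
      generalize g'.comp _ = G'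
      simp only [qp, sm, map_sub, map_add, map_mul]
      ring)
  have h3 : g = 0 := by simpa [sub_eq_zero, ← map_sub, ht.symm] using h1
  exact ⟨by simpa [h3, hc] using h2, h3⟩

/-- the special position -/
structure Spc (m : ℕ) (a b : ℕ → Fin 2 → k) (s : k) : Prop where
  ha : Inj (m + 6) a
  hb : Inj (m + 6) b
  hs : ∀ i < m + 6, i ≠ 0 → i ≠ m + 2 → sm a i = s
  h0 : sm a 0 ≠ s
  h2 : sm a (m + 2) ≠ s
  h3 : sm b (m + 3) ≠ sm b (m + 5)
  hr : ∀ i ≤ m + 2, ∀ j ≤ m + 2, ∀ e e', b i e + b j e' = sm b (m + 5) → i = j ∧ e = e'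

variable (H : Spc m a b s)
include H

theorem Spc.sym {i : ℕ} (hi : i < m + 6) :
    qv a (a (m + 4) 0) i = qv a (a (m + 4) 1) i ↔ sm a i = s := by
  have : a (m + 4) 0 - a (m + 4) 1 ≠ 0 := sub_ne_zero.2 fun e =>
    zero_ne_one (H.ha _ (by omega) _ (by omega) _ _ e).2
  rw [← sub_eq_zero, qv_sub, mul_eq_zero, or_iff_right this, sub_eq_zero, eq_comm,
    ← H.hs (m + 4) (by omega) (by omega) (by omega), sm, sm]

theorem Spc.prod {i : ℕ} (h1 : 1 ≤ i) (h2 : i ≤ m + 2) (e : Fin 2) :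
    ∏ j ∈ Ico i (m + 4), qv a (a (m + 4) e) j = (∏ j ∈ Ico i (m + 2), qv a (a (m + 4) 0) j) *
      qv a (a (m + 4) e) (m + 2) * qv a (a (m + 4) 0) (m + 3) := by
  have : ∀ j < m + 6, j ≠ 0 → j ≠ m + 2 → qv a (a (m + 4) e) j = qv a (a (m + 4) 0) j :=
    fun j h1 h2 h3 => by
      fin_cases e
      exacts [rfl, ((H.sym h1).2 (H.hs j h1 h2 h3)).symm]
  rw [prod_Ico_succ_top (by omega), prod_Ico_succ_top h2, this (m + 3) (by omega) (by omega) (by omega),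
    prod_congr rfl fun j hj => this j (by have := mem_Ico.1 hj; omega) (by have := mem_Ico.1 hj; omega)
      (by have := mem_Ico.1 hj; omega)]

theorem Spc.four (e : Fin 2) {i : ℕ} (hi : i ≤ m + 6) :
    sp (a (m + 4) e) (FF (qd 0 a) (qd 1 b) (m + 6) i) = (∏ j ∈ range (m + 5), qp b j) *
      p2 (m + 5) (m + 6) (Polynomial.C (qv a (a (m + 4) 0) (m + 5))) (qp b (m + 5)) i := by
  rw [sp_four e hi]
  fin_cases e
  · rfl
  · rw [(H.sym (by omega)).2 (H.hs (m + 5) (by omega) (by omega) (by omega))]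
    rfl

theorem Spc.ne {j : ℕ} (hj : j < m + 6) (h4 : j ≠ m + 4) (e : Fin 2) : qv a (a (m + 4) e) j ≠ 0 :=
  H.ha.qv_ne (by omega) hj h4.symm e

theorem Spc.ne_prod {i l : ℕ} (hl : l ≤ m + 4) (e : Fin 2) :
    ∏ j ∈ Ico i l, qv a (a (m + 4) e) j ≠ 0 :=
  prod_ne_zero_iff.2 fun j hj => H.ne (by have := mem_Ico.1 hj; omega) (by have := mem_Ico.1 hj; omega) e

end Pool.Agent.Lib.MP_514cbf_ag
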