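import Pool.Agent.Lib.MP_514cbf_ag.UnbB

/-! Equations of low degree miss one normal direction along the fourfold line. -/

noncomputable section

namespace Pool.Agent.Lib.MP_514cbf_ag

open MvPolynomial Finset

variable {k : Type*} [Field k] {m n h : ℕ} {a b : ℕ → Fin 2 → k} {s x : k}

/-- the index before the last one -/
def i1 (m : ℕ) : Fin (m + 6 + 1) := ⟨m + 5, by omega⟩

/-- the last index -/
def i2 (m : ℕ) : Fin (m + 6 + 1) := ⟨m + 6, by omega⟩

theorem i12 : i1 m ≠ i2 m := by simp [i1, i2]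

theorem p2_val {S : Type*} [Zero S] (u v : S) (i : Fin (m + 6 + 1)) :
    p2 (m + 5) (m + 6) u v i = p2 (i1 m) (i2 m) u v i := by
  simp [p2, i1, i2, Fin.ext_iff]

/-- a double structure on the line -/
def ps (k : Type*) [Field k] (m : ℕ) :
    MvPolynomial (Fin (m + 6 + 1)) k →ₐ[k] DualNumber (Polynomial k) :=
  aeval fun l => TrivSqZeroExt.inl (p2 (i2 m) (i1 m) (Polynomial.C 1) Polynomial.X l) +
    TrivSqZeroExt.inr (if l = 0 then 1 else 0)

theorem ps_X {l : Fin (m + 6 + 1)} (h1 : l ≠ i1 m) (h2 : l ≠ i2 m) (Q : MvPolynomial _ k) :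
    ps k m (X l * Q) = TrivSqZeroExt.inr (if l = 0 then
      aeval (p2 (i2 m) (i1 m) (Polynomial.C 1) Polynomial.X) Q else 0) := by
  have : (ps k m Q).fst = aeval (p2 (i2 m) (i1 m) (Polynomial.C 1) Polynomial.X) Q :=
    (u_map (TrivSqZeroExt.fstHom k (Polynomial k) (Polynomial k)) _ Q).trans
      (congrArg (fun w : _ → Polynomial k => aeval w Q) (funext fun _ => (add_zero _)))
  rw [map_mul, ← this]
  generalize ps k m Q = z
  rw [ps, aeval_X, p2, if_neg h2, if_neg h1]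
  split_ifs <;> ext1 <;> simp

/-- the indices outside of the line -/
def out (m : ℕ) : Finset (Fin (m + 6 + 1)) := {l | l ≠ i1 m ∧ l ≠ i2 m}

theorem out_le : ∀ l ∈ out m, l.1 ≤ m + 4 := fun l hl => by
  have := l.2
  simp [out, i1, i2, Fin.ext_iff] at hl
  omega

theorem out_zero : 0 ∈ out m := by simp [out, i1, i2, Fin.ext_iff]

theorem star_eval {Q : Fin (m + 6 + 1) → MvPolynomial (Fin (m + 6 + 1)) k}
    (hQ : ∀ i, (Q i).IsHomogeneous n) (h2 : ∑ l ∈ out m,
      aeval (FN (m + 6) a b) (Q l) * FF (qd 0 a) (qd 1 b) (m + 6) l = 0) {u v B : Polynomial k}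
    (hB : B ≠ 0) (hw : ∀ i ≤ m + 6, sp x (FF (qd 0 a) (qd 1 b) (m + 6) i) =
      B * p2 (m + 5) (m + 6) u v i) (y : k) : ∑ l ∈ out m,
        aeval (p2 (i1 m) (i2 m) (u.eval y) (v.eval y)) (Q l) * ((∏ j ∈ range l, qv b y j) *
          ∏ j ∈ Ico l.1 (m + 4), qv a x j) = 0 := by
  have := congrArg (Polynomial.aeval y) (star (x := x) (by omega) out_le hQ h2 hB
    (w := p2 (i1 m) (i2 m) u v) fun i => by rw [← p2_val, ← hw i (Nat.le_of_lt_succ i.2)]; rfl)
  simpa only [map_sum, map_mul, map_zero, p2_map, map_prod, Polynomial.coe_aeval_eq_eval,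
    Polynomial.eval_C, qp_eval, Polynomial.aeval_C, Algebra.algebraMap_self_apply] using this

variable (H : Spc m a b s)
include H

theorem Spc.line {P : MvPolynomial (Fin (m + 6 + 1)) k} (h1 : P.IsHomogeneous n)
    (h2 : aeval (FN (m + 6) a b) P = 0) :
    aeval (p2 (i1 m) (i2 m) (X (i1 m)) (X (i2 m) : MvPolynomial _ k)) P = 0 := by
  have h3 := congrArg (sp (a (m + 4) 0)) h2
  simp only [u_map, map_zero, FN, FI, H.four 0 (Nat.le_of_lt_succ (Fin.is_lt _)), u_scale h1,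
    p2_val] at h3
  refine p2_zero h1 (H.ne (j := m + 5) (by omega) (by omega) 0)
    (parity (A := 0) (qp_deg (b := b) (m + 5)) ?_).2 i12 _ _
  rw [Polynomial.zero_comp, mul_zero, add_zero, Polynomial.comp_eq_aeval, p2_map]
  simpa using (mul_eq_zero.1 h3).resolve_left
    (pow_ne_zero _ (prod_ne_zero_iff.2 fun j _ => qp_ne j))

section

variable {Q : Fin (m + 6 + 1) → MvPolynomial (Fin (m + 6 + 1)) k}
  (hQ : ∀ i, (Q i).IsHomogeneous n) (h2 : ∑ l ∈ out m,
    aeval (FN (m + 6) a b) (Q l) * FF (qd 0 a) (qd 1 b) (m + 6) l = 0)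
include hQ h2

theorem Spc.top : aeval (p2 (i1 m) (i2 m) (0 : k) 1) (Q 0) = 0 := by
  have := star_eval hQ h2 (prod_ne_zero_iff.2 fun j _ => qp_ne j) (fun i => sp_five) (b 0 0)
  rw [sum_eq_single_of_mem 0 out_zero fun l _ hl => by
    rw [prod_eq_zero (mem_range.2 (Fin.pos_iff_ne_zero.2 hl)) (qv_self _ _), zero_mul, mul_zero],
      Polynomial.eval_zero, Polynomial.eval_one] at this
  exact (mul_eq_zero.1 this).resolve_right (mul_ne_zero (by simp) (prod_ne_zero_iff.2 fun j hj =>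
    H.ha.qv_ne (by omega) (by have := mem_Ico.1 hj; omega) (by have := mem_Ico.1 hj; omega) 0))

theorem Spc.mid {j : ℕ} (hj : j ≤ m + 2) (e : Fin 2) :
    aeval (p2 (i1 m) (i2 m) (qv a (a (m + 4) 0) (m + 5)) (qv b (b j e) (m + 5))) (Q 0) = 0 := by
  have k3 := fun e' => star_eval hQ h2 (prod_ne_zero_iff.2 fun j _ => qp_ne j)
    (fun i => H.four e') (b j e)
  simp only [Polynomial.eval_C, qp_eval] at k3
  have := congrArg₂ (fun u v => qv a (a (m + 4) 1) (m + 2) * u - qv a (a (m + 4) 0) (m + 2) * v)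
    (k3 0) (k3 1)
  simp only [mul_sum, ← sum_sub_distrib] at this
  rw [sum_eq_single_of_mem 0 out_zero fun l _ hl => by
    rcases le_or_gt l.1 (m + 2) with h | h
    · rw [H.prod (Fin.pos_iff_ne_zero.2 hl) h, H.prod (Fin.pos_iff_ne_zero.2 hl) h 1]; ring
    · rw [prod_eq_zero (mem_range.2 (hj.trans_lt h)) (qv_self _ _)]; ring] at this
  have k4 : ∀ e, ∏ j ∈ Ico 0 (m + 4), qv a (a (m + 4) e) j = qv a (a (m + 4) e) 0 *
      ((∏ j ∈ Ico 1 (m + 2), qv a (a (m + 4) 0) j) * qv a (a (m + 4) e) (m + 2) *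
        qv a (a (m + 4) 0) (m + 3)) := fun e => by
    rw [prod_eq_prod_Ico_succ_bot (by omega), H.prod le_rfl (by omega)]
  rw [Fin.val_zero, k4, k4, range_zero, prod_empty] at this
  refine (mul_eq_zero.1 (?_ : _ * ((qv a (a (m + 4) 0) 0 - qv a (a (m + 4) 1) 0) *
    (qv a (a (m + 4) 0) (m + 2) * qv a (a (m + 4) 1) (m + 2) * qv a (a (m + 4) 0) (m + 3) *
      ∏ j ∈ Ico 1 (m + 2), qv a (a (m + 4) 0) j)) = 0)).resolve_right (mul_ne_zero
        (sub_ne_zero.2 fun e => H.h0 ((H.sym (by omega)).1 e)) (mul_ne_zero (mul_ne_zero (mul_ne_zero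
          (H.ne (by omega) (by omega) _) (H.ne (by omega) (by omega) _))
            (H.ne (by omega) (by omega) _)) (H.ne_prod (by omega) _)))
  linear_combination this

theorem Spc.root (hn : n ≤ 2 * m + 6) :
    aeval (p2 (i2 m) (i1 m) (Polynomial.C (1 : k)) Polynomial.X) (Q 0) = 0 := by
  have hA := H.ne (j := m + 5) (by omega) (by omega) 0
  have hB : ∀ j : Fin (m + 3) × Fin 2, qv b (b j.1 j.2) (m + 5) ≠ 0 := fun j =>
    H.hb.qv_ne (by omega) (by omega) (by omega) _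
  have k0 : ∀ u : k, (aeval (p2 (i2 m) (i1 m) (Polynomial.C (1 : k)) Polynomial.X) (Q 0)).eval u =
      aeval (p2 (i1 m) (i2 m) u 1) (Q 0) := fun u => by
    rw [← Polynomial.coe_aeval_eq_eval, p2_map, p2_swap i12.symm, Polynomial.aeval_X, map_one, map_one]
  refine Polynomial.eq_zero_of_natDegree_lt_card_of_eval_eq_zero _
    (f := fun j : Option (Fin (m + 3) × Fin 2) => j.elim 0 fun j =>
      qv a (a (m + 4) 0) (m + 5) / qv b (b j.1 j.2) (m + 5)) ?_ ?_
        ((p2_deg (hQ 0) 1).trans_lt (by simp; omega))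
  · rintro (_ | i) (_ | j) e
    · rfl
    · exact (div_ne_zero hA (hB j) e.symm).elim
    · exact (div_ne_zero hA (hB i) e).elim
    · have e1 := mul_left_cancel₀ hA ((div_eq_div_iff (hB i) (hB j)).1 e)
      rw [← sub_eq_zero, qv_sub, mul_eq_zero, sub_eq_zero, sub_eq_zero] at e1
      have := e1.elim (H.hb _ (by omega) _ (by omega) _ _) (H.hr _ (by omega) _ (by omega) _ _)
      rw [Prod.ext (Fin.ext this.1) this.2]
  · rintro (_ | j)
    · exact (k0 _).trans (H.top hQ h2)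
    · have := p2_scale (i := i1 m) (j := i2 m) (hQ 0) (qv b (b j.1 j.2) (m + 5))⁻¹
        (qv a (a (m + 4) 0) (m + 5)) (qv b (b j.1 j.2) (m + 5))
      rw [H.mid hQ h2 (by omega), mul_zero, inv_mul_cancel₀ (hB j), mul_comm, ← div_eq_mul_inv] at this
      exact (k0 _).trans this

end

theorem Spc.small {P : MvPolynomial (Fin (m + 6 + 1)) k} (h1 : P.IsHomogeneous n)
    (h2 : aeval (FN (m + 6) a b) P = 0) (hn : n ≤ 2 * m + 7) : ps k m P = 0 := by
  rcases n with _ | n
  · rw [p2_const h1 h2, map_zero]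
  obtain ⟨Q, hQ, rfl⟩ := p2_split h1 (H.line h1 h2)
  have := H.root hQ (by simpa only [FN, FI, mul_comm, map_sum, map_mul, aeval_X, out] using h2) (by omega)
  rw [map_sum]
  refine sum_eq_zero fun l hl => ?_
  rw [ps_X (mem_filter.1 hl).2.1 (mem_filter.1 hl).2.2]
  split_ifs with e
  · rw [e, this]; simp
  · simp

end Pool.Agent.Lib.MP_514cbf_ag
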