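import Pool.Agent.Lib.MP_514cbf_ag.UnbC

/-! An equation which sees the normal direction, the lower bound. -/

noncomputable section

namespace Pool.Agent.Lib.MP_514cbf_ag

open MvPolynomial Finset

variable {k : Type*} [Field k] {m n h : ℕ} {a b : ℕ → Fin 2 → k} {s x : k}

/-- the last three generators -/
def F3 (m : ℕ) (a b : ℕ → Fin 2 → k) (j : Fin 3) : MvPolynomial (Fin 3) k :=
  FF (qd 0 a) (qd 1 b) (m + 6) (m + 4 + j)

/-- five indices -/
def s5 (m : ℕ) : Fin 5 → ℕ := ![0, 1, 2, m + 3, m + 4]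

theorem s5_le (i : Fin 5) : s5 m i ≤ m + 4 := by fin_cases i <;> simp [s5]

/-- relations which are linear in five variables -/
def Rel5 (m : ℕ) (a b : ℕ → Fin 2 → k) (n : ℕ) (c : Fin 5 → MvPolynomial (Fin 3) k) : Prop :=
  (∀ i, (c i).IsHomogeneous n) ∧
    ∑ i, aeval (F3 m a b) (c i) * FF (qd 0 a) (qd 1 b) (m + 6) (s5 m i) = 0

theorem FF_hom {i : ℕ} (hi : i ≤ h) : (FF (qd 0 a) (qd 1 b) h i).IsHomogeneous (2 * h) := by
  rw [show 2 * h = ∑ _ ∈ range i, 2 + ∑ _ ∈ Ico i h, 2 by simp; omega]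
  exact (IsHomogeneous.prod _ _ _ fun t _ => qd_hom 1 t).mul
    (IsHomogeneous.prod _ _ _ fun t _ => qd_hom 0 t)

theorem u_net {Λ : Type*} [CommRing Λ] [IsDomain Λ] [Algebra k Λ] {T : Fin 3 → Λ} {ξ η : Λ}
    (hδ : T 1 ^ 2 - T 0 * T 2 ≠ 0) {i j : ℕ}
    (r1 : aeval ![ξ, η, 1] (qd 1 b i) * T 0 = aeval ![ξ, η, 1] (qd 0 a i) * T 1)
    (r2 : aeval ![ξ, η, 1] (qd 1 b j) * T 1 = aeval ![ξ, η, 1] (qd 0 a j) * T 2)
    (p : Fin 5 → MvPolynomial (Fin 3) k) : ∃ g : Fin 5 → MvPolynomial (Fin 3) k, g ≠ 0 ∧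
      ∑ i, aeval T (g i) * aeval ![ξ, η, 1] (p i) = 0 := by
  simp [qd] at r1 r2
  refine u_dep (aeval T) (δ := X 1 ^ 2 - X 0 * X 2) (by simpa using hδ)
    ![X 0 * X 1 * (C (b i 0) * C (b i 1) - C (b j 0) * C (b j 1)) -
        X 1 ^ 2 * (C (a i 0) * C (a i 1)) + X 0 * X 2 * (C (a j 0) * C (a j 1)),
      X 1 ^ 2 * (C (a i 0) + C (a i 1)) - X 0 * X 2 * (C (a j 0) + C (a j 1)),
      X 0 * X 1 * (C (b j 0) + C (b j 1) - C (b i 0) - C (b i 1))]
    ![X 1 * X 2 * (C (a j 0) * C (a j 1) - C (a i 0) * C (a i 1)) -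
        X 1 ^ 2 * (C (b j 0) * C (b j 1)) + X 0 * X 2 * (C (b i 0) * C (b i 1)),
      X 1 * X 2 * (C (a i 0) + C (a i 1) - C (a j 0) - C (a j 1)),
      X 1 ^ 2 * (C (b j 0) + C (b j 1)) - X 0 * X 2 * (C (b i 0) + C (b i 1))] ?_ ?_ p
  · simp
    linear_combination -T 1 * r1 + T 0 * r2
  · simp
    linear_combination T 1 * r2 - T 2 * r1

variable (H : Spc m a b s)
include H

theorem Spc.f3 (e : Fin 2) (j : Fin 3) : sp (a (m + 4) e) (F3 m a b j) = (∏ j ∈ range (m + 5), qp b j) *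
    p2 1 2 (Polynomial.C (qv a (a (m + 4) 0) (m + 5))) (qp b (m + 5)) j := by
  rw [F3, H.four e (by omega)]
  fin_cases j <;> simp [p2]

theorem Spc.rel : ∃ n c, Rel5 m a b n c ∧ c ≠ 0 := by
  let θ : MvPolynomial (Fin 3) k →ₐ[k] MvPolynomial (Fin 3) k := aeval (Function.update X 2 (C 1))
  have t1 : ∀ p, aeval ![Polynomial.C (X 0 : MvPolynomial (Fin 3) k), Polynomial.C (X 1), 1] p =
      Polynomial.C (θ p) := fun p => Eq.symm ((u_map Polynomial.CAlgHom _ p).trans
        (congrArg (fun w : _ → Polynomial (MvPolynomial (Fin 3) k) => aeval w p) (funext fun i => by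
          fin_cases i <;> simp)))
  have t2 : ∀ p, sp (a (m + 4) 0) (θ p) = sp (a (m + 4) 0) p := fun p => (u_map _ _ p).trans
    (congrArg (fun w : _ → Polynomial k => aeval w p) (funext fun i => by fin_cases i <;> simp [sp]))
  have r : ∀ j < m + 6, aeval ![Polynomial.C (X 0), Polynomial.C (X 1), 1] (qd 1 b j) *
      (Polynomial.X * Polynomial.C (θ (FF (qd 0 a) (qd 1 b) (m + 6) j))) =
        aeval ![Polynomial.C (X 0), Polynomial.C (X 1), 1] (qd 0 a j) *
          (Polynomial.X * Polynomial.C (θ (FF (qd 0 a) (qd 1 b) (m + 6) (j + 1)))) := fun j hj => by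
    rw [t1, t1, mul_left_comm, ← map_mul, ← map_mul, FF_rel hj, map_mul, map_mul, mul_left_comm]
  obtain ⟨g, g1, g2⟩ := u_net (T := fun j => Polynomial.X * Polynomial.C (θ (F3 m a b j))) (fun e => by
      have e1 := congrArg (fun p => sp (a (m + 4) 0) (Polynomial.eval 1 p)) e
      simp [t2, H.f3, p2, prod_eq_zero_iff, qp_ne, H.ne (j := m + 5) (by omega) (by omega)] at e1)
    (r (m + 4) (by omega)) (r (m + 5) (by omega)) fun i => FF (qd 0 a) (qd 1 b) (m + 6) (s5 m i)
  obtain ⟨i, hi⟩ := Function.ne_iff.1 g1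
  obtain ⟨n, -, hn⟩ := exists_ne_zero_of_sum_ne_zero ((sum_homogeneousComponent (g i)).trans_ne hi)
  refine ⟨n, fun i => homogeneousComponent n (g i), ⟨fun i => homogeneousComponent_isHomogeneous _ _,
    u_dehom (n := 2 * (m + 6) * n + 2 * (m + 6)) (IsHomogeneous.sum _ _ _ fun i _ =>
      ((homogeneousComponent_isHomogeneous _ _).aeval _ fun j => FF_hom (by omega)).mul
        (FF_hom ((s5_le i).trans (by omega)))) 2 one_ne_zero ?_⟩, fun e => hn (congrFun e i)⟩
  have := congrArg (·.coeff n) g2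
  simp only [t1, Polynomial.finsetSum_coeff, Polynomial.coeff_mul_C, u_coeff,
    Polynomial.coeff_zero] at this
  rw [← this, map_sum]
  exact sum_congr rfl fun i _ => by rw [map_mul, u_map]

theorem Spc.all {c : Fin 5 → MvPolynomial (Fin 3) k} (hc : Rel5 m a b n c)
    (h0 : aeval (p2 (2 : Fin 3) 1 (Polynomial.C (1 : k)) Polynomial.X) (c 0) = 0) (i : Fin 5) :
    aeval (p2 (1 : Fin 3) 2 (X 1) (X 2 : MvPolynomial (Fin 3) k)) (c i) = 0 := by
  have hA := H.ne (j := m + 5) (by omega) (by omega) 0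
  obtain ⟨g, hg⟩ : ∃ g : Fin 5 → Polynomial k, ∀ i, g i = aeval (p2 (1 : Fin 3) 2
    (Polynomial.C (qv a (a (m + 4) 0) (m + 5))) Polynomial.X) (c i) := ⟨_, fun _ => rfl⟩
  have k1 : ∀ i, aeval (p2 (1 : Fin 3) 2 (Polynomial.C (qv a (a (m + 4) 0) (m + 5))) (qp b (m + 5)))
      (c i) = (g i).comp (qp b (m + 5)) := fun i => by
    rw [hg, Polynomial.comp_eq_aeval, p2_map, Polynomial.aeval_X, Polynomial.aeval_C,
      Polynomial.algebraMap_eq]
  have g0 : g 0 = 0 := by
    rw [hg, p2_swap (by decide)]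
    exact p2_zero (hc.1 0) one_ne_zero h0 (by decide) _ _
  have k2 := fun e => star (x := a (m + 4) e) (by omega) (fun i _ => s5_le i) hc.1 hc.2
    (prod_ne_zero_iff.2 fun j _ => qp_ne j) (H.f3 e)
  have k3 : ∀ e, qp b 0 * Polynomial.C ((∏ j ∈ Ico 2 (m + 2), qv a (a (m + 4) 0) j) *
      qv a (a (m + 4) 0) (m + 3)) * ((g 1).comp (qp b (m + 5)) * Polynomial.C (qv a (a (m + 4) 0) 1) +
        (g 2).comp (qp b (m + 5)) * qp b 1) * Polynomial.C (qv a (a (m + 4) e) (m + 2)) +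
      (∏ j ∈ range (m + 3), qp b j) * ((g 3).comp (qp b (m + 5)) *
        Polynomial.C (qv a (a (m + 4) 0) (m + 3)) + (g 4).comp (qp b (m + 5)) * qp b (m + 3)) = 0 :=
    fun e => by
      have := k2 e
      have e3 : qv a (a (m + 4) e) (m + 3) = qv a (a (m + 4) 0) (m + 3) := by
        fin_cases e
        exacts [rfl, ((H.sym (by omega)).2 (H.hs _ (by omega) (by omega) (by omega))).symm]
      simp only [k1, Fin.sum_univ_five, g0, Polynomial.zero_comp, zero_mul, zero_add] at this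
      rw [show s5 m 1 = 1 from rfl, show s5 m 2 = 2 from rfl, show s5 m 3 = m + 3 from rfl,
        show s5 m 4 = m + 4 from rfl, H.prod le_rfl (by omega), H.prod (by omega) (by omega),
        prod_eq_prod_Ico_succ_bot (by omega : 1 < m + 2), prod_range_succ _ (m + 3), Ico_self,
        Nat.Ico_succ_singleton, prod_singleton, e3] at this
      simp only [prod_range_succ _ 1, prod_range_one, map_mul, prod_empty, map_one] at this ⊢
      linear_combination this
  have k4 : (g 1).comp (qp b (m + 5)) * Polynomial.C (qv a (a (m + 4) 0) 1) +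
      (g 2).comp (qp b (m + 5)) * qp b 1 = 0 := by
    have := sub_eq_zero.2 ((k3 0).trans (k3 1).symm)
    rw [add_sub_add_right_eq_sub, ← mul_sub, ← map_sub, mul_eq_zero, mul_eq_zero, mul_eq_zero,
      Polynomial.C_eq_zero, Polynomial.C_eq_zero, sub_eq_zero, H.sym (by omega)] at this
    exact (this.resolve_right H.h2).resolve_left (not_or.2 ⟨qp_ne _,
      mul_ne_zero (H.ne_prod (by omega) _) (H.ne (by omega) (by omega) _)⟩)
  have k5 := k3 0
  rw [k4, mul_zero, zero_mul, zero_add, mul_eq_zero,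
    or_iff_right (prod_ne_zero_iff.2 fun j _ => qp_ne j)] at k5
  obtain ⟨g1, g2⟩ := qp_par (H.ne (by omega) (by omega) _) (fun e => zero_ne_one
    (H.hr 1 (by omega) 1 (by omega) 0 1 e).2) k4
  obtain ⟨g3, g4⟩ := qp_par (H.ne (by omega) (by omega) _) H.h3 k5
  refine p2_zero (hc.1 i) hA ((hg i).symm.trans ?_) (by decide) _ _
  fin_cases i
  exacts [g0, g1, g2, g3, g4]

theorem Spc.sees : ∃ n c, Rel5 m a b n c ∧
    aeval (p2 (2 : Fin 3) 1 (Polynomial.C (1 : k)) Polynomial.X) (c 0) ≠ 0 := by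
  by_contra hc
  have k1 : ∀ {n c}, Rel5 m a b n c → ∀ i,
      aeval (p2 (1 : Fin 3) 2 (X 1) (X 2 : MvPolynomial (Fin 3) k)) (c i) = 0 := fun h1 =>
    H.all h1 (by_contra fun e => hc ⟨_, _, h1, e⟩)
  obtain ⟨n, c, h1, h2⟩ := H.rel
  induction n generalizing c with
  | zero =>
    refine h2 (funext fun i => ?_)
    have a1 := h1.1 i
    have a2 := p2_const a1 (k1 h1 i)
    exact a2
  | succ n ih =>
    choose Q q1 q2 using fun i => p2_split (h1.1 i) (k1 h1 i)
    have q3 : ∀ i, c i = X 0 * Q i 0 := fun i => by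
      rw [q2 i, show (univ.filter fun l : Fin 3 => l ≠ 1 ∧ l ≠ 2) = {0} by decide, sum_singleton]
    refine ih (fun i => Q i 0) ⟨fun i => q1 i 0, ?_⟩ fun e => h2 (funext fun i => by
      rw [q3, congrFun e i]; simp)
    have := h1.2
    simp only [q3, map_mul, aeval_X, mul_assoc, ← mul_sum] at this
    exact (mul_eq_zero.1 this).resolve_left (mul_ne_zero (prod_ne_zero_iff.2 fun j _ =>
      qd_ne (by decide) j) (prod_ne_zero_iff.2 fun j _ => qd_ne (by decide) j))

theorem Spc.not_gen : ¬ Gen (FN (m + 6) a b) (2 * m + 7) := fun hG => by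
  have k1 : low (FN (m + 6) a b) (2 * m + 7) ≤
      RingHom.ker ((ps k m).toRingHom.comp (map constantCoeff)) := Ideal.span_le.2 fun g hg => by
    rw [SetLike.mem_coe, RingHom.mem_ker, RingHom.comp_apply,
      ← sum_homogeneousComponent (map _ g), map_sum]
    exact sum_eq_zero fun n hn => H.small (homogeneousComponent_isHomogeneous _ _)
      (mem_fib.1 (H.ha.eps hg.1) n) (by
        have := (deg_map constantCoeff g).trans hg.2
        have := mem_range.1 hn
        omega)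
  obtain ⟨n, c, h1, h2⟩ := H.sees
  let e : Fin 3 → Fin (m + 6 + 1) := fun j => ⟨m + 4 + j, by omega⟩
  let σ : Fin 5 → Fin (m + 6 + 1) := fun i => ⟨s5 m i, by have := s5_le (m := m) i; omega⟩
  have k2 : (∑ i, X (σ i) * rename e (c i)).IsHomogeneous (1 + n) :=
    IsHomogeneous.sum _ _ _ fun i _ => (isHomogeneous_X _ _).mul (h1.1 i).rename_isHomogeneous
  have k3 := k1 (hG (mem_fib.2 fun d => (?_ : aeval (FN (m + 6) a b) (homogeneousComponent d
    (∑ i, X (σ i) * rename e (c i))) = 0)))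
  · rw [RingHom.mem_ker, RingHom.comp_apply, MvPolynomial.map_map, algebraMap_eq,
      constantCoeff_comp_C, MvPolynomial.map_id, map_sum] at k3
    have k4 : ∀ i, σ i ≠ i1 m ∧ σ i ≠ i2 m := fun i => by
      have := s5_le (m := m) i
      simp only [σ, i1, i2, Ne, Fin.mk.injEq]
      omega
    have k5 : p2 (i2 m) (i1 m) (Polynomial.C (1 : k)) Polynomial.X ∘ e =
        p2 2 1 (Polynomial.C 1) Polynomial.X := funext fun j => by
      fin_cases j <;> simp [p2, e, i1, i2]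
    simp only [AlgHom.toRingHom_eq_coe, RingHom.coe_coe, RingHom.id_apply] at k3
    rw [sum_congr rfl fun i _ => ps_X (k4 i).1 (k4 i).2 _] at k3
    simp only [aeval_rename, k5, Fin.sum_univ_five] at k3
    exact h2 (by simpa [σ, s5, Fin.ext_iff] using congrArg TrivSqZeroExt.snd k3)
  · rw [homogeneousComponent_of_mem k2]
    split_ifs
    · rw [← h1.2, map_sum]
      exact sum_congr rfl fun i _ => by rw [map_mul, aeval_X, aeval_rename, mul_comm]; rfl
    · exact map_zero _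

end Pool.Agent.Lib.MP_514cbf_ag
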