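import Pool.Agent.Lib.MP_514cbf_ag.UnbD

/-! Existence of the special position. -/

noncomputable section

namespace Pool.Agent.Lib.MP_514cbf_ag

open MvPolynomial Finset

variable {k : Type*} [Field k] {m N : ℕ} {c : ℕ → Fin 2 → k}

/-- positions of the parameters of the first family -/
def ixa (m i : ℕ) (e : Fin 2) : ℕ × Fin 2 :=
  if i = 0 then (if e = 0 then 0 else m + 2, 0) else
    if i = m + 2 then (if e = 0 then 0 else m + 2, 1) else (i, e)

/-- positions of the parameters of the second family -/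
def ixb (m i : ℕ) (e : Fin 2) : ℕ × Fin 2 :=
  if i ≤ m + 2 then (2 * i + 1 + e, 0) else if i = m + 5 then (0, e) else (2 * (i - (m + 3)) + 1 + e, 1)

theorem Inj.sum_one (h1 : Inj N c) (h2 : ∀ i < N, sm c i = 1) {i j : ℕ} (hi : i < N) (hj : j < N)
    {e : Fin 2} (h : c i e + c j e = 1) : False := by
  have := h2 j hj
  fin_cases e
  · exact zero_ne_one (h1 i hi j hj 0 1 (by simp [sm] at *; linear_combination h - this)).2
  · exact one_ne_zero (h1 i hi j hj 1 0 (by simp [sm] at *; linear_combination h - this)).2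

theorem exists_spc (h1 : Inj (2 * m + 7) c) (h2 : ∀ i < 2 * m + 7, sm c i = 1) :
    ∃ a b : ℕ → Fin 2 → k, Spc m a b 1 := by
  have k0 : sm (fun i e => c (ixb m i e).1 (ixb m i e).2) (m + 5) = 1 := by
    simpa [sm, ixb] using h2 0 (by omega)
  refine ⟨fun i e => c (ixa m i e).1 (ixa m i e).2, fun i e => c (ixb m i e).1 (ixb m i e).2,
    fun i hi j hj e e' E => ?_, fun i hi j hj e e' E => ?_, fun i hi a1 a2 => ?_, ?_, ?_, ?_,
    fun i hi j hj e e' E => ?_⟩
  · have := h1 _ (by unfold ixa; split_ifs <;> simp <;> omega) _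
      (by unfold ixa; split_ifs <;> simp <;> omega) _ _ E
    unfold ixa at this
    split_ifs at this <;> simp at this <;> omega
  · have := h1 _ (by unfold ixb; split_ifs <;> simp <;> omega) _
      (by unfold ixb; split_ifs <;> simp <;> omega) _ _ E
    unfold ixb at this
    split_ifs at this <;> simp at this <;> omega
  · simpa [sm, ixa, a1, a2] using h2 i (by omega)
  · exact fun e => h1.sum_one h2 (i := 0) (j := m + 2) (e := 0) (by omega) (by omega)
      (by simpa [sm, ixa] using e)
  · exact fun e => h1.sum_one h2 (i := 0) (j := m + 2) (e := 1) (by omega) (by omega)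
      (by simpa [sm, ixa] using e)
  · rw [k0]
    exact fun e => h1.sum_one h2 (i := 1) (j := 2) (e := 1) (by omega) (by omega)
      (by simpa [sm, ixb] using e)
  · rw [k0] at E
    exact (h1.sum_one h2 (i := 2 * i + 1 + e) (j := 2 * j + 1 + e') (e := 0) (by omega) (by omega)
      (by simpa [ixb, hi, hj] using E)).elim

theorem exists_big {g : Fin (2 * m + 7) × Fin 2 → k} (hg : Function.Injective g) :
    ∃ n ∈ vals k (m + 6), 2 * m + 8 ≤ n := by
  obtain ⟨c, h1, h2⟩ := exists_sym hg
  obtain ⟨a, b, H⟩ := exists_spc h1 h2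
  obtain ⟨c, N⟩ := exists_adm H.ha H.hb
  obtain ⟨r, f, hf⟩ := exists_fam c
  exact ⟨_, ⟨c, r, f, hf, rfl⟩, le_rel fun e => H.not_gen ((N.gen hf (by omega)).1 e)⟩

end Pool.Agent.Lib.MP_514cbf_ag
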